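import Pool.Agent.Lib.CR.Util

/-! Project cr: solutions with a light set of primes carrying most of the product. -/

open Finset Real

noncomputable section

namespace Pool.Agent.Lib.CR

theorem st_CA (hG : St_GAP) (hW : St_W) : St_CA := by
  intro κ ε hκ hκ' hε
  obtain ⟨X₀, h⟩ := hW (ε * κ / 27) (by positivity)
  refine ⟨max X₀ 1, fun X hX Λ F hF => ?_⟩
  obtain ⟨W, h1, h2⟩ := h X (le_of_max_le_left hX)
  have hX0 : 0 < X := one_pos.trans_le (le_of_max_le_right hX)
  have h3 := card_le_classes' F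
    ((Icc 1 ⌊X ^ (2 / 3 - κ)⌋₊).filter fun σ => #σ.primeFactors ≤ W)
    (fun t σ => log (Pr t) - sh σ.primeFactors (Pr t) ≤ (1 - κ) * Λ - 3) (2 ^ (27 / κ * W))
    (fun t ht => by
      obtain ⟨-, -, a3, S, a4, a5, a6⟩ := hF t ht
      have hp : ∀ p ∈ S, p.Prime := fun p hp => Nat.prime_of_mem_primeFactors (a4 hp)
      have h0 : 0 < ∏ p ∈ S, p := prod_pos fun p h => (hp p h).pos
      refine ⟨∏ p ∈ S, p, mem_filter.2 ⟨mem_Icc.2 ⟨h0, Nat.le_floor ?_⟩, ?_⟩, ?_⟩
      · rw [← log_le_log_iff (by exact_mod_cast h0) (by positivity), log_rpow hX0,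
          log_prod_ms fun p h => (hp p h).pos]
        exact a5
      · rw [Nat.primeFactors_prod hp]
        exact (card_le_card a4).trans (h2 _ a3)
      · rw [Nat.primeFactors_prod hp]
        exact a6)
    fun σ hσ F' hF' h' => hG κ Λ W _ F' hκ (by linarith)
      (fun _ hp => Nat.prime_of_mem_primeFactors hp) (mem_filter.1 hσ).2
      fun t ht => ⟨(hF t (hF' ht)).1, (hF t (hF' ht)).2.1, h' t ht⟩
  rw [rpow_add hX0]
  refine h3.trans (mul_le_mul ?_ (two_rpow_le hX0 (by positivity) ?_) (by positivity)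
    (by positivity))
  · exact le_trans (by exact_mod_cast card_filter_le _ _) (card_Icc_floor (by positivity))
  · calc 27 / κ * W ≤ 27 / κ * (ε * κ / 27 * log X) := by gcongr
      _ = ε * log X := by field_simp

end Pool.Agent.Lib.CR
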