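import Pool.Agent.Lib.CR.Util

/-! Project cr, block CB: triples with a large prime, range of large `c`. -/

open Finset Real

noncomputable section

namespace Pool.Agent.Lib.CR

namespace T45

/-- The class condition of block CB0. -/
def Cl (n : ℕ) (θ ζ γ X : ℝ) (Λ : ℕ) (i : Fin 3) (t : ℕ × ℕ) : Prop :=
  ∃ (m : ℕ) (S B : Finset ℕ),
    m ^ ⌊θ * Λ / (12 * n * log X)⌋₊ ∣ xx i t ∧ log X / n ≤ log m ∧ log m ≤ log X ∧
    S ⊆ (yy i t * zz i t).primeFactors ∧ B ⊆ big (log X / n) (yy i t * zz i t) ∧ Disjoint S B ∧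
    log (yy i t) + log (zz i t) - sh S (yy i t * zz i t) - sh B (yy i t * zz i t) ≤ ζ * Λ ∧
    5 / 4 * log m + ms S ≤ γ * log X

theorem ms_small (τ : ℝ) (x : ℕ) :
    ms (x.primeFactors \ big τ x) = log (rad x) - ms (big τ x) := by
  rw [log_rad, eq_sub_iff_add_eq]
  exact sum_sdiff (big_subset τ x)

theorem ms_big_mul (τ : ℝ) {a b : ℕ} (h : a.Coprime b) :
    ms (big τ (a * b)) = ms (big τ a) + ms (big τ b) := by
  rw [big, h.primeFactors_mul, filter_union, ms,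
    sum_union (disjoint_filter_filter h.disjoint_primeFactors)]
  rfl

theorem log_rad_mul {a b : ℕ} (h : a.Coprime b) :
    log (rad (a * b)) = log (rad a) + log (rad b) := by
  rw [rad_mul h, Nat.cast_mul,
    log_mul (by exact_mod_cast (rad_pos a).ne') (by exact_mod_cast (rad_pos b).ne')]

theorem ms_big_le (τ : ℝ) (x : ℕ) : ms (big τ x) ≤ log (rad x) :=
  (ms_mono (big_subset τ x)).trans (log_rad x).symm.le

theorem sh_split (τ : ℝ) {x : ℕ} (hx : x ≠ 0) :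
    sh (x.primeFactors \ big τ x) x + sh (big τ x) x = log x := by
  rw [← sh_union sdiff_disjoint, sdiff_union_of_subset (big_subset τ x), sh_self hx]

theorem modu (hM : St_ML) {n x : ℕ} {L s : ℝ} (hn : 6 ≤ n) (hx : 0 < x) (hL : 0 < L)
    (hr : log (rad x) ≤ L) (h1 : 12 * n * L ≤ s) (h2 : s ≤ log x) :
    ∃ m : ℕ, m ^ ⌊s / (12 * n * L)⌋₊ ∣ x ∧ L / n ≤ log m ∧ log m ≤ L ∧
      log m ≤ ms (big (L / n) x) + 6 * L / n := by
  have h0 : (0 : ℝ) < n := by exact_mod_cast (by omega : 0 < n)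
  have h3 : 0 < 12 * n * L := by positivity
  refine hM n _ x L hn (Nat.le_floor ?_) hx hL hr ?_
  · rwa [Nat.cast_one, one_le_div h3]
  · have h4 := Nat.floor_le (div_nonneg (h3.le.trans h1) h3.le)
    rw [le_div_iff₀ h3] at h4
    linarith

theorem rad_xx {t : ℕ × ℕ} (h : Tr t) (i : Fin 3) : log (rad (xx i t)) ≤ log (rad (Pr t)) :=
  log_le_of_le (Nat.le_of_dvd (rad_pos _) (rad_dvd_rad ⟨_, Pr_eq i t⟩ h.Pr_pos.ne'))

/-- A role in which all small primes of `y z` are fixed. -/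
theorem roleA (hM : St_ML) {n Λ : ℕ} {θ ζ γ X : ℝ} {t : ℕ × ℕ} (i : Fin 3) (hn : 6 ≤ n)
    (hL : 0 < log X) (hζ : 0 < ζ) (h : Tr t) (hr : log (rad (Pr t)) ≤ log X)
    (h1 : 12 * n * log X ≤ θ * Λ) (h2 : θ * Λ ≤ log (xx i t))
    (hc : 9 / 4 * ms (big (log X / n) (xx i t)) - log (rad (xx i t)) + log (rad (Pr t)) -
      ms (big (log X / n) (Pr t)) + 15 / 2 * (log X / n) ≤ γ * log X) : Cl n θ ζ γ X Λ i t := by
  obtain ⟨m, m1, m2, m3, m4⟩ := modu hM hn (h.xx_pos i) hL ((rad_xx h i).trans hr) h1 h2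
  have hy := h.yy_pos i
  have hz := h.zz_pos i
  refine ⟨m, _ \ big (log X / n) (yy i t * zz i t), _, m1, m2, m3, sdiff_subset, Subset.rfl,
    sdiff_disjoint, ?_, ?_⟩
  · have e1 := sh_split (log X / n) (Nat.mul_pos hy hz).ne'
    rw [Nat.cast_mul, log_mul (by exact_mod_cast hy.ne') (by exact_mod_cast hz.ne')] at e1
    have : 0 ≤ ζ * Λ := by positivity
    linarith
  · rw [Pr_eq i t, ms_big_mul _ (h.cop_yzx i).symm, log_rad_mul (h.cop_yzx i).symm] at hc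
    rw [ms_small]
    rw [mul_div_assoc] at m4
    linarith

/-- A role in which `y` is neglected. -/
theorem roleB (hM : St_ML) {n Λ : ℕ} {θ ζ γ X : ℝ} {t : ℕ × ℕ} (i : Fin 3) (hn : 6 ≤ n)
    (hL : 0 < log X) (h : Tr t) (hr : log (rad (Pr t)) ≤ log X)
    (h1 : 12 * n * log X ≤ θ * Λ) (h2 : θ * Λ ≤ log (xx i t)) (h3 : log (yy i t) ≤ ζ * Λ)
    (hc : 5 / 4 * ms (big (log X / n) (xx i t)) + log (rad (zz i t)) -
      ms (big (log X / n) (zz i t)) + 15 / 2 * (log X / n) ≤ γ * log X) :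
    Cl n θ ζ γ X Λ i t := by
  obtain ⟨m, m1, m2, m3, m4⟩ := modu hM hn (h.xx_pos i) hL ((rad_xx h i).trans hr) h1 h2
  have hy := h.yy_pos i
  have hz := h.zz_pos i
  have h0 := (Nat.mul_pos hy hz).ne'
  have hd : zz i t ∣ yy i t * zz i t := Dvd.intro_left _ rfl
  refine ⟨m, (zz i t).primeFactors \ big (log X / n) (zz i t), big (log X / n) (zz i t), m1, m2,
    m3, sdiff_subset.trans (Nat.primeFactors_mono hd h0), big_mono _ hd h0, sdiff_disjoint,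
    ?_, ?_⟩
  · have e1 := sh_split (log X / n) hz.ne'
    have e2 := sh_le_of_dvd ((zz i t).primeFactors \ big (log X / n) (zz i t)) hd h0
    have e3 := sh_le_of_dvd (big (log X / n) (zz i t)) hd h0
    linarith
  · rw [ms_small]
    rw [mul_div_assoc] at m4
    linarith

theorem cover (hM : St_ML) {n Λ : ℕ} {κ θ ζ₀ ζ₁ X : ℝ} {t : ℕ × ℕ} (hn : 6 ≤ n) (hκ : 0 < κ)
    (hκ' : κ ≤ 1 / 100) (hnκ : 60 / κ ≤ n) (hL : 1 ≤ log X) (hζ : 0 < ζ₁) (hθ : θ ≤ ζ₀)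
    (hθ' : θ ≤ 1 / 2) (h1 : 12 * n * log X ≤ θ * Λ) (h : Tr t) (hs : Sc Λ t)
    (hr : log (rad (Pr t)) ≤ log X) (hb : (big (κ * log X) (Pr t)).Nonempty) :
    (∃ i, Cl n θ ζ₁ (2 / 3 - κ / 8) X Λ i t) ∨ ∃ i, Cl n (1 / 2) ζ₀ (2 / 3 - κ / 8) X Λ i t := by
  have hL0 : 0 < log X := by linarith
  have h0 : (0 : ℝ) < n := by exact_mod_cast (by omega : 0 < n)
  have h6 : (6 : ℝ) ≤ n := by exact_mod_cast hn
  have hΛ : (0 : ℝ) ≤ Λ := Nat.cast_nonneg _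
  have hτ : log X / n ≤ κ * log X / 60 := by
    rw [div_le_iff₀ hκ] at hnκ
    rw [div_le_div_iff₀ h0 (by norm_num)]
    nlinarith
  have hκL : 0 < κ * log X := by positivity
  have hκL' : κ * log X ≤ log X / 100 := by nlinarith
  have c3 := Nat.Coprime.mul_left h.cop13 h.cop23
  have eR : log (rad (Pr t)) = log (rad t.1) + log (rad t.2) + log (rad (t.1 + t.2)) := by
    rw [Pr, log_rad_mul c3, log_rad_mul h.cop12]
  have eB : ms (big (log X / n) (Pr t)) = ms (big (log X / n) t.1) + ms (big (log X / n) t.2) +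
      ms (big (log X / n) (t.1 + t.2)) := by
    rw [Pr, ms_big_mul _ c3, ms_big_mul _ h.cop12]
  by_cases ha : ζ₀ * Λ ≤ log t.1
  · left
    obtain ⟨p, hp⟩ := hb
    obtain ⟨p1, p2⟩ := mem_filter.1 hp
    have p3 : log p ≤ ms (big (log X / n) (Pr t)) :=
      single_le_sum (f := fun q : ℕ => log (q : ℝ)) (fun q _ => log_nat_nonneg q)
        (mem_filter.2 ⟨p1, by linarith⟩)
    have ha1 : θ * Λ ≤ log t.1 := (mul_le_mul_of_nonneg_right hθ hΛ).trans ha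
    have ha2 : θ * Λ ≤ log t.2 := ha1.trans (log_le_of_le h.2.1)
    have ha3 : θ * Λ ≤ log (t.1 + t.2 : ℕ) := ha1.trans (log_le_of_le (Nat.le_add_right _ _))
    by_contra hc
    have k0 := mt (roleA (γ := 2 / 3 - κ / 8) hM 0 hn hL0 hζ h hr h1 ha1) fun k => hc ⟨0, k⟩
    have k1 := mt (roleA (γ := 2 / 3 - κ / 8) hM 1 hn hL0 hζ h hr h1 ha2) fun k => hc ⟨1, k⟩
    have k2 := mt (roleA (γ := 2 / 3 - κ / 8) hM 2 hn hL0 hζ h hr h1 ha3) fun k => hc ⟨2, k⟩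
    have x0 : xx 0 t = t.1 := rfl
    have x1 : xx 1 t = t.2 := rfl
    have x2 : xx 2 t = t.1 + t.2 := rfl
    rw [x0] at k0
    rw [x1] at k1
    rw [x2] at k2
    rw [not_le, sub_mul, div_mul_eq_mul_div κ] at k0 k1 k2
    linarith
  · right
    have hb1 : 12 * n * log X ≤ 1 / 2 * Λ := h1.trans (mul_le_mul_of_nonneg_right hθ' hΛ)
    have hΛ4 : (4 : ℝ) ≤ Λ := by nlinarith
    have l3 := h.log3_le
    have hb2 : 1 / 2 * (Λ : ℝ) ≤ log t.2 := by linarith [hs.1]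
    have hb3 : 1 / 2 * (Λ : ℝ) ≤ log (t.1 + t.2 : ℕ) := by linarith [hs.1]
    by_contra hc
    have k1 := mt (roleB (γ := 2 / 3 - κ / 8) hM 1 hn hL0 h hr hb1 hb2 (not_le.1 ha).le)
      fun k => hc ⟨1, k⟩
    have k2 := mt (roleB (γ := 2 / 3 - κ / 8) hM 2 hn hL0 h hr hb1 hb3 (not_le.1 ha).le)
      fun k => hc ⟨2, k⟩
    have x1 : xx 1 t = t.2 := rfl
    have x2 : xx 2 t = t.1 + t.2 := rfl
    have z1 : zz 1 t = t.1 + t.2 := rfl
    have z2 : zz 2 t = t.2 := rfl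
    rw [x1, z1] at k1
    rw [x2, z2] at k2
    rw [not_le, sub_mul, div_mul_eq_mul_div κ] at k1 k2
    have b1 := ms_big_le (log X / n) t.2
    have b2 := ms_big_le (log X / n) (t.1 + t.2)
    have b3 := log_nat_nonneg (rad t.1)
    linarith

end T45

open T45 in
theorem st_CB (h0 : St_CB0) (hM : St_ML) : St_CB := by
  intro κ hκ hκ'
  have hnκ : 60 / κ ≤ (⌈60 / κ⌉₊ : ℕ) := Nat.le_ceil _
  generalize ⌈60 / κ⌉₊ = n at hnκ
  have hn : 6 ≤ n := by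
    have : (6 : ℝ) ≤ 60 / κ := by rw [le_div_iff₀ hκ]; linarith
    exact_mod_cast this.trans hnκ
  have hε : 0 < κ / 32 := by positivity
  obtain ⟨ζ₀, hζ₀, A₀, X₀, H₀⟩ := h0 n (1 / 2) (κ / 32) hn (by norm_num) (by norm_num) hε
  have hθ : 0 < min ζ₀ (1 / 2) := lt_min hζ₀ (by norm_num)
  have hθ1 := min_le_left ζ₀ (1 / 2)
  have hθ2 := min_le_right ζ₀ (1 / 2)
  generalize min ζ₀ (1 / 2) = θ at hθ hθ1 hθ2
  obtain ⟨ζ₁, hζ₁, A₁, X₁, H₁⟩ := h0 n θ (κ / 32) hn hθ (by linarith) hε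
  obtain ⟨X₂, H₂⟩ := absorb 6 hε
  refine ⟨max (max A₀ A₁) (12 * n / θ), max (max X₀ X₁) X₂, fun X hX Λ F hA hΛ hF => ?_⟩
  obtain ⟨hX01, hX2⟩ := max_le_iff.1 hX
  obtain ⟨hX0, hX1⟩ := max_le_iff.1 hX01
  obtain ⟨a3, aL, -, a6, -⟩ := H₂ X hX2
  have hX' : 0 < X := by linarith
  have hL : 0 ≤ log X := by linarith
  have hA0 : A₀ * log X ≤ Λ :=
    (mul_le_mul_of_nonneg_right ((le_max_left _ _).trans (le_max_left _ _)) hL).trans hA
  have hA1 : A₁ * log X ≤ Λ :=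
    (mul_le_mul_of_nonneg_right ((le_max_right _ _).trans (le_max_left _ _)) hL).trans hA
  have hA2 : 12 * n * log X ≤ θ * Λ := by
    have := (mul_le_mul_of_nonneg_right (le_max_right _ _) hL).trans hA
    rwa [div_mul_eq_mul_div, div_le_iff₀ hθ, mul_comm _ θ] at this
  have key := card_le_classes' F (univ : Finset (Bool × Fin 3))
    (fun t v => Cl n (if v.1 then θ else 1 / 2) (if v.1 then ζ₁ else ζ₀) (2 / 3 - κ / 8) X Λ v.2 t)
    (X ^ (2 / 3 - κ / 8 + κ / 32)) (fun t ht => ?_) (fun v _ F' hF' hc => ?_)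
  · refine key.trans ?_
    have e : (2 / 3 - κ / 16 : ℝ) = κ / 32 + (2 / 3 - κ / 8 + κ / 32) := by ring
    rw [e, rpow_add hX' (κ / 32)]
    refine mul_le_mul_of_nonneg_right ?_ (by positivity)
    simpa using a6
  · obtain ⟨t1, t2, t3, t4⟩ := hF t ht
    have hr : log (rad (Pr t)) ≤ log X := log_le_log (by exact_mod_cast rad_pos _) t3
    rcases cover hM hn hκ hκ' hnκ aL hζ₁ hθ1 hθ2 hA2 t1 t2 hr t4 with ⟨i, hi⟩ | ⟨i, hi⟩
    · exact ⟨(true, i), mem_univ _, hi⟩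
    · exact ⟨(false, i), mem_univ _, hi⟩
  · obtain ⟨b, i⟩ := v
    have g (t) (ht : t ∈ F') := hF t (hF' ht)
    cases b
    · exact H₀ X hX0 Λ i _ F' hA0 hΛ fun t ht =>
        ⟨(g t ht).1, (g t ht).2.1, (g t ht).2.2.1, hc t ht⟩
    · exact H₁ X hX1 Λ i _ F' hA1 hΛ fun t ht =>
        ⟨(g t ht).1, (g t ht).2.1, (g t ht).2.2.1, hc t ht⟩

end Pool.Agent.Lib.CR
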