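import Pool.Agent.Lib.CR.Util

/-! Project cr, row CB0: the count for one role with a fixed modulus. -/

open Finset Real

noncomputable section

namespace Pool.Agent.Lib.CR

namespace T53

theorem num4 {c n Q P q θ ζ lam e a E : ℝ} (hc : 1 ≤ c) (hn : 6 ≤ n) (hQ1 : 1 ≤ Q) (hθ : 0 < θ)
    (hQ : 144 * c * n ^ 6 ≤ θ * Q) (hq : 1 ≤ q) (hqP : q ≤ P) (hζ0 : 0 ≤ ζ)
    (hζ : ζ * (432 * c * n ^ 5 * P) ≤ θ) (hl : 0 ≤ lam)
    (hA : 18 * n * (2 * c * n ^ 4 + 2 * c * n ^ 3 * P * (2 * P * n + 1) + 1) ≤ θ * lam)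
    (he : e ≤ n * lam + 1) (ha : a ≤ n * (3 * ζ * lam + e / (q * Q) + 2 * q) + 1)
    (hE : θ * lam / (12 * n) - 1 ≤ E) : c * n ^ 2 * (2 * q * n) * a ≤ E := by
  have n0 : 0 < n := by linarith
  have q0 : 0 < q := by linarith
  have Q0 : 0 < Q := by linarith
  have c0 : 0 < c := by linarith
  obtain ⟨u, hu⟩ : ∃ u : ℝ, u = θ * lam / (72 * n) := ⟨_, rfl⟩
  have hu' : θ * lam = 72 * n * u := by rw [hu]; field_simp
  have e1 : θ * lam / (12 * n) = 6 * u := by rw [hu']; field_simp; ring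
  have t1 : 6 * c * n ^ 4 * q * ζ * lam ≤ u := by
    have h1 : ζ * (432 * c * n ^ 5 * q) ≤ θ :=
      le_trans (mul_le_mul_of_nonneg_left (mul_le_mul_of_nonneg_left hqP (by positivity)) hζ0) hζ
    have h2 := mul_le_mul_of_nonneg_right h1 hl
    rw [hu'] at h2
    refine le_of_mul_le_mul_left (a := 72 * n) ?_ (by positivity)
    calc 72 * n * (6 * c * n ^ 4 * q * ζ * lam) = ζ * (432 * c * n ^ 5 * q) * lam := by ring
      _ ≤ _ := h2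
  have t2 : 2 * c * n ^ 4 * (e / Q) ≤ u + 2 * c * n ^ 4 := by
    have h1 : e / Q ≤ n * lam / Q + 1 := by
      have : e / Q ≤ (n * lam + 1) / Q := div_le_div_of_nonneg_right he Q0.le
      have h3 : 1 / Q ≤ 1 := by rw [div_le_one Q0]; exact hQ1
      rw [add_div] at this
      linarith
    have h2 : 2 * c * n ^ 4 * (n * lam / Q) ≤ u := by
      rw [← mul_div_assoc, div_le_iff₀ Q0]
      have h4 := mul_le_mul_of_nonneg_right hQ hl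
      have h5 : θ * Q * lam = 72 * n * u * Q := by rw [← hu']; ring
      refine le_of_mul_le_mul_left (a := 72 * n) ?_ (by positivity)
      calc 72 * n * (2 * c * n ^ 4 * (n * lam)) = 144 * c * n ^ 6 * lam := by ring
        _ ≤ 72 * n * u * Q := h5 ▸ h4
        _ = _ := by ring
    have h6 := mul_le_mul_of_nonneg_left h1 (by positivity : 0 ≤ 2 * c * n ^ 4)
    linarith
  have t3 : 2 * c * n ^ 3 * q * (2 * q * n + 1) ≤ 2 * c * n ^ 3 * P * (2 * P * n + 1) := by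
    have : 0 ≤ P := by linarith
    gcongr
  have t4 : 2 * c * n ^ 4 + 2 * c * n ^ 3 * P * (2 * P * n + 1) + 1 ≤ 4 * u := by
    rw [hu'] at hA
    refine le_of_mul_le_mul_left (a := 18 * n) ?_ (by positivity)
    linarith
  have t5 : c * n ^ 2 * (2 * q * n) * (n * (3 * ζ * lam + e / (q * Q) + 2 * q) + 1) =
      6 * c * n ^ 4 * q * ζ * lam + 2 * c * n ^ 4 * (e / Q) +
        2 * c * n ^ 3 * q * (2 * q * n + 1) := by field_simp; ring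
  have t6 := mul_le_mul_of_nonneg_left ha (by positivity : 0 ≤ c * n ^ 2 * (2 * q * n))
  linarith

/-- The data of a solution for a fixed modulus and a fixed set of primes. -/
def Gd (n E W Λ : ℕ) (ζ L : ℝ) (i : Fin 3) (m : ℕ) (S : Finset ℕ) (t : ℕ × ℕ) : Prop :=
  Tr t ∧ Sc Λ t ∧ log (rad (Pr t)) ≤ L ∧ #(Pr t).primeFactors ≤ W ∧ m ^ E ∣ xx i t ∧
    S ⊆ (yy i t * zz i t).primeFactors ∧ ∃ B : Finset ℕ, B ⊆ big (L / n) (yy i t * zz i t) ∧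
    Disjoint S B ∧
    log (yy i t) + log (zz i t) - sh S (yy i t * zz i t) - sh B (yy i t * zz i t) ≤ ζ * Λ

theorem yz_dvd (i : Fin 3) (t : ℕ × ℕ) : yy i t * zz i t ∣ Pr t :=
  Pr_eq i t ▸ Dvd.intro_left _ rfl

/-- Cells and representations for one solution. -/
theorem rep_of (hR : St_REPB) {n E W Λ Q m e₀ : ℕ} {ζ L : ℝ} {i : Fin 3} {S 𝒢 : Finset ℕ}
    {t : ℕ × ℕ} (hn : 1 ≤ n) (hQ : 1 ≤ Q) (hL : 0 < L) (hΛ : (0 : ℝ) < Λ) (hE : 1 ≤ E)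
    (hm : L / n ≤ log m) (he : n * Λ / L ≤ e₀)
    (hG : ∀ x : ℕ, 0 < x → log x ≤ (Λ : ℝ) →
      ∃ G ∈ 𝒢, G ∣ x ∧ G.primeFactors ⊆ S ∧ sh S x ≤ log G + ζ * Λ)
    (h : Gd n E W Λ ζ L i m S t) :
    ∃ v ∈ (𝒢 ×ˢ 𝒢) ×ˢ Icc 1 (Q ^ n), 0 < v.1.1 ∧ 0 < v.1.2 ∧ ∀ a : ℕ,
      3 * ζ * Λ + (e₀ / (v.2 * Q) + 2 * v.2) * L ≤ a * (L / n) →
      Rep m (e₀ / v.2) (2 * v.2 * n) a v.1.1 v.1.2 (yy i t) (zz i t) := by
  obtain ⟨h1, h2, h3, -, h5, -, B, h7, h8, h9⟩ := h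
  have y0 := h1.yy_pos i
  have z0 := h1.zz_pos i
  have ly : log (yy i t) ≤ (Λ : ℝ) := (log_le_of_le (yy_le i t)).trans h2.2
  have lz : log (zz i t) ≤ (Λ : ℝ) := (log_le_of_le (zz_le i t)).trans h2.2
  obtain ⟨g₁, a1, a2, a3, a4⟩ := hG _ y0 ly
  obtain ⟨g₂, b1, b2, b3, b4⟩ := hG _ z0 lz
  have g1 : 0 < g₁ := Nat.pos_of_dvd_of_pos a2 y0
  have g2 : 0 < g₂ := Nat.pos_of_dvd_of_pos b2 z0
  have cop : (yy i t * zz i t).Coprime m :=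
    (h1.cop_yzx i).coprime_dvd_right ((dvd_pow_self m (by omega)).trans h5)
  have lr : log (rad (yy i t * zz i t)) ≤ L :=
    (log_le_of_le (Nat.le_of_dvd (rad_pos _) (rad_dvd_rad (yz_dvd i t) h1.Pr_pos.ne'))).trans h3
  have dj : Disjoint (g₁ * g₂).primeFactors B := by
    rw [Nat.primeFactors_mul g1.ne' g2.ne']
    exact Disjoint.mono_left (union_subset a3 b3) h8
  rw [sh_mul S y0.ne' z0.ne'] at h9
  obtain ⟨q, q1, q2, q3⟩ := hR n Q _ _ m g₁ g₂ e₀ L Λ (3 * ζ * Λ) B hn hQ hL hΛ y0 z0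
    (h1.cop_yz i) cop ly lz lr hm he h7 a2 b2 dj (by linarith)
  exact ⟨((g₁, g₂), q), mem_product.2 ⟨mem_product.2 ⟨a1, b1⟩, mem_Icc.2 ⟨q1, q2⟩⟩, g1, g2, q3⟩

/-- The count for a fixed modulus and a fixed set of primes. -/
theorem core (hC : St_CELL) (hR : St_REPB) (hT : St_T3) (n : ℕ) (θ : ℝ) (hn : 6 ≤ n) (hθ : 0 < θ)
    (hθ1 : θ ≤ 1) : ∃ ζ : ℝ, 0 < ζ ∧ ∃ A K s : ℝ, 0 < s ∧ 0 < K ∧ ∀ (X : ℝ) (Λ W m : ℕ) (i : Fin 3)
      (S : Finset ℕ) (F : Finset (ℕ × ℕ)), 3 ≤ X → 1 ≤ log X → K ≤ X ^ (1 / n : ℝ) →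
      (n : ℝ) + 1 ≤ X ^ (1 / 2 : ℝ) → A * log X ≤ Λ → (Λ : ℝ) ≤ X ^ (1 / 2 : ℝ) →
      log X / n ≤ log m →
      (∀ t ∈ F, Gd n ⌊θ * Λ / (12 * n * log X)⌋₊ W Λ ζ (log X) i m S t) →
      (#F : ℝ) ≤ (m : ℝ) ^ (1 / 4 : ℝ) * (K * 2 ^ (s * W)) := by
  obtain ⟨C, C1, hT⟩ := hT
  have n6 : (6 : ℝ) ≤ n := by exact_mod_cast hn
  have n0 : (0 : ℝ) < n := by linarith
  have c1 : (1 : ℝ) ≤ C := by exact_mod_cast C1
  have nn : 6 * (n : ℝ) ≤ n ^ 2 := by nlinarith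
  have cn : (1 : ℝ) ≤ 2 * C * n ^ 2 := by nlinarith
  obtain ⟨Q, hQ⟩ : ∃ Q : ℕ, Q = ⌈144 * (C : ℝ) * n ^ 6 / θ⌉₊ := ⟨_, rfl⟩
  have Q1 : 1 ≤ Q := hQ ▸ Nat.ceil_pos.2 (by positivity)
  have Q1' : (1 : ℝ) ≤ Q := by exact_mod_cast Q1
  have Q2 : 144 * (C : ℝ) * n ^ 6 ≤ θ * Q := by
    have := Nat.le_ceil (144 * (C : ℝ) * n ^ 6 / θ)
    rwa [← hQ, div_le_iff₀ hθ, mul_comm (Q : ℝ)] at this
  obtain ⟨P, hP⟩ : ∃ P : ℝ, P = (Q : ℝ) ^ n := ⟨_, rfl⟩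
  have P1 : 1 ≤ P := hP ▸ one_le_pow₀ Q1'
  obtain ⟨ζ, hζ⟩ : ∃ ζ : ℝ, ζ = min 1 (θ / (432 * C * n ^ 5 * P)) := ⟨_, rfl⟩
  have z0 : 0 < ζ := hζ ▸ lt_min one_pos (by positivity)
  have z1 : ζ ≤ 1 := hζ ▸ min_le_left _ _
  have z2 : ζ * (432 * C * n ^ 5 * P) ≤ θ := by
    rw [← le_div_iff₀ (by positivity), hζ]; exact min_le_right _ _
  obtain ⟨K₀, hK⟩ : ∃ K₀ : ℝ,
    K₀ = 18 * n * (2 * C * n ^ 4 + 2 * C * n ^ 3 * P * (2 * P * n + 1) + 1) := ⟨_, rfl⟩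
  have K0 : 0 < K₀ := by rw [hK]; positivity
  refine ⟨ζ, z0, (K₀ + 144 * n ^ 2) / θ, 2 * C * P * n ^ 2, 6 / ζ + 271 / (θ / (24 * n ^ 2)),
    by positivity, by positivity, fun X Λ W m i S F X3 L1 hK1 hK2 hA hΛ hm hF => ?_⟩
  rcases F.eq_empty_or_nonempty with rfl | ⟨t₀, ht₀⟩
  · simp only [card_empty, Nat.cast_zero]; positivity
  obtain ⟨L, hL⟩ : ∃ L : ℝ, L = log X := ⟨_, rfl⟩
  rw [← hL] at L1 hA hm hF
  have X0 : 0 < X := by linarith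
  have L0 : 0 < L := by linarith
  obtain ⟨lam, hlam⟩ : ∃ lam : ℝ, lam = Λ / L := ⟨_, rfl⟩
  have eΛ : (Λ : ℝ) = lam * L := by rw [hlam]; field_simp
  have hA' : K₀ + 144 * n ^ 2 ≤ θ * lam := by
    rw [eΛ] at hA
    have := le_of_mul_le_mul_right hA L0
    rwa [div_le_iff₀ hθ, mul_comm lam] at this
  have l0 : 0 < lam := by
    have : 0 < θ * lam := lt_of_lt_of_le (by positivity) hA'
    exact (pos_iff_pos_of_mul_pos this).1 hθ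
  have Λ0 : (0 : ℝ) < Λ := by rw [eΛ]; positivity
  obtain ⟨E, hE⟩ : ∃ E : ℕ, E = ⌊θ * Λ / (12 * n * L)⌋₊ := ⟨_, rfl⟩
  rw [← hE] at hF
  have eE : θ * Λ / (12 * n * L) = θ * lam / (12 * n) := by rw [eΛ]; field_simp
  have E1 : θ * lam / (12 * n) - 1 ≤ E := by
    rw [hE, eE]; exact (Nat.sub_one_lt_floor _).le
  have x2 : 2 ≤ θ * lam / (12 * n) := by
    rw [le_div_iff₀ (by positivity)]; linarith
  have E2 : 1 ≤ E := by
    have : (1 : ℝ) ≤ E := by linarith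
    exact_mod_cast this
  have m0 : 0 < m := by
    rcases m.eq_zero_or_pos with rfl | h
    · have : 0 < L / n := by positivity
      simp only [Nat.cast_zero, log_zero] at hm
      linarith
    · exact h
  have m0' : (0 : ℝ) < m := by exact_mod_cast m0
  have mX : X ^ (1 / n : ℝ) ≤ m := by
    rw [← log_le_log_iff (by positivity) m0', log_rpow X0, ← hL]
    calc 1 / (n : ℝ) * L = L / n := by ring
      _ ≤ _ := hm
  have mn : X ≤ (m : ℝ) ^ n := by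
    rw [← log_le_log_iff X0 (by positivity), log_pow, ← hL]
    rwa [div_le_iff₀ n0, mul_comm] at hm
  obtain ⟨e₀, he₀⟩ : ∃ e₀ : ℕ, e₀ = ⌈(n : ℝ) * Λ / L⌉₊ := ⟨_, rfl⟩
  have e1 : (n : ℝ) * Λ / L ≤ e₀ := he₀ ▸ Nat.le_ceil _
  have e2 : (e₀ : ℝ) ≤ n * lam + 1 := by
    have := (Nat.ceil_lt_add_one (by positivity : (0 : ℝ) ≤ n * Λ / L)).le
    rwa [← he₀, mul_div_assoc, ← hlam] at this
  have e3 : e₀ ≤ m ^ n := by
    have h1 : lam ≤ X ^ (1 / 2 : ℝ) := by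
      refine le_trans ?_ hΛ
      rw [eΛ]; exact le_mul_of_one_le_right l0.le L1
    have h2 : X ^ (1 / 2 : ℝ) * X ^ (1 / 2 : ℝ) = X := by
      rw [← rpow_add X0]; norm_num
    have h4 : (n : ℝ) * lam ≤ n * X ^ (1 / 2 : ℝ) := mul_le_mul_of_nonneg_left h1 n0.le
    have h5 : ((n : ℝ) + 1) * X ^ (1 / 2 : ℝ) ≤ X ^ (1 / 2 : ℝ) * X ^ (1 / 2 : ℝ) :=
      mul_le_mul_of_nonneg_right hK2 (by positivity)
    have h3 : (e₀ : ℝ) ≤ (m : ℝ) ^ n := by linarith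
    exact_mod_cast h3
  obtain ⟨-, -, -, w0, -, s0, -⟩ := hF t₀ ht₀
  have T0 := (hF t₀ ht₀).1
  obtain ⟨𝒢, G1, G2⟩ := hC ζ Λ W S z0 z1 Λ0
    (fun p hp => Nat.prime_of_mem_primeFactors (s0 hp))
    ((card_le_card (s0.trans (Nat.primeFactors_mono (yz_dvd i t₀) T0.Pr_pos.ne'))).trans w0)
  have main := card_le_classes' F ((𝒢 ×ˢ 𝒢) ×ˢ Icc 1 (Q ^ n))
    (fun t v => 0 < v.1.1 ∧ 0 < v.1.2 ∧ ∀ a : ℕ,
      3 * ζ * Λ + (e₀ / (v.2 * Q) + 2 * v.2) * L ≤ a * (L / n) →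
      Rep m (e₀ / v.2) (2 * v.2 * n) a v.1.1 v.1.2 (yy i t) (zz i t))
    ((m : ℝ) ^ (1 / 4 : ℝ) * 2 ^ (271 / (θ / (24 * n ^ 2)) * W))
    (fun t ht => rep_of hR (by omega) Q1 L0 Λ0 E2 hm e1 G2 (hF t ht)) (by
      rintro ⟨⟨g₁, g₂⟩, q⟩ hv F' hF' hP'
      rcases F'.eq_empty_or_nonempty with rfl | ⟨t₁, ht₁⟩
      · simp only [card_empty, Nat.cast_zero]; positivity
      obtain ⟨q1, q2⟩ := mem_Icc.1 (mem_product.1 hv).2
      have q1' : (1 : ℝ) ≤ q := by exact_mod_cast q1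
      have q2' : (q : ℝ) ≤ P := by rw [hP]; exact_mod_cast q2
      obtain ⟨r, hr⟩ : ∃ r : ℝ, r = n * (3 * ζ * lam + e₀ / (q * Q) + 2 * q) := ⟨_, rfl⟩
      have r0 : 0 < r := by rw [hr]; positivity
      have a1 : 3 * ζ * Λ + (e₀ / (q * Q) + 2 * q) * L ≤ (⌈r⌉₊ : ℕ) * (L / n) := by
        calc 3 * ζ * Λ + (e₀ / (q * Q) + 2 * q) * L = r * (L / n) := by
              rw [hr, eΛ]; field_simp; ring
          _ ≤ _ := mul_le_mul_of_nonneg_right (Nat.le_ceil r) (by positivity)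
      refine hT (θ / (24 * n ^ 2)) i F' Λ m (2 * q * n) n ⌈r⌉₊ E (e₀ / q) g₁ g₂ W (by positivity)
        ?_ (Nat.mul_pos (by omega) (by omega)) (by omega) (Nat.ceil_pos.2 r0) ?_ ?_
        ((Nat.div_le_self _ _).trans e3) (hP' t₁ ht₁).1 (hP' t₁ ht₁).2.1 ?_ ?_ fun t ht => ?_
      · rw [div_le_one (by positivity)]; linarith
      · have h1 : (C : ℝ) * (2 * q * n) * n ≤ m := by
          refine le_trans ?_ (hK1.trans mX)
          calc (C : ℝ) * (2 * q * n) * n = 2 * C * q * n ^ 2 := by ring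
            _ ≤ _ := by gcongr
        exact_mod_cast h1
      · have h0 : (⌈r⌉₊ : ℝ) ≤ n * (3 * ζ * lam + e₀ / (q * Q) + 2 * q) + 1 := by
          rw [← hr]; exact (Nat.ceil_lt_add_one r0.le).le
        have h1 := num4 c1 n6 Q1' hθ Q2 q1' q2' z0.le z2 l0.le (by rw [← hK]; linarith) e2 h0 E1
        exact_mod_cast h1
      · rw [div_mul_eq_mul_div, le_div_iff₀ (by positivity), eΛ, ← mul_assoc]
        have := le_mul_of_one_le_right (mul_pos hθ l0).le L1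
        linarith
      · have h1 : θ * lam / (12 * n) / 2 ≤ E := by linarith
        calc θ / (24 * n ^ 2) * Λ = θ * lam / (12 * n) / 2 * (L / n) := by
              rw [eΛ]; field_simp; norm_num
          _ ≤ _ := mul_le_mul h1 hm (by positivity) (Nat.cast_nonneg _)
      · obtain ⟨b1, b2, -, b4, b5, -⟩ := hF t (hF' ht)
        exact ⟨b1, b2, b4, b5, (hP' t ht).2.2 _ a1⟩)
  refine main.trans ?_
  rw [card_product, card_product, Nat.card_Icc, Nat.add_sub_cancel, add_mul, rpow_add two_pos]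
  push_cast
  have g1 : (#𝒢 : ℝ) * #𝒢 ≤ 2 ^ (6 / ζ * W) := by
    calc (#𝒢 : ℝ) * #𝒢 ≤ 2 ^ (3 / ζ * W) * 2 ^ (3 / ζ * W) :=
        mul_le_mul G1 G1 (Nat.cast_nonneg _) (by positivity)
      _ = _ := by
        rw [← rpow_add two_pos, show 3 / ζ * W + 3 / ζ * W = 6 / ζ * W by ring]
  have g2 : (Q : ℝ) ^ n ≤ 2 * C * P * n ^ 2 := by
    rw [← hP]
    calc P ≤ P * (2 * C * n ^ 2) := le_mul_of_one_le_right (by linarith) cn
      _ = _ := by ring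
  calc (#𝒢 : ℝ) * #𝒢 * (Q : ℝ) ^ n *
        ((m : ℝ) ^ (1 / 4 : ℝ) * 2 ^ (271 / (θ / (24 * n ^ 2)) * W))
      ≤ 2 ^ (6 / ζ * W) * (2 * C * P * n ^ 2) *
        ((m : ℝ) ^ (1 / 4 : ℝ) * 2 ^ (271 / (θ / (24 * n ^ 2)) * W)) := by gcongr
    _ = _ := by ring

theorem sum_inv_le {X : ℝ} (hX : 3 ≤ X) : ∑ m ∈ Icc 1 ⌊X⌋₊, (m : ℝ)⁻¹ ≤ 1 + log X := by
  have h1 := harmonic_le_one_add_log ⌊X⌋₊
  rw [harmonic_eq_sum_Icc] at h1
  push_cast at h1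
  have h2 : log (⌊X⌋₊ : ℝ) ≤ log X :=
    log_le_log (by exact_mod_cast Nat.floor_pos.2 (by linarith)) (Nat.floor_le (by linarith))
  linarith

end T53

open T53 in
theorem st_CB0 (hC : St_CELL) (hR : St_REPB) (hT : St_T3) (hW : St_W) : St_CB0 := by
  intro n θ ε hn hθ hθ1 hε
  obtain ⟨ζ, z0, A, K, s, s0, K0, H⟩ := core hC hR hT n θ hn hθ hθ1
  have n0 : (0 : ℝ) < n := by exact_mod_cast (by omega : 0 < n)
  obtain ⟨X₁, h1⟩ := absorb K (ε := 1 / n) (by positivity)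
  obtain ⟨X₂, h2⟩ := absorb (n + 1) (ε := 1 / 2) (by positivity)
  obtain ⟨X₃, h3⟩ := absorb (2 * K) (ε := ε / 2) (by positivity)
  obtain ⟨X₄, h4⟩ := hW (ε / 2 / s) (by positivity)
  refine ⟨ζ, z0, A, max (max X₁ X₂) (max X₃ X₄), fun X hX Λ i γ F hA hΛ hF => ?_⟩
  obtain ⟨⟨x1, x2⟩, x3, x4⟩ : (X₁ ≤ X ∧ X₂ ≤ X) ∧ X₃ ≤ X ∧ X₄ ≤ X := by
    simpa only [ge_iff_le, max_le_iff] using hX
  obtain ⟨X3, L1, -, k1, -⟩ := h1 X x1
  obtain ⟨-, -, -, k2, -⟩ := h2 X x2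
  obtain ⟨-, -, -, -, k3⟩ := h3 X x3
  obtain ⟨W, w1, w2⟩ := h4 X x4
  have X0 : 0 < X := by linarith
  have w3 : (2 : ℝ) ^ (s * W) ≤ X ^ (ε / 2) := by
    refine two_rpow_le X0 (by positivity) ?_
    calc s * W ≤ s * (ε / 2 / s * log X) := by gcongr
      _ = _ := by field_simp
  have main := card_le_classes F (Icc 1 ⌊X⌋₊)
    (fun t m => log X / n ≤ log m ∧ ∃ S : Finset ℕ, 5 / 4 * log m + ms S ≤ γ * log X ∧
      Gd n ⌊θ * Λ / (12 * n * log X)⌋₊ W Λ ζ (log X) i m S t)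
    (fun m => X ^ γ * (K * 2 ^ (s * W)) * (m : ℝ)⁻¹) (fun t ht => by
      obtain ⟨a1, a2, a3, m, S, B, b1, b2, b3, b4, b5, b6, b7, b8⟩ := hF t ht
      have m0 : 0 < m := by
        rcases m.eq_zero_or_pos with rfl | h
        · have : 0 < log X / n := by positivity
          simp only [Nat.cast_zero, log_zero] at b2
          linarith
        · exact h
      refine ⟨m, mem_Icc.2 ⟨m0, Nat.le_floor ?_⟩, b2, S, b8, a1, a2, ?_, w2 _ a3, b1, b4, B, b5, b6, b7⟩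
      · exact (log_le_log_iff (by exact_mod_cast m0) X0).1 b3
      · exact log_le_log (by exact_mod_cast rad_pos _) a3) (fun m hm F' _ hP => by
      have m0 : (0 : ℝ) < m := by exact_mod_cast (mem_Icc.1 hm).1
      have in1 := card_le_classes' F' (Icc 1 ⌊X ^ γ * (m : ℝ) ^ (-(5 / 4) : ℝ)⌋₊)
        (fun t σ => log X / n ≤ log m ∧
          Gd n ⌊θ * Λ / (12 * n * log X)⌋₊ W Λ ζ (log X) i m σ.primeFactors t)
        ((m : ℝ) ^ (1 / 4 : ℝ) * (K * 2 ^ (s * W))) (fun t ht => by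
          obtain ⟨c1, S, c2, c3⟩ := hP t ht
          have pr : ∀ p ∈ S, p.Prime := fun p hp =>
            Nat.prime_of_mem_primeFactors (c3.2.2.2.2.2.1 hp)
          have p0 : 0 < ∏ p ∈ S, p := prod_pos fun p hp => (pr p hp).pos
          refine ⟨∏ p ∈ S, p, mem_Icc.2 ⟨p0, Nat.le_floor ?_⟩, c1, ?_⟩
          · rw [← log_le_log_iff (by exact_mod_cast p0) (by positivity),
              log_prod_ms fun p hp => (pr p hp).pos, log_mul (by positivity) (by positivity),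
              log_rpow X0, log_rpow m0]
            linarith
          · rwa [Nat.primeFactors_prod pr]) (fun σ _ F'' _ hQ => by
          rcases F''.eq_empty_or_nonempty with rfl | ⟨t₁, ht₁⟩
          · simp only [card_empty, Nat.cast_zero]; positivity
          exact H X Λ W m i _ F'' X3 L1 k1 k2 hA hΛ (hQ t₁ ht₁).1 fun t ht => (hQ t ht).2)
      refine in1.trans ?_
      have e1 : (m : ℝ) ^ (-(5 / 4) : ℝ) * (m : ℝ) ^ (1 / 4 : ℝ) = (m : ℝ)⁻¹ := by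
        rw [← rpow_add m0, ← rpow_neg_one]; norm_num
      calc _ ≤ X ^ γ * (m : ℝ) ^ (-(5 / 4) : ℝ) * ((m : ℝ) ^ (1 / 4 : ℝ) * (K * 2 ^ (s * W))) :=
            mul_le_mul_of_nonneg_right (card_Icc_floor (by positivity)) (by positivity)
        _ = _ := by rw [← e1]; ring)
  refine main.trans ?_
  rw [← mul_sum]
  have f1 := sum_inv_le X3
  have f2 : K * (1 + log X) ≤ X ^ (ε / 2) := by
    have := mul_le_mul_of_nonneg_left L1 K0.le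
    linarith
  calc X ^ γ * (K * 2 ^ (s * W)) * ∑ m ∈ Icc 1 ⌊X⌋₊, (m : ℝ)⁻¹
      ≤ X ^ γ * (K * X ^ (ε / 2)) * (1 + log X) := by gcongr
    _ = X ^ γ * (X ^ (ε / 2) * (K * (1 + log X))) := by ring
    _ ≤ X ^ γ * (X ^ (ε / 2) * X ^ (ε / 2)) := by gcongr
    _ = _ := by rw [← rpow_add X0, ← rpow_add X0]; ring_nf

end Pool.Agent.Lib.CR
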