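import Pool.Agent.Lib.CR.Util

/-! Project cr, row CELL. -/

open Finset Real

namespace Pool.Agent.Lib.CR

namespace T7

theorem tuples (f : ℕ → ℕ → ℕ) (S : Finset ℕ) : ∀ N : ℕ, ∃ T : Finset ℕ,
    T.card ≤ 2 ^ (N + S.card) ∧
      ∀ i : ℕ → ℕ, ∑ p ∈ S, i p ≤ N → ∏ p ∈ S, f p (i p) ∈ T := by
  induction S using Finset.induction_on with
  | empty =>
    intro N
    exact ⟨{1}, by simpa using Nat.one_le_two_pow, fun i _ => by simp⟩
  | insert q S hq ih =>
    intro N
    choose T hT hm using ih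
    refine ⟨(range (N + 1)).biUnion fun k => (T (N - k)).image fun x => f q k * x, ?_, ?_⟩
    · refine card_biUnion_le.trans ?_
      have h1 : ∑ k ∈ range (N + 1), ((T (N - k)).image fun x => f q k * x).card
          ≤ ∑ k ∈ range (N + 1), 2 ^ (N - k) * 2 ^ S.card :=
        sum_le_sum fun k _ => card_image_le.trans (by rw [← pow_add]; exact hT _)
      refine h1.trans ?_
      rw [← sum_mul, card_insert_of_notMem hq]
      have h2 : ∑ k ∈ range (N + 1), 2 ^ (N - k) = ∑ k ∈ range (N + 1), 2 ^ k := by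
        have := Finset.sum_range_reflect (fun k => 2 ^ k) (N + 1)
        simpa using this
      have h3 : ∑ k ∈ range (N + 1), 2 ^ k ≤ 2 ^ (N + 1) :=
        (Nat.geomSum_lt le_rfl fun k hk => mem_range.1 hk).le
      rw [h2]
      calc _ ≤ 2 ^ (N + 1) * 2 ^ S.card := Nat.mul_le_mul_right _ h3
        _ = _ := by rw [← pow_add]; congr 1; omega
    · intro i hi
      rw [sum_insert hq] at hi
      rw [prod_insert hq]
      exact mem_biUnion.2 ⟨i q, mem_range.2 (by omega),
        mem_image.2 ⟨_, hm _ i (by omega), rfl⟩⟩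

end T7

theorem st_CELL : St_CELL := by
  intro η Λ W S hη hη1 hΛ hS hW
  rcases Nat.eq_zero_or_pos W with rfl | hW0
  · have : S = ∅ := card_eq_zero.1 (by omega)
    subst this
    refine ⟨{1}, by simp, fun n hn hl => ⟨1, by simp, one_dvd _, by simp, ?_⟩⟩
    simp only [sh, sum_empty, Nat.cast_one, Real.log_one, zero_add]
    positivity
  set t : ℕ → ℕ := fun p => max 1 ⌊η * Λ / (W * Real.log p)⌋₊ with ht
  obtain ⟨T, hT, hm⟩ := T7.tuples (fun p k => p ^ (t p * k)) S ⌊2 * W / η⌋₊
  have hW' : (0 : ℝ) < W := by exact_mod_cast hW0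
  refine ⟨T, ?_, fun n hn hl => ?_⟩
  · have h1 : (#T : ℝ) ≤ 2 ^ ((⌊2 * W / η⌋₊ + #S : ℕ) : ℝ) := by
      rw [Real.rpow_natCast]
      exact_mod_cast hT
    refine h1.trans (Real.rpow_le_rpow_of_exponent_le one_le_two ?_)
    have h2 : (⌊2 * W / η⌋₊ : ℝ) ≤ 2 * W / η := Nat.floor_le (by positivity)
    have h3 : (#S : ℝ) ≤ W := by exact_mod_cast hW
    have h4 : (W : ℝ) ≤ W / η := by
      rw [le_div_iff₀ hη]
      nlinarith
    have h5 : 3 / η * W = 2 * W / η + W / η := by ring
    push_cast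
    linarith
  have hlog : ∀ p ∈ S, 0 < Real.log p := fun p hp =>
    Real.log_pos (by exact_mod_cast (hS p hp).one_lt)
  have ht1 : ∀ p, 1 ≤ t p := fun p => le_max_left _ _
  have htl : ∀ p ∈ S, η * Λ ≤ 2 * W * (t p * Real.log p) := by
    intro p hp
    have h1 := hlog p hp
    have h2 : η * Λ / (W * Real.log p) < (⌊η * Λ / (W * Real.log p)⌋₊ : ℝ) + 1 :=
      Nat.lt_floor_add_one _
    have h3 : ((⌊η * Λ / (W * Real.log p)⌋₊ : ℕ) : ℝ) ≤ t p :=
      Nat.cast_le.2 (le_max_right _ _)
    have h4 : (1 : ℝ) ≤ t p := by exact_mod_cast ht1 p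
    have h5 : η * Λ / (W * Real.log p) ≤ 2 * t p := by linarith
    rw [div_le_iff₀ (by positivity)] at h5
    nlinarith
  have htu : ∀ p ∈ S, ((t p : ℝ) - 1) * Real.log p ≤ η * Λ / W := by
    intro p hp
    have h1 := hlog p hp
    have h0 : 0 ≤ η * Λ / (W * Real.log p) := by positivity
    have h2 : (t p : ℝ) - 1 ≤ η * Λ / (W * Real.log p) := by
      rcases le_total 1 ⌊η * Λ / (W * Real.log p)⌋₊ with h | h
      · have : t p = ⌊η * Λ / (W * Real.log p)⌋₊ := max_eq_right h
        rw [this]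
        linarith [Nat.floor_le h0]
      · have : t p = 1 := max_eq_left h
        rw [this]
        simpa using h0
    calc _ ≤ η * Λ / (W * Real.log p) * Real.log p := mul_le_mul_of_nonneg_right h2 h1.le
      _ = _ := by field_simp
  set i : ℕ → ℕ := fun p => n.factorization p / t p with hi
  have hti : ∀ p, t p * i p ≤ n.factorization p := fun p => Nat.mul_div_le _ _
  have hti' : ∀ p, n.factorization p + 1 ≤ t p * i p + t p := fun p => by
    have h1 := Nat.div_add_mod (n.factorization p) (t p)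
    have h2 := Nat.mod_lt (n.factorization p) (ht1 p)
    have : t p * i p = t p * (n.factorization p / t p) := rfl
    omega
  have hsum : ∑ p ∈ S, i p ≤ ⌊2 * W / η⌋₊ := by
    have h1 : η * Λ * ∑ p ∈ S, (i p : ℝ) ≤ 2 * W * sh S n := by
      rw [sh, mul_sum, mul_sum]
      refine sum_le_sum fun p hp => ?_
      have h2 := htl p hp
      have h3 : (t p : ℝ) * i p ≤ n.factorization p := by exact_mod_cast hti p
      have h4 := hlog p hp
      calc η * Λ * i p ≤ 2 * W * (t p * Real.log p) * i p :=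
            mul_le_mul_of_nonneg_right h2 (Nat.cast_nonneg _)
        _ = 2 * W * ((t p * i p) * Real.log p) := by ring
        _ ≤ _ := by gcongr
    have h2 : sh S n ≤ Λ := (sh_le_log S hn.ne').trans hl
    have h3 : Λ * ((∑ p ∈ S, (i p : ℝ)) * η) ≤ Λ * (2 * W) := by
      have : 2 * (W : ℝ) * sh S n ≤ 2 * W * Λ := by gcongr
      linarith
    have h4 := le_of_mul_le_mul_left h3 hΛ
    refine Nat.le_floor ?_
    rw [le_div_iff₀ hη]
    exact_mod_cast h4
  refine ⟨_, hm i hsum, ?_, ?_, ?_⟩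
  · refine Finset.prod_dvd_of_isRelPrime ?_ fun p hp => ?_
    · intro p hp q hq hpq
      exact Nat.coprime_iff_isRelPrime.1 (Nat.coprime_pow_primes _ _ (hS p hp) (hS q hq) hpq)
    · exact (pow_dvd_pow _ (hti p)).trans (Nat.ordProj_dvd n p)
  · intro p hp'
    have hp := Nat.prime_of_mem_primeFactors hp'
    obtain ⟨q, hq, hd⟩ :=
      (Prime.dvd_finsetProd_iff hp.prime _).1 (Nat.dvd_of_mem_primeFactors hp')
    have := (Nat.prime_dvd_prime_iff_eq hp (hS q hq)).1 (hp.dvd_of_dvd_pow hd)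
    exact this ▸ hq
  · rw [log_prod_pow fun p hp => (hS p hp).pos]
    have h1 : sh S n ≤ ∑ p ∈ S, (((t p * i p : ℕ) : ℝ) * Real.log p + η * Λ / W) := by
      refine sum_le_sum fun p hp => ?_
      have h2 := htu p hp
      have h3 : (n.factorization p : ℝ) + 1 ≤ t p * i p + t p := by exact_mod_cast hti' p
      have h4 := hlog p hp
      push_cast
      nlinarith
    rw [sum_add_distrib, sum_const, nsmul_eq_mul] at h1
    have h2 : (S.card : ℝ) * (η * Λ / W) ≤ W * (η * Λ / W) :=
      mul_le_mul_of_nonneg_right (by exact_mod_cast hW) (by positivity)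
    have h3 : (W : ℝ) * (η * Λ / W) = η * Λ := by field_simp
    linarith

end Pool.Agent.Lib.CR
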