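import Pool.Agent.Lib.CR.Blue

/-! Block COL: a colouring which is good for a share `2 ^ (-W)` of the family. -/

open Finset

namespace Pool.Agent.Lib.CR

namespace T63

theorem col_card (U A B : Finset ℕ) (W : ℕ) (hA : A ⊆ U) (hB : B ⊆ U) (hd : Disjoint A B)
    (hW : #A + #B ≤ W) :
    2 ^ #U ≤ 2 ^ W * #(U.powerset.filter fun C => A ⊆ C ∧ Disjoint B C) := by
  have hAB : A ∪ B ⊆ U := union_subset hA hB
  have h1 : #((U \ (A ∪ B)).powerset) ≤ #(U.powerset.filter fun C => A ⊆ C ∧ Disjoint B C) := by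
    refine card_le_card_of_injOn (fun D => A ∪ D) ?_ ?_
    · intro D hD
      have hD' : D ⊆ U \ (A ∪ B) := mem_powerset.mp (mem_coe.mp hD)
      refine mem_coe.mpr (mem_filter.mpr ⟨mem_powerset.mpr
        (union_subset hA (hD'.trans sdiff_subset)), subset_union_left, ?_⟩)
      refine disjoint_union_right.mpr ⟨hd.symm, disjoint_left.mpr fun x hx hxD => ?_⟩
      exact (mem_sdiff.mp (hD' hxD)).2 (mem_union_right _ hx)
    · intro D hD E hE hDE
      have hD' : D ⊆ U \ (A ∪ B) := mem_powerset.mp (mem_coe.mp hD)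
      have hE' : E ⊆ U \ (A ∪ B) := mem_powerset.mp (mem_coe.mp hE)
      have hDE' : A ∪ D = A ∪ E := hDE
      ext x
      constructor
      · intro hx
        have h2 : x ∈ A ∪ E := hDE' ▸ mem_union_right _ hx
        rcases mem_union.mp h2 with h | h
        · exact absurd (mem_union_left _ h) (mem_sdiff.mp (hD' hx)).2
        · exact h
      · intro hx
        have h2 : x ∈ A ∪ D := hDE'.symm ▸ mem_union_right _ hx
        rcases mem_union.mp h2 with h | h
        · exact absurd (mem_union_left _ h) (mem_sdiff.mp (hE' hx)).2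
        · exact h
  rw [card_powerset] at h1
  have h2 : #(U \ (A ∪ B)) + #(A ∪ B) = #U := card_sdiff_add_card_eq_card hAB
  have h3 : #(A ∪ B) ≤ W := (card_union_le A B).trans hW
  calc 2 ^ #U ≤ 2 ^ (W + #(U \ (A ∪ B))) := Nat.pow_le_pow_right (by norm_num) (by omega)
    _ = 2 ^ W * 2 ^ #(U \ (A ∪ B)) := pow_add _ _ _
    _ ≤ _ := Nat.mul_le_mul_left _ h1

end T63

theorem st_COL : St_COL := by
  intro ι F A B W h
  classical
  set U : Finset ℕ := F.biUnion fun k => A k ∪ B k with hU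
  have hsub : ∀ k ∈ F, A k ∪ B k ⊆ U := fun k hk =>
    subset_biUnion_of_mem (fun k => A k ∪ B k) hk
  have hsum : ∑ C ∈ U.powerset, #F ≤
      ∑ C ∈ U.powerset, 2 ^ W * #(F.filter fun k => A k ⊆ C ∧ Disjoint (B k) C) := by
    have e1 : ∑ C ∈ U.powerset, #(F.filter fun k => A k ⊆ C ∧ Disjoint (B k) C) =
        ∑ k ∈ F, #(U.powerset.filter fun C => A k ⊆ C ∧ Disjoint (B k) C) := by
      simp only [card_filter]
      exact sum_comm
    rw [← mul_sum, e1, mul_sum, sum_const, card_powerset, smul_eq_mul, mul_comm]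
    calc #F * 2 ^ #U = ∑ _k ∈ F, 2 ^ #U := by rw [sum_const, smul_eq_mul]
      _ ≤ _ := sum_le_sum fun k hk => T63.col_card U (A k) (B k) W
          (subset_union_left.trans (hsub k hk)) (subset_union_right.trans (hsub k hk))
          (h k hk).1 (h k hk).2
  obtain ⟨C, -, hC⟩ := exists_le_of_sum_le (s := U.powerset) ⟨∅, empty_mem_powerset U⟩ hsum
  exact ⟨C, F.filter fun k => A k ⊆ C ∧ Disjoint (B k) C, filter_subset _ _, hC,
    fun k hk => (mem_filter.mp hk).2⟩

end Pool.Agent.Lib.CR
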