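import Pool.Agent.Lib.CR.Util

/-! Project cr, block CS: the Cauchy–Schwarz count for `β u ^ e + y = z`. -/

open Finset Real

noncomputable section

namespace Pool.Agent.Lib.CR

namespace T86cs

theorem diff_mono {h x y : ℤ} (hh : 0 ≤ h) (hx : 0 ≤ x) (hxy : x ≤ y) (e : ℕ) :
    0 ≤ (x + h) ^ e - x ^ e ∧ (x + h) ^ e - x ^ e ≤ (y + h) ^ e - y ^ e := by
  induction e with
  | zero => simp
  | succ e ih =>
    have e1 (z : ℤ) : (z + h) ^ (e + 1) - z ^ (e + 1) =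
        (z + h) * ((z + h) ^ e - z ^ e) + h * z ^ e := by ring
    have a1 : x ^ e ≤ y ^ e := pow_le_pow_left₀ hx hxy e
    have a2 : 0 ≤ x ^ e := pow_nonneg hx e
    rw [e1, e1]
    refine ⟨add_nonneg (mul_nonneg (by linarith) ih.1) (mul_nonneg hh a2), add_le_add ?_ ?_⟩
    · exact mul_le_mul (by linarith) ih.2 ih.1 (by linarith)
    · exact mul_le_mul_of_nonneg_left a1 hh

theorem diff_strict {h x y : ℤ} (hh : 0 < h) (hx : 0 ≤ x) (hxy : x < y) {e : ℕ} (he : 2 ≤ e) :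
    (x + h) ^ e - x ^ e < (y + h) ^ e - y ^ e := by
  obtain ⟨k, rfl⟩ : ∃ k, e = k + 1 := ⟨e - 1, by omega⟩
  have e1 (z : ℤ) : (z + h) ^ (k + 1) - z ^ (k + 1) =
      (z + h) * ((z + h) ^ k - z ^ k) + h * z ^ k := by ring
  have ih := diff_mono hh.le hx hxy.le k
  rw [e1, e1]
  exact add_lt_add_of_le_of_lt (mul_le_mul (by linarith) ih.2 ih.1 (by linarith))
    (mul_lt_mul_of_pos_left (pow_lt_pow_left₀ hxy hx (by omega)) hh)

theorem key_lt {u u' w w' : ℤ} {e : ℕ} (he : 2 ≤ e) (h1 : 0 ≤ u') (h3 : 0 ≤ w)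
    (h4 : 0 ≤ w') (hlt : u' < u) (hp : u ^ e - u' ^ e = w ^ e - w' ^ e)
    (ha : (u - u').natAbs = (w - w').natAbs) : u = w ∧ u' = w' := by
  have a1 : u' ^ e < u ^ e := pow_lt_pow_left₀ hlt h1 (by omega)
  have a2 : w' < w := lt_of_pow_lt_pow_left₀ e h3 (by linarith)
  obtain ⟨h, hh, rfl⟩ : ∃ h, 0 < h ∧ u = u' + h := ⟨u - u', by omega, by ring⟩
  obtain rfl : w = w' + h := by omega
  rcases lt_trichotomy u' w' with c | c | c
  · exact absurd hp (diff_strict hh h1 c he).ne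
  · exact ⟨by rw [c], c⟩
  · exact absurd hp (diff_strict hh h4 c he).ne'

theorem key {u u' w w' : ℤ} {e : ℕ} (he : 2 ≤ e) (h1 : 0 ≤ u) (h2 : 0 ≤ u') (h3 : 0 ≤ w)
    (h4 : 0 ≤ w') (hne : u ≠ u') (hp : u ^ e - u' ^ e = w ^ e - w' ^ e)
    (ha : (u - u').natAbs = (w - w').natAbs) : u = w ∧ u' = w' := by
  rcases hne.lt_or_gt with c | c
  · exact (key_lt he h1 h4 h3 c (by linarith) (by omega)).symm
  · exact key_lt he h2 h3 h4 c hp ha

theorem solve {N P M : ℝ} (hP : 0 ≤ P) (hM : 0 ≤ M) (h : N ^ 2 ≤ P * (N + M ^ 2)) :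
    N ≤ P + √P * M := by
  by_contra hn
  push Not at hn
  have a1 : 0 ≤ √P * M := mul_nonneg (sqrt_nonneg P) hM
  have a2 : (√P * M) ^ 2 = P * M ^ 2 := by rw [mul_pow, sq_sqrt hP]
  nlinarith

end T86cs

open T86cs in
theorem st_CS : St_CS := by
  intro e H τ B Y Z F he hτ hd hZ hF
  set Q := (F ×ˢ F).filter fun p => p.1.1 = p.2.1 ∧ p.1.2.2 = p.2.2.2
  have hK : ∀ v ∈ F, (v.1, v.2.2) ∈ B ×ˢ Y := fun v hv =>
    mem_product.2 ⟨(hF v hv).2.1, (hF v hv).2.2.2.1⟩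
  have h1 : #F = ∑ k ∈ B ×ˢ Y, #(F.filter fun v => (v.1, v.2.2) = k) :=
    card_eq_sum_card_fiberwise hK
  have h2 : #Q = ∑ k ∈ B ×ˢ Y, #(F.filter fun v => (v.1, v.2.2) = k) ^ 2 := by
    rw [card_eq_sum_card_fiberwise (f := fun p => (p.1.1, p.1.2.2)) (t := B ×ˢ Y)
      fun p hp => hK _ (mem_product.1 (mem_filter.1 hp).1).1]
    refine sum_congr rfl fun k _ => ?_
    rw [sq, ← card_product]
    congr 1
    ext p
    simp only [mem_filter, mem_product]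
    constructor
    · rintro ⟨⟨⟨a, b⟩, c, d⟩, f⟩
      exact ⟨⟨a, f⟩, b, by rw [← c, ← d, f]⟩
    · rintro ⟨⟨a, f⟩, b, g⟩
      have := Prod.mk.inj (f.trans g.symm)
      exact ⟨⟨⟨a, b⟩, this.1, this.2⟩, f⟩
  have h3 : #F ^ 2 ≤ #(B ×ˢ Y) * #Q := by
    rw [h1, h2]
    exact sq_sum_le_card_mul_sum_sq
  have h4 : #Q ≤ #F + #(Q.filter fun p => p.1.2.1 ≠ p.2.2.1) := by
    rw [← card_filter_add_card_filter_not (s := Q) (fun p => p.1.2.1 = p.2.2.1)]
    refine Nat.add_le_add_right (card_le_card_of_injOn (fun p => p.1) (fun p hp => ?_) ?_) _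
    · exact (mem_product.1 (mem_filter.1 (mem_filter.1 hp).1).1).1
    · have c : ∀ p ∈ Q.filter fun p => p.1.2.1 = p.2.2.1, p.2 = p.1 := fun p hp => by
        obtain ⟨a, b⟩ := mem_filter.1 hp
        obtain ⟨-, c, d⟩ := mem_filter.1 a
        exact Prod.ext c.symm (Prod.ext b.symm d.symm)
      intro p hp q hq h
      exact Prod.ext h (by rw [c p hp, c q hq]; exact h)
  have h5 := card_le_classes' (Q.filter fun p => p.1.2.1 ≠ p.2.2.1) (Z ×ˢ Z)
    (fun p c => (p.1.1 : ℤ) * (p.1.2.1 : ℤ) ^ e + p.1.2.2 = c.1 ∧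
      (p.2.1 : ℤ) * (p.2.2.1 : ℤ) ^ e + p.2.2.2 = c.2) (τ ^ 2) ?_ ?_
  · have a1 : (#F : ℝ) ^ 2 ≤ #B * #Y * #Q := by
      rw [card_product] at h3
      exact_mod_cast h3
    have a2 : (#Q : ℝ) ≤ #F + #(Q.filter fun p => p.1.2.1 ≠ p.2.2.1) := by exact_mod_cast h4
    rw [card_product, Nat.cast_mul] at h5
    refine solve (by positivity) (by positivity) (a1.trans ?_)
    refine mul_le_mul_of_nonneg_left (a2.trans ?_) (by positivity)
    nlinarith
  · intro p hp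
    obtain ⟨a, b⟩ := mem_product.1 (mem_filter.1 (mem_filter.1 hp).1).1
    exact ⟨(_, _), mem_product.2 ⟨(hF _ a).2.2.2.2, (hF _ b).2.2.2.2⟩, rfl, rfl⟩
  · rintro ⟨z, z'⟩ hz F' hF' hP
    obtain ⟨hz1, hz2⟩ := mem_product.1 hz
    have c : ∀ p ∈ F', 0 < p.1.1 ∧ p.1.1 = p.2.1 ∧ p.1.2.2 = p.2.2.2 ∧
        (p.1.2.1 : ℤ) ≠ p.2.2.1 ∧ z - z' = p.1.1 * ((p.1.2.1 : ℤ) ^ e - (p.2.2.1 : ℤ) ^ e) := by
      intro p hp
      obtain ⟨a, b⟩ := mem_filter.1 (hF' hp)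
      obtain ⟨a1, a2, a3⟩ := mem_filter.1 a
      obtain ⟨b1, b2⟩ := hP p hp
      refine ⟨(hF _ (mem_product.1 a1).1).1, a2, a3, by exact_mod_cast b, ?_⟩
      simp only at b1 b2
      rw [← b1, ← b2, ← a2, ← a3]
      ring
    rcases F'.eq_empty_or_nonempty with rfl | ⟨p₀, hp₀⟩
    · simpa using sq_nonneg τ
    have hD : (z - z').natAbs ≠ 0 := by
      obtain ⟨a1, -, -, a4, a5⟩ := c p₀ hp₀
      rw [Int.natAbs_ne_zero, a5]
      refine mul_ne_zero (by exact_mod_cast a1.ne') (sub_ne_zero.2 fun h => a4 ?_)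
      exact (pow_left_inj₀ (Int.natCast_nonneg _) (Int.natCast_nonneg _) (by omega)).1 h
    have hD' : (z - z').natAbs ≤ 2 * H := by
      have a1 := abs_le.1 (hZ z hz1)
      have a2 := abs_le.1 (hZ z' hz2)
      omega
    have hc : #F' ≤ #((z - z').natAbs.divisors ×ˢ (z - z').natAbs.divisors) := by
      refine card_le_card_of_injOn (fun p => (p.1.1, ((p.1.2.1 : ℤ) - p.2.2.1).natAbs))
        (fun p hp => ?_) fun p hp q hq h => ?_
      · obtain ⟨-, -, -, -, a5⟩ := c p hp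
        refine mem_product.2 ⟨Nat.mem_divisors.2 ⟨?_, hD⟩, Nat.mem_divisors.2 ⟨?_, hD⟩⟩
        · exact Int.natCast_dvd.1 ⟨_, a5⟩
        · exact Int.natAbs_dvd_natAbs.2 (a5 ▸ (sub_dvd_pow_sub_pow _ _ e).mul_left _)
      · obtain ⟨a1, a2, a3, a4, a5⟩ := c p hp
        obtain ⟨-, b2, b3, -, b5⟩ := c q hq
        obtain ⟨c1, c2⟩ := Prod.mk.inj h
        have c3 := a5.symm.trans b5
        rw [← c1] at c3
        have c4 := key he (Int.natCast_nonneg _) (Int.natCast_nonneg _) (Int.natCast_nonneg _)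
          (Int.natCast_nonneg _) a4 (mul_left_cancel₀ (by exact_mod_cast a1.ne') c3) c2
        have c5 : p.1.2.1 = q.1.2.1 := by exact_mod_cast c4.1
        have c6 : p.2.2.1 = q.2.2.1 := by exact_mod_cast c4.2
        have c7 : p.1.2.2 = q.1.2.2 := by
          have := (hP p hp).1.trans (hP q hq).1.symm
          rw [c1, c5] at this
          exact add_left_cancel this
        exact Prod.ext (Prod.ext c1 (Prod.ext c5 c7))
          (Prod.ext (by rw [← a2, ← b2, c1]) (Prod.ext c6 (by rw [← a3, ← b3, c7])))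
    have a1 := hd _ (Nat.pos_of_ne_zero hD) hD'
    have a2 : (#F' : ℝ) ≤ #(z - z').natAbs.divisors * #(z - z').natAbs.divisors := by
      rw [card_product] at hc
      exact_mod_cast hc
    rw [sq]
    exact a2.trans (mul_le_mul a1 a1 (Nat.cast_nonneg _) hτ)

end Pool.Agent.Lib.CR
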