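import Pool.Agent.Lib.CR.Util

/-! Project cr, row CU: the count for triples with almost uniform exponents. -/

open Finset Real

noncomputable section

namespace Pool.Agent.Lib.CR

namespace T82

theorem dev_le_dev {x y : ℕ} (e : ℕ) (hx : x ≠ 0) (hy : y ≠ 0) (h : y.Coprime x) :
    dev e y ≤ dev e (x * y) := by
  have h1 : dev e y = ∑ p ∈ y.primeFactors, |((x * y).factorization p : ℝ) - e| * log p := by
    refine sum_congr rfl fun p hp => ?_
    have hp' := Nat.prime_of_mem_primeFactors hp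
    have h2 : x.factorization p = 0 := by
      refine Nat.factorization_eq_zero_of_not_dvd fun hd => ?_
      exact hp'.one_lt.ne' (Nat.eq_one_of_dvd_coprimes h (Nat.dvd_of_mem_primeFactors hp) hd)
    rw [Nat.factorization_mul hx hy, Finsupp.add_apply, h2, zero_add]
  rw [h1]
  exact sum_le_sum_of_subset_of_nonneg
    (Nat.primeFactors_mono (dvd_mul_left y x) (mul_ne_zero hx hy))
    fun p _ _ => mul_nonneg (abs_nonneg _) (log_nat_nonneg p)

theorem log_rad_le {x n : ℕ} {X : ℝ} (h : x ∣ n) (hn : n ≠ 0) (hX : (rad n : ℝ) ≤ X) :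
    log (rad x) ≤ log X := by
  have h1 : rad x ≤ rad n := Nat.le_of_dvd (rad_pos n) (rad_dvd_rad h hn)
  have h2 : (0 : ℝ) < rad n := by exact_mod_cast rad_pos n
  exact (log_le_of_le h1).trans (log_le_log h2 hX)

theorem le_rpow_of_log {m : ℕ} {X s : ℝ} (hX : 0 < X) (h : log m ≤ s * log X) :
    (m : ℝ) ≤ X ^ s := by
  rcases m.eq_zero_or_pos with rfl | hm
  · simpa using (rpow_pos_of_pos hX s).le
  · rw [← log_rpow hX, log_le_log_iff (by exact_mod_cast hm) (rpow_pos_of_pos hX s)] at h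
    exact h

theorem cu_num {C : ℕ} {u : ℝ} (hC : 1 ≤ C) (hu : (C : ℝ) * 10 ^ 10 ≤ u) :
    1 ≤ ⌊u / 2400⌋₊ ∧ u / 4800 ≤ ⌊u / 2400⌋₊ ∧ 1 ≤ ⌈100 * (1 / (C * 10 ^ 12 : ℝ)) * u⌉₊ ∧
      C * 100 ^ 2 * 100 * ⌈100 * (1 / (C * 10 ^ 12 : ℝ)) * u⌉₊ ≤ ⌊u / 2400⌋₊ := by
  have c1 : (1 : ℝ) ≤ C := by exact_mod_cast hC
  have u0 : (10 : ℝ) ^ 10 ≤ u := by nlinarith
  have h1 : u / 2400 < (⌊u / 2400⌋₊ : ℝ) + 1 := Nat.lt_floor_add_one _
  have h2 : 0 < 100 * (1 / (C * 10 ^ 12 : ℝ)) * u := by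
    have : 0 < u := by linarith
    positivity
  have h3 := Nat.ceil_lt_add_one h2.le
  refine ⟨Nat.le_floor (by rw [Nat.cast_one, le_div_iff₀ (by norm_num)]; linarith), by linarith,
    Nat.ceil_pos.2 h2, Nat.le_floor ?_⟩
  push_cast
  have h4 : (C : ℝ) * 100 ^ 2 * 100 * (100 * (1 / (C * 10 ^ 12 : ℝ)) * u) = u / 10 ^ 4 := by
    field_simp
    norm_num
  have h5 : (C : ℝ) * 100 ^ 2 * 100 * (⌈100 * (1 / (C * 10 ^ 12 : ℝ)) * u⌉₊ : ℝ) ≤
      (C : ℝ) * 100 ^ 2 * 100 * (100 * (1 / (C * 10 ^ 12 : ℝ)) * u + 1) :=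
    mul_le_mul_of_nonneg_left h3.le (by positivity)
  rw [mul_add, h4] at h5
  linarith

end T82

open T82

theorem st_CU (hM : St_ML) (hR : St_REPU) (hT : St_T3) (hW : St_W) : St_CU := by
  obtain ⟨C, hC, hT⟩ := hT
  have c1 : (1 : ℝ) ≤ C := by exact_mod_cast hC
  obtain ⟨X₁, hX₁⟩ := hW (1 / (10 * (271 * 480000))) (by norm_num)
  obtain ⟨X₂, hX₂⟩ := absorb (C * 10 ^ 4 : ℝ) (ε := 1 / 100) (by norm_num)
  refine ⟨1 / (C * 10 ^ 12 : ℝ), by positivity, C * 10 ^ 10, max X₁ X₂, ?_⟩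
  intro X hX Λ F hA hΛ hF
  obtain ⟨W, hW1, hW2⟩ := hX₁ X ((le_max_left _ _).trans hX)
  obtain ⟨x3, l1, lC, xC, -⟩ := hX₂ X ((le_max_right _ _).trans hX)
  have x0 : 0 < X := by linarith
  have x1 : 1 ≤ X := by linarith
  set L := log X with hL
  have L0 : 0 < L := by linarith
  have L5 : 5 ≤ L := by linarith
  set u : ℝ := Λ / L with hu
  have hu1 : (C : ℝ) * 10 ^ 10 ≤ u := by rw [hu, le_div_iff₀ L0]; exact hA
  have hu2 : u * L = Λ := by rw [hu]; field_simp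
  obtain ⟨n1, n2, n3, n4⟩ := cu_num hC hu1
  set E := ⌊u / 2400⌋₊ with hE
  set a := ⌈100 * (1 / (C * 10 ^ 12 : ℝ)) * u⌉₊ with ha
  have u0 : (10 : ℝ) ^ 10 ≤ u := by nlinarith
  have hΛ1 : (10 : ℝ) ^ 10 ≤ Λ := by nlinarith
  have hE1 : (E : ℝ) ≤ u / 2400 := Nat.floor_le (by positivity)
  have ha1 : 100 * (1 / (C * 10 ^ 12 : ℝ)) * u ≤ a := Nat.le_ceil _
  set Y : ℝ := X ^ (1 / 10 : ℝ) with hY
  have Y1 : 1 ≤ Y := one_le_rpow x1 (by norm_num)
  have hY1 : X ^ (1 / 100 : ℝ) ≤ Y := rpow_le_rpow_of_exponent_le x1 (by norm_num)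
  have key := card_le_classes' F (Icc 1 ⌊Y⌋₊ ×ˢ Icc 1 ⌊Y⌋₊)
    (fun t v => v.1 ^ E ∣ xx 2 t ∧ L / 100 ≤ log v.1 ∧ (v.2 : ℝ) ≤ X ∧
      Rep v.1 v.2 100 a 1 1 (yy 2 t) (zz 2 t)) (Y * Y) ?_ ?_
  · refine key.trans ?_
    rw [card_product, Nat.cast_mul]
    have h1 := card_Icc_floor (Y := Y) (by linarith)
    have h2 : Y * Y * (Y * Y) ≤ X ^ (1 / 2 : ℝ) := by
      rw [hY, ← rpow_add x0, ← rpow_add x0]
      exact rpow_le_rpow_of_exponent_le x1 (by norm_num)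
    refine le_trans ?_ h2
    gcongr
  · intro t ht
    obtain ⟨h1, h2, h3, h4, e, e1, e2, e3⟩ := hF t ht
    have P0 := h1.Pr_pos.ne'
    have dx : xx 2 t ∣ Pr t := by rw [Pr_eq 2 t]; exact dvd_mul_right _ _
    have dyz : yy 2 t * zz 2 t ∣ Pr t := by rw [Pr_eq 2 t]; exact dvd_mul_left _ _
    have hx : (Λ : ℝ) - 1 < log (xx 2 t) := h2.1
    obtain ⟨m, m1, m2, -, m4⟩ := hM 100 E (xx 2 t) L (by norm_num) n1 (h1.xx_pos 2) L0
      (log_rad_le dx P0 h3) (by push_cast; nlinarith)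
    have hb : big (L / (100 : ℕ)) (xx 2 t) = ∅ := by
      refine subset_empty.1 ((big_mono _ dx P0).trans ?_)
      rw [← h4]; push_cast; exact Subset.rfl
    rw [hb] at m4
    simp only [ms, sum_empty, zero_add] at m4
    push_cast at m2 m4
    have m0 : 0 < m := by
      refine Nat.pos_of_ne_zero ?_
      rintro rfl
      simp only [Nat.cast_zero, log_zero] at m2
      linarith
    have mY : (m : ℝ) ≤ Y := le_rpow_of_log x0 (by linarith)
    have eΛ : (e : ℝ) ≤ Λ := by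
      have : (0 : ℝ) ≤ e := Nat.cast_nonneg _
      nlinarith
    have eY : (e : ℝ) ≤ Y := eΛ.trans (hΛ.trans hY1)
    have cm : (yy 2 t * zz 2 t).Coprime m :=
      (h1.cop_yzx 2).coprime_dvd_right ((dvd_pow_self m (by omega)).trans m1)
    refine ⟨(m, e), mem_product.2 ⟨mem_Icc.2 ⟨m0, Nat.le_floor mY⟩, mem_Icc.2 ⟨e1, Nat.le_floor eY⟩⟩,
      m1, m2, ?_, hR _ _ m e 100 a (h1.yy_pos 2) (h1.zz_pos 2) (h1.cop_yz 2) cm m0 ?_ ?_⟩
    · exact eY.trans ((rpow_le_rpow_of_exponent_le x1 (by norm_num : (1 / 10 : ℝ) ≤ 1)).trans_eq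
        (rpow_one X))
    · refine le_pow_of_log m0 ((log_rad_le dyz P0 h3).trans ?_)
      push_cast
      linarith
    · have d1 := dev_le_dev e (h1.xx_pos 2).ne'
        (Nat.mul_pos (h1.yy_pos 2) (h1.zz_pos 2)).ne' (h1.cop_yzx 2)
      rw [← Pr_eq 2 t] at d1
      refine d1.trans (e3.trans ?_)
      calc 1 / (C * 10 ^ 12 : ℝ) * Λ = 100 * (1 / (C * 10 ^ 12 : ℝ)) * u * (L / 100) := by
            rw [← hu2]; ring
        _ ≤ a * log m := by gcongr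
  · rintro ⟨m, e⟩ hv F' hF' hP
    rcases F'.eq_empty_or_nonempty with rfl | ⟨t₀, ht₀⟩
    · simp only [card_empty, Nat.cast_zero]; positivity
    obtain ⟨-, m2, eX, -⟩ := hP t₀ ht₀
    simp only at m2 eX
    obtain ⟨m0, mY⟩ := mem_Icc.1 (mem_product.1 hv).1
    simp only at m0 mY
    have mY' : (m : ℝ) ≤ Y := (Nat.cast_le.2 mY).trans (Nat.floor_le (by linarith))
    have m1 : (1 : ℝ) ≤ m := by exact_mod_cast m0
    have hm : X ^ (1 / 100 : ℝ) ≤ m := by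
      rw [← log_le_log_iff (rpow_pos_of_pos x0 _) (by linarith), log_rpow x0]
      linarith
    have hm' : X ≤ (m : ℝ) ^ 100 := by
      rw [← log_le_log_iff x0 (by positivity), log_pow]
      push_cast
      linarith
    have h1 := hT (1 / 480000) 2 F' Λ m 100 100 a E e 1 1 W (by norm_num) (by norm_num)
      (by norm_num) (by norm_num) n3 ?_ n4 ?_ one_pos one_pos (by linarith) ?_ ?_
    · refine h1.trans (mul_le_mul ?_ ?_ (by positivity) (by linarith))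
      · refine le_trans ?_ mY'
        simpa using rpow_le_rpow_of_exponent_le m1 (by norm_num : (1 / 4 : ℝ) ≤ 1)
      · refine two_rpow_le x0 (by positivity) ?_
        linarith
    · have : ((C * 100 * 100 : ℕ) : ℝ) ≤ m := by
        push_cast
        linarith
      exact_mod_cast this
    · exact_mod_cast eX.trans hm'
    · calc 1 / 480000 * (Λ : ℝ) = u / 4800 * (L / 100) := by rw [← hu2]; ring
        _ ≤ E * log m := by gcongr
    · intro t ht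
      obtain ⟨h1, h2, h3, -⟩ := hF t (hF' ht)
      obtain ⟨p1, -, -, p4⟩ := hP t ht
      exact ⟨h1, h2, hW2 _ h3, p1, p4⟩

end Pool.Agent.Lib.CR
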