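import Pool.Agent.Lib.CR.Util

/-! Project cr, block DIR: simultaneous approximation. -/

open Finset Real

noncomputable section

namespace Pool.Agent.Lib.CR

theorem st_DIR : St_DIR := by
  intro s x Q n hQ hs
  have hQ' : (0 : ℝ) < Q := by exact_mod_cast hQ
  have main (a b : ℕ) (hb : b ≤ Q ^ n) (hab : a < b)
      (h : ∀ p ∈ s, ⌊Q * Int.fract (a * x p)⌋₊ = ⌊Q * Int.fract (b * x p)⌋₊) :
      ∃ q : ℕ, 1 ≤ q ∧ q ≤ Q ^ n ∧ ∃ k : ℕ → ℤ, ∀ p ∈ s, |q * x p - k p| ≤ 1 / Q := by
    refine ⟨b - a, by omega, by omega, fun p => ⌊b * x p⌋ - ⌊a * x p⌋, fun p hp => ?_⟩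
    have e : ((b - a : ℕ) : ℝ) * x p - ((⌊b * x p⌋ - ⌊a * x p⌋ : ℤ) : ℝ) =
        Int.fract (b * x p) - Int.fract (a * x p) := by
      rw [Nat.cast_sub hab.le, Int.fract, Int.fract]
      push_cast
      ring
    have a1 := Nat.floor_le (mul_nonneg hQ'.le (Int.fract_nonneg (a * x p)))
    have a2 := Nat.lt_floor_add_one (Q * Int.fract (a * x p))
    have b1 := Nat.floor_le (mul_nonneg hQ'.le (Int.fract_nonneg (b * x p)))
    have b2 := Nat.lt_floor_add_one (Q * Int.fract (b * x p))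
    rw [h p hp] at a1 a2
    rw [e, le_div_iff₀ hQ', ← abs_of_pos hQ', ← abs_mul, abs_le]
    constructor <;> nlinarith
  obtain ⟨a, ha, b, hb, hab, h⟩ := exists_ne_map_eq_of_card_lt_of_maps_to
    (s := range (Q ^ n + 1)) (t := Fintype.piFinset fun _ : s => range Q)
    (f := fun q (p : s) => ⌊Q * Int.fract (q * x p)⌋₊)
    (by
      rw [card_range, Fintype.card_piFinset]
      simp only [card_range, prod_const, card_univ, Fintype.card_coe]
      exact Nat.lt_succ_of_le (Nat.pow_le_pow_right hQ hs))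
    (fun q _ => by
      rw [mem_coe, Fintype.mem_piFinset]
      intro p
      rw [mem_range, Nat.floor_lt (mul_nonneg hQ'.le (Int.fract_nonneg _))]
      exact mul_lt_of_lt_one_right hQ' (Int.fract_lt_one _))
  rw [mem_range] at ha hb
  rcases lt_or_gt_of_ne hab with l | l
  · exact main a b (by omega) l fun p hp => congrFun h ⟨p, hp⟩
  · exact main b a (by omega) l fun p hp => (congrFun h ⟨p, hp⟩).symm

end Pool.Agent.Lib.CR
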