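import Pool.Agent.Lib.CR.Util

/-! Project cr, row DIV (the proof follows `MP_fb430f_co.div_bound`). -/

open Finset Real

namespace Pool.Agent.Lib.CR

namespace T7d

theorem div_bound {ε : ℝ} (hε : 0 < ε) : ∃ C : ℝ, 0 < C ∧ ∀ M : ℕ, M ≠ 0 →
    ((∏ p ∈ M.primeFactors, (M.factorization p + 2) : ℕ) : ℝ) ≤ C * (M : ℝ) ^ ε := by
  set η := ε * Real.log 2 with hη
  have hη0 : 0 < η := mul_pos hε (Real.log_pos one_lt_two)
  obtain ⟨B, hB⟩ := exists_nat_ge ((3 : ℝ) ^ (1 / ε))
  have h0 : (1 : ℝ) ≤ 2 + 1 / η := by have := one_div_pos.2 hη0; linarith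
  refine ⟨(2 + 1 / η) ^ B, by positivity, fun M hM => ?_⟩
  have key : ∀ p ∈ M.primeFactors, ((M.factorization p + 2 : ℕ) : ℝ) ≤
      (if p < B then 2 + 1 / η else 1) * (((p ^ M.factorization p : ℕ) : ℝ)) ^ ε := by
    intro p hp
    have hp' := Nat.prime_of_mem_primeFactors hp
    have he : 1 ≤ M.factorization p :=
      (hp'.dvd_iff_one_le_factorization hM).1 (Nat.dvd_of_mem_primeFactors hp)
    generalize M.factorization p = e at he
    have hp2 : (2 : ℝ) ≤ p := by exact_mod_cast hp'.two_le
    have e1 : (((p ^ e : ℕ) : ℝ)) ^ ε = ((p : ℝ) ^ ε) ^ e := by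
      rw [Nat.cast_pow, ← Real.rpow_natCast, ← Real.rpow_mul (by linarith), mul_comm,
        Real.rpow_mul_natCast (by linarith)]
    rw [e1]
    split_ifs with h
    · have h1 : Real.exp η ≤ (p : ℝ) ^ ε := by
        rw [hη, mul_comm, ← Real.rpow_def_of_pos two_pos]
        exact Real.rpow_le_rpow (by norm_num) hp2 hε.le
      have h2 : 1 + e * η ≤ ((p : ℝ) ^ ε) ^ e := by
        refine le_trans ?_ (pow_le_pow_left₀ (Real.exp_pos _).le h1 e)
        rw [← Real.exp_nat_mul]
        linarith [Real.add_one_le_exp (e * η)]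
      refine le_trans ?_ (mul_le_mul_of_nonneg_left h2 (by linarith))
      have h3 : (2 + 1 / η) * (1 + e * η) = 2 + e + (1 / η + 2 * e * η) := by field_simp; ring
      rw [h3]
      push_cast
      have : 0 ≤ 1 / η + 2 * e * η := by positivity
      linarith
    · have h1 : (3 : ℝ) ≤ (p : ℝ) ^ ε := by
        have h2 : (3 : ℝ) ^ (1 / ε) ≤ p := hB.trans (by exact_mod_cast not_lt.1 h)
        have := Real.rpow_le_rpow (by positivity) h2 hε.le
        rwa [← Real.rpow_mul (by norm_num), one_div_mul_cancel hε.ne', Real.rpow_one] at this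
      rw [one_mul]
      refine le_trans ?_ (pow_le_pow_left₀ (by norm_num) h1 e)
      have : e + 2 ≤ 3 ^ e := by
        clear e1
        induction e, he using Nat.le_induction with
        | base => norm_num
        | succ e _ ih => rw [pow_succ]; omega
      exact_mod_cast this
  rw [Nat.cast_prod]
  refine (prod_le_prod (fun _ _ => by positivity) key).trans ?_
  rw [prod_mul_distrib, Real.finsetProd_rpow _ _ (fun _ _ => by positivity), ← Nat.cast_prod]
  have h1 : ∏ p ∈ M.primeFactors, p ^ M.factorization p = M :=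
    Nat.prod_factorization_pow_eq_self hM
  rw [h1]
  refine mul_le_mul_of_nonneg_right ?_ (by positivity)
  rw [prod_ite, prod_const, prod_const_one, mul_one]
  refine pow_le_pow_right₀ h0 ((card_le_card fun p hp => ?_).trans (card_range B).le)
  exact mem_range.2 (mem_filter.1 hp).2

end T7d

theorem st_DIV : St_DIV := fun ε hε => by
  obtain ⟨C, hC, h⟩ := T7d.div_bound hε
  refine ⟨C, hC, fun n hn => ⟨le_trans ?_ (h n hn.ne'), le_trans ?_ (h n hn.ne')⟩⟩
  · rw [Nat.card_divisors hn.ne']
    exact_mod_cast Finset.prod_le_prod' fun p _ => by omega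
  · rw [← prod_const]
    exact_mod_cast Finset.prod_le_prod' fun p _ => by omega

end Pool.Agent.Lib.CR
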