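import Pool.Agent.Lib.CR.Util

/-! Project cr, row DU: greedy choice of primes in increasing order of the exponent. -/

open Finset Real

noncomputable section

namespace Pool.Agent.Lib.CR

namespace T39

/-- Greedy choice: an initial segment for the order given by `v` whose weight just stays below
`β`. -/
theorem du_greedy (v : ℕ → ℕ) (w : ℕ → ℝ) {β : ℝ} (hβ : 0 ≤ β) (T : Finset ℕ) :
    β < ∑ p ∈ T, w p → ∃ F ⊆ T, ∃ q ∈ T, q ∉ F ∧ (∀ p ∈ F, v p ≤ v q) ∧
      (∀ p ∈ T, p ∉ F → v q ≤ v p) ∧ ∑ p ∈ F, w p ≤ β ∧ β < ∑ p ∈ F, w p + w q := by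
  induction T using Finset.induction_on_max_value v with
  | empty => intro h; simp at h; linarith
  | insert a s ha hmax ih =>
    intro h
    by_cases hs : β < ∑ p ∈ s, w p
    · obtain ⟨F, hF, q, hq, hqF, h1, h2, h3, h4⟩ := ih hs
      refine ⟨F, hF.trans (subset_insert _ _), q, mem_insert_of_mem hq, hqF, h1, ?_, h3, h4⟩
      intro p hp hpF
      rcases mem_insert.1 hp with rfl | hp
      · exact hmax q hq
      · exact h2 p hp hpF
    · rw [sum_insert ha] at h
      refine ⟨s, subset_insert _ _, a, mem_insert_self _ _, ha, hmax, ?_, not_lt.1 hs, by linarith⟩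
      intro p hp hpF
      rcases mem_insert.1 hp with rfl | hp
      · exact le_rfl
      · exact absurd hp hpF

end T39

theorem st_DU : St_DU := by
  intro κ L Λ t hκ hκ1 hL h3 ht hs hrad hbig
  have hP : Pr t ≠ 0 := ht.Pr_pos.ne'
  have hΛ : (0 : ℝ) ≤ Λ := Nat.cast_nonneg _
  have hlog : log (Pr t) ≤ 3 * Λ := by
    have a1 := log_le_of_le (Nat.le_add_right t.1 t.2)
    have a2 := log_le_of_le (Nat.le_add_left t.2 t.1)
    rw [ht.log_Pr]
    linarith [hs.2]
  have hβ : (0 : ℝ) ≤ (1 - κ) * Λ - 3 := by nlinarith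
  by_cases h0 : log (Pr t) ≤ (1 - κ) * Λ - 3
  · refine Or.inl ⟨∅, empty_subset _, ?_, ?_⟩
    · have : ms ∅ = 0 := by simp [ms]
      rw [this]
      exact mul_nonneg (by linarith) hL.le
    · linarith [sh_nonneg ∅ (Pr t)]
  obtain ⟨F, hF, q, hq, hqF, h1, h2, h4, h5⟩ := T39.du_greedy (Pr t).factorization
    (fun p => ((Pr t).factorization p : ℝ) * log p) hβ (Pr t).primeFactors (by
      have := sh_self hP
      rw [sh] at this
      rw [this]
      exact not_le.1 h0)
  change sh F (Pr t) ≤ _ at h4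
  change _ < sh F (Pr t) + ((Pr t).factorization q : ℝ) * log q at h5
  set e := (Pr t).factorization q with he
  set S := (Pr t).primeFactors \ F with hS
  have hsum : sh S (Pr t) + sh F (Pr t) = log (Pr t) := by
    rw [← sh_self hP]
    exact sum_sdiff hF
  have hms : ms S + ms F ≤ L := by
    have : ms S + ms F = ms (Pr t).primeFactors := sum_sdiff hF
    rw [this, ← log_rad]
    exact hrad
  by_cases hm : ms S ≤ (2 / 3 - κ) * L
  · exact Or.inl ⟨S, sdiff_subset, hm, by linarith⟩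
  have hm' := not_le.1 hm
  have he1 : 1 ≤ e := (Nat.prime_of_mem_primeFactors hq).factorization_pos_of_dvd hP
    (Nat.dvd_of_mem_primeFactors hq)
  have he0 : (0 : ℝ) ≤ e := Nat.cast_nonneg _
  have hq1 : log q ≤ κ * L := by
    by_contra hc
    have : q ∈ big (κ * L) (Pr t) := mem_filter.2 ⟨hq, not_le.1 hc⟩
    rw [hbig] at this
    exact notMem_empty _ this
  have hSe : ∀ p ∈ S, (e : ℝ) ≤ (Pr t).factorization p := fun p hp => by
    exact_mod_cast h2 p (mem_sdiff.1 hp).1 (mem_sdiff.1 hp).2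
  have hFe : ∀ p ∈ F, ((Pr t).factorization p : ℝ) ≤ e := fun p hp => by exact_mod_cast h1 p hp
  have hdev : dev e (Pr t) = (sh S (Pr t) - e * ms S) + (e * ms F - sh F (Pr t)) := by
    rw [dev, ← sum_sdiff hF, sh, sh, ms, ms, mul_sum, mul_sum, ← sum_sub_distrib,
      ← sum_sub_distrib]
    congr 1
    · refine sum_congr rfl fun p hp => ?_
      rw [abs_of_nonneg (sub_nonneg.2 (hSe p hp))]; ring
    · refine sum_congr rfl fun p hp => ?_
      rw [abs_of_nonpos (sub_nonpos.2 (hFe p hp))]; ring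
  have b1 : e * ms S ≤ sh S (Pr t) := by
    rw [ms, mul_sum]
    exact sum_le_sum fun p hp => mul_le_mul_of_nonneg_right (hSe p hp) (log_nat_nonneg p)
  have b2 : sh F (Pr t) ≤ e * ms F := by
    rw [ms, mul_sum]
    exact sum_le_sum fun p hp => mul_le_mul_of_nonneg_right (hFe p hp) (log_nat_nonneg p)
  have b3 : e * ((2 / 3 - κ) * L) ≤ e * ms S := mul_le_mul_of_nonneg_left hm'.le he0
  have b4 : e * (ms S + ms F) ≤ e * L := mul_le_mul_of_nonneg_left hms he0
  have b5 : e * log q ≤ e * (κ * L) := mul_le_mul_of_nonneg_left hq1 he0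
  have b6 := sh_nonneg F (Pr t)
  have hT : (0 : ℝ) ≤ e * L := mul_nonneg he0 hL.le
  have b7 : κ * (e * L) ≤ 1 / 100 * (e * L) := mul_le_mul_of_nonneg_right hκ1 hT
  have c1 : (e : ℝ) * L ≤ 5 * Λ := by nlinarith
  have b8 : κ * (e * L) ≤ κ * (5 * Λ) := mul_le_mul_of_nonneg_left c1 hκ.le
  refine Or.inr ⟨e, he1, c1, ?_⟩
  rw [hdev]
  nlinarith

end Pool.Agent.Lib.CR
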