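import Pool.Agent.Lib.CR.Util

/-! Row EXT: extrapolation by forward differences. -/

open Finset

namespace Pool.Agent.Lib.CR

namespace T66e

variable {A : Type} [CommRing A]

theorem mulz : ∀ (n : ℕ) (g : ℕ → A), (fwdDiff 1)^[n] g = 0 →
    (fwdDiff 1)^[n + 1] (fun z : ℕ => (z : A) * g z) = 0
  | 0, g, h => by
    obtain rfl : g = 0 := h
    funext z
    simp [fwdDiff]
  | n + 1, g, h => by
    have e : fwdDiff 1 (fun z : ℕ => (z : A) * g z) =
        (fun z : ℕ => (z : A) * fwdDiff 1 g z) + fun z => g (z + 1) := by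
      funext z
      simp only [fwdDiff, Pi.add_apply]
      push_cast
      ring
    rw [Function.iterate_succ_apply, e, fwdDiff_iter_add, mulz n _ h, zero_add]
    funext z
    rw [fwdDiff_iter_comp_add, h]
    rfl

theorem geom (c : A) : ∀ n : ℕ,
    (fwdDiff 1)^[n] (fun z : ℕ => c ^ z) = fun z => (c - 1) ^ n * c ^ z
  | 0 => by simp
  | n + 1 => by
    rw [Function.iterate_succ_apply', geom c n]
    funext z
    simp only [fwdDiff]
    ring

theorem mono {n : ℕ} {g : ℕ → A} (h : (fwdDiff 1)^[n] g = 0) (j : ℕ) :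
    (fwdDiff 1)^[j + n] g = 0 := by
  rw [Function.iterate_add_apply, h]
  refine Function.iterate_fixed ?_ j
  funext z
  simp [fwdDiff]

theorem term {W : ℕ} {c : A} (h : (c - 1) ^ W = 0) : ∀ k : ℕ,
    (fwdDiff 1)^[W + k] (fun z : ℕ => (z : A) ^ k * c ^ z) = 0
  | 0 => by
    simp only [pow_zero, one_mul, add_zero, geom, h, zero_mul]
    rfl
  | k + 1 => by
    simpa only [pow_succ', mul_assoc, add_assoc] using mulz _ _ (term h k)

theorem vanish : ∀ (n : ℕ) (g : ℕ → A), (fwdDiff 1)^[n] g = 0 → (∀ z < n, g z = 0) → g = 0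
  | 0, _, h, _ => h
  | n + 1, g, h, h0 => by
    have e := vanish n (fwdDiff 1 g) h fun z hz => by
      simp only [fwdDiff]
      rw [h0 _ (by omega), h0 _ (by omega), sub_zero]
    funext z
    induction z with
    | zero => exact h0 0 (by omega)
    | succ z ih =>
      have := congrFun e z
      simp only [fwdDiff, Pi.zero_apply] at this ih ⊢
      rw [ih, sub_zero] at this
      exact this

end T66e

open T66e in
theorem st_EXT : St_EXT := by
  intro A _ D K W V p hV h0
  have e : (fun z : ℕ => ∑ k, ∑ l, p k l * (z : A) ^ (k : ℕ) * (V ^ z) ^ (l : ℕ)) =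
      ∑ k, ∑ l, p k l • fun z : ℕ => (z : A) ^ (k : ℕ) * (V ^ (l : ℕ)) ^ z := by
    funext z
    simp only [Finset.sum_apply, Pi.smul_apply, smul_eq_mul, mul_assoc, ← pow_mul, mul_comm z]
  refine congrFun (vanish (W + K) _ ?_ h0)
  rw [e, fwdDiff_iter_finsetSum]
  refine sum_eq_zero fun k _ => ?_
  rw [fwdDiff_iter_finsetSum]
  refine sum_eq_zero fun l _ => ?_
  have hc : (V ^ (l : ℕ) - 1) ^ W = 0 := by
    obtain ⟨t, ht⟩ := sub_dvd_pow_sub_pow V 1 l
    rw [one_pow] at ht
    rw [ht, mul_pow, hV, zero_mul]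
  have := mono (term hc k) (K - k)
  rw [show K - k + (W + k) = W + K by have := k.2; omega] at this
  rw [fwdDiff_iter_const_smul, this, smul_zero]

end Pool.Agent.Lib.CR
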