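import Pool.Agent.Lib.CR.Util

/-! Project cr, row GAP. -/

open Finset Real

namespace Pool.Agent.Lib.CR

theorem st_GAP (hC : St_CELL) : St_GAP := by
  intro η Λ W S F hη hη1 hS hW hF
  rcases F.eq_empty_or_nonempty with rfl | ⟨t₀, ht₀⟩
  · simp only [card_empty, Nat.cast_zero]
    positivity
  have hΛ : (0 : ℝ) < Λ := by
    obtain ⟨h1, h2, -⟩ := hF t₀ ht₀
    have h3 : 1 < t₀.1 + t₀.2 := by have := h1.1; have := h1.2.1; omega
    exact (Real.log_pos (by exact_mod_cast h3)).trans_le h2.2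
  obtain ⟨T, hT, hm⟩ := hC (η / 3) Λ W S (by positivity) (by linarith) hΛ hS hW
  choose! G hGT hGd _ hGs using hm
  have la : ∀ t ∈ F, log t.1 ≤ Λ := fun t ht =>
    (log_le_of_le (by omega)).trans (hF t ht).2.1.2
  have lb : ∀ t ∈ F, log t.2 ≤ Λ := fun t ht =>
    (log_le_of_le (by omega)).trans (hF t ht).2.1.2
  have big : ∀ t ∈ F, ∀ s ∈ F, t.1 * s.2 < G t.1 * G t.2 * G (t.1 + t.2) := by
    intro t ht s hs
    obtain ⟨h1, ⟨h4, h5⟩, h6⟩ := hF t ht
    have a0 := h1.pos1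
    have b0 := h1.pos2
    have c0 := h1.pos3
    have s0 := (hF s hs).1.pos2
    have g1 := hGs _ a0 (la t ht)
    have g2 := hGs _ b0 (lb t ht)
    have g3 := hGs _ c0 h5
    have p1 : 0 < G t.1 := Nat.pos_of_dvd_of_pos (hGd _ a0 (la t ht)) a0
    have p2 : 0 < G t.2 := Nat.pos_of_dvd_of_pos (hGd _ b0 (lb t ht)) b0
    have p3 : 0 < G (t.1 + t.2) := Nat.pos_of_dvd_of_pos (hGd _ c0 h5) c0
    rw [h1.sh_Pr, h1.log_Pr] at h6
    have e1 := h1.log3_le
    have e4 := lb s hs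
    have e5 : log ((t.1 * s.2 : ℕ) : ℝ)
        < log ((G t.1 * G t.2 * G (t.1 + t.2) : ℕ) : ℝ) := by
      rw [Nat.cast_mul, Nat.cast_mul, Nat.cast_mul, Real.log_mul (by positivity) (by positivity),
        Real.log_mul (by positivity) (by positivity),
        Real.log_mul (by positivity) (by positivity)]
      linarith
    exact_mod_cast (Real.log_lt_log_iff (by positivity) (by positivity)).1 e5
  have hinj : Set.InjOn (fun t : ℕ × ℕ => (G t.1, G t.2, G (t.1 + t.2))) F := by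
    intro t ht s hs h
    simp only [Prod.mk.injEq] at h
    obtain ⟨q1, q2, q3⟩ := h
    obtain ⟨h1, ⟨-, h5⟩, -⟩ := hF t ht
    obtain ⟨k1, ⟨-, k5⟩, -⟩ := hF s hs
    have b2 := big s hs t ht
    rw [← q1, ← q2, ← q3] at b2
    exact gap_eq h1 k1 (hGd _ h1.pos1 (la t ht)) (hGd _ h1.pos2 (lb t ht)) (hGd _ h1.pos3 h5)
      (q1 ▸ hGd _ k1.pos1 (la s hs)) (q2 ▸ hGd _ k1.pos2 (lb s hs)) (q3 ▸ hGd _ k1.pos3 k5)
      (big t ht s hs) b2
  have hc : F.card ≤ (T ×ˢ T ×ˢ T).card := by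
    refine card_le_card_of_injOn _ (fun t ht => ?_) hinj
    obtain ⟨h1, ⟨-, h5⟩, -⟩ := hF t ht
    simp only [coe_product, Set.mem_prod, mem_coe]
    exact ⟨hGT _ h1.pos1 (la t ht), hGT _ h1.pos2 (lb t ht), hGT _ h1.pos3 h5⟩
  rw [card_product, card_product] at hc
  have hc' : (#F : ℝ) ≤ #T * (#T * #T) := by exact_mod_cast hc
  calc (#F : ℝ) ≤ 2 ^ (3 / (η / 3) * W) * (2 ^ (3 / (η / 3) * W) * 2 ^ (3 / (η / 3) * W)) :=
        hc'.trans (by gcongr)
    _ = _ := by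
      rw [← Real.rpow_add two_pos, ← Real.rpow_add two_pos]
      congr 1
      field_simp
      ring

end Pool.Agent.Lib.CR
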