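import Pool.Agent.Lib.CR.Util

/-! Project cr, row KNAP: a light subset carrying a fixed share of a weight. -/

open Finset Real

noncomputable section

namespace Pool.Agent.Lib.CR

namespace T39

theorem knap_piece (w : ℕ → ℝ) {κ : ℝ} (hκ : 0 ≤ κ) (s : Finset ℕ) :
    (∀ p ∈ s, w p ≤ κ) → κ < ∑ p ∈ s, w p →
      ∃ A ⊆ s, κ < ∑ p ∈ A, w p ∧ ∑ p ∈ A, w p ≤ 2 * κ := by
  induction s using Finset.induction_on with
  | empty => intro _ h; simp at h; linarith
  | insert a s ha ih =>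
    intro hw h
    by_cases hs : κ < ∑ p ∈ s, w p
    · obtain ⟨A, hA, h1⟩ := ih (fun p hp => hw p (mem_insert_of_mem hp)) hs
      exact ⟨A, hA.trans (subset_insert _ _), h1⟩
    · refine ⟨insert a s, Subset.rfl, h, ?_⟩
      rw [sum_insert ha]
      linarith [hw a (mem_insert_self _ _), not_lt.1 hs]

end T39

theorem st_KNAP : St_KNAP := by
  intro s w u κ j hκ hj
  induction j, hj using Nat.le_induction generalizing s with
  | base =>
    intro _ h
    exact ⟨s, Subset.rfl, by push_cast at h; linarith, by simp⟩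
  | succ j hj ih =>
    intro hs h
    have hj0 : (0 : ℝ) ≤ j := Nat.cast_nonneg _
    push_cast at h ⊢
    by_cases h1 : κ < ∑ p ∈ s, w p
    · obtain ⟨A, hA, a1, a2⟩ := T39.knap_piece w hκ s (fun p hp => (hs p hp).2.1) h1
      have e1 : ∑ p ∈ s \ A, w p + ∑ p ∈ A, w p = ∑ p ∈ s, w p := sum_sdiff hA
      have e2 : ∑ p ∈ s \ A, u p + ∑ p ∈ A, u p = ∑ p ∈ s, u p := sum_sdiff hA
      obtain ⟨Γ, hΓ, b1, b2⟩ := ih (s \ A) (fun p hp => hs p (mem_sdiff.1 hp).1) (by linarith)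
      rcases le_total (∑ p ∈ A, u p) (∑ p ∈ Γ, u p) with h2 | h2
      · exact ⟨Γ, hΓ.trans sdiff_subset, b1, by linarith⟩
      · have := mul_le_mul_of_nonneg_left h2 hj0
        exact ⟨A, hA, a2, by linarith⟩
    · have h2 : 0 ≤ ∑ p ∈ s, u p := sum_nonneg fun p hp => (hs p hp).2.2
      have := mul_nonneg hj0 h2
      exact ⟨s, Subset.rfl, by linarith [not_lt.1 h1], by linarith⟩

end Pool.Agent.Lib.CR
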