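import Pool.Agent.Lib.CR.Util

/-! Project cr, row ML: a modulus of controlled size whose large power divides `x`. -/

open Finset Real

noncomputable section

namespace Pool.Agent.Lib.CR

namespace T39

theorem ml_dvd {x : ℕ} (hx : x ≠ 0) {Γ : Finset ℕ} (hΓ : Γ ⊆ x.primeFactors) (E₁ : ℕ) :
    (∏ p ∈ Γ, p ^ (x.factorization p / E₁)) ^ E₁ ∣ x := by
  rw [← prod_pow]
  have h1 : ∏ p ∈ Γ, (p ^ (x.factorization p / E₁)) ^ E₁ ∣ ∏ p ∈ Γ, p ^ x.factorization p :=
    prod_dvd_prod_of_dvd _ _ fun p _ => by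
      rw [← pow_mul]
      exact pow_dvd_pow _ (Nat.div_mul_le_self _ _)
  refine h1.trans ((prod_dvd_prod_of_subset _ _ _ hΓ).trans ?_)
  exact dvd_of_eq (Nat.prod_factorization_pow_eq_self hx)

end T39

theorem st_ML (hK : St_KNAP) : St_ML := by
  intro n E x L hn hE hx hL hrad hlog
  have hn0 : (0 : ℝ) < n := by exact_mod_cast (by omega : 0 < n)
  have hn6 : (6 : ℝ) ≤ n := by exact_mod_cast hn
  have hE1 : (1 : ℝ) ≤ E := by exact_mod_cast hE
  have hms : ms x.primeFactors ≤ L := by rw [← log_rad]; exact hrad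
  have hsum : sh (x.primeFactors \ big (L / n) x) x + sh (big (L / n) x) x = log x := by
    rw [← sh_self hx.ne']
    exact sum_sdiff (big_subset _ _)
  have hLE : 0 < L * E := by positivity
  have h6 : 0 ≤ 6 * L / n := by positivity
  have h6' : 6 * L / n ≤ L := by
    rw [div_le_iff₀ hn0]; nlinarith
  rcases le_total (log x / 2) (sh (big (L / n) x) x) with h | h
  · have hne : (big (L / n) x).Nonempty := by
      rw [nonempty_iff_ne_empty]
      intro h0
      rw [h0] at h
      have : sh ∅ x = 0 := by simp [sh]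
      nlinarith
    have hc : (#(big (L / n) x) : ℝ) ≤ n := by
      exact_mod_cast card_big (by omega) hL hrad
    obtain ⟨P, hP, h1⟩ := exists_le_of_sum_le (f := fun _ => 6 * (L * E))
      (g := fun p => (x.factorization p : ℝ) * log p) hne (by
        rw [sum_const, nsmul_eq_mul]
        change _ ≤ sh (big (L / n) x) x
        nlinarith)
    have hPp := Nat.prime_of_mem_primeFactors (big_subset _ _ hP)
    have h2 : log P ≤ ms (big (L / n) x) :=
      single_le_sum (f := fun p : ℕ => log p) (fun p _ => log_nat_nonneg p) hP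
    have h3 : log P ≤ L := h2.trans ((ms_mono (big_subset _ _)).trans hms)
    have h4 : 0 < log P := log_pos (by exact_mod_cast hPp.one_lt)
    have h5 : (E : ℝ) ≤ x.factorization P := by
      refine le_of_mul_le_mul_right ?_ h4
      nlinarith
    refine ⟨P, (hPp.pow_dvd_iff_le_factorization hx.ne').2 (by exact_mod_cast h5),
      (mem_filter.1 hP).2.le, h3, by linarith⟩
  · obtain ⟨Γ, hΓ, a1, a2⟩ := hK (x.primeFactors \ big (L / n) x) (fun p => log p)
      (fun p => (x.factorization p : ℝ) * log p) (L / n) n (by positivity) (by omega)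
      (fun p hp => ⟨log_nat_nonneg p, not_lt.1 fun hc =>
        (mem_sdiff.1 hp).2 (mem_filter.2 ⟨(mem_sdiff.1 hp).1, hc⟩),
        mul_nonneg (Nat.cast_nonneg _) (log_nat_nonneg p)⟩) (by
        rw [mul_div_cancel₀ _ hn0.ne']
        exact (ms_mono sdiff_subset).trans hms)
    change ms Γ ≤ _ at a1
    change sh _ x ≤ n * sh Γ x at a2
    have hΓ' : Γ ⊆ x.primeFactors := hΓ.trans sdiff_subset
    have hσ : 6 * (L * E) ≤ sh Γ x := by
      refine le_of_mul_le_mul_left ?_ hn0
      nlinarith
    set σ := sh Γ x with hσd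
    have hq : 2 * (E : ℝ) ≤ σ * n / (3 * L) := by
      rw [le_div_iff₀ (by positivity)]
      nlinarith
    set E₁ := ⌊σ * n / (3 * L)⌋₊ with hE₁
    have b1 : (E₁ : ℝ) ≤ σ * n / (3 * L) := Nat.floor_le (by linarith)
    have b2 : σ * n / (3 * L) < E₁ + 1 := Nat.lt_floor_add_one _
    have b3 : E ≤ E₁ := Nat.le_floor (by linarith)
    have b4 : (1 : ℝ) ≤ E₁ := by exact_mod_cast hE.trans b3
    have b5 : 0 < E₁ := by omega
    rw [le_div_iff₀ (by positivity)] at b1
    rw [div_lt_iff₀ (by positivity)] at b2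
    set m := ∏ p ∈ Γ, p ^ (x.factorization p / E₁) with hm
    have hlm : log m = ∑ p ∈ Γ, ((x.factorization p / E₁ : ℕ) : ℝ) * log p :=
      log_prod_pow (fun p hp => (Nat.prime_of_mem_primeFactors (hΓ' hp)).pos) _
    have c1 : E₁ * log m ≤ σ := by
      rw [hlm, mul_sum]
      refine sum_le_sum fun p _ => ?_
      rw [← mul_assoc]
      refine mul_le_mul_of_nonneg_right ?_ (log_nat_nonneg p)
      exact_mod_cast Nat.mul_div_le _ _
    have c2 : σ ≤ E₁ * log m + E₁ * ms Γ := by
      rw [hlm, ms, mul_sum, mul_sum, ← sum_add_distrib]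
      refine sum_le_sum fun p _ => ?_
      rw [← mul_assoc, ← add_mul]
      refine mul_le_mul_of_nonneg_right ?_ (log_nat_nonneg p)
      have := Nat.lt_mul_div_succ (x.factorization p) b5
      rw [mul_add, mul_one] at this
      exact_mod_cast this.le
    have c0 := log_nat_nonneg m
    have c3 : log m ≤ 6 * L / n := by
      rw [le_div_iff₀ hn0]
      refine le_of_mul_le_mul_left ?_ (by linarith : (0 : ℝ) < E₁)
      have := mul_le_mul_of_nonneg_right c1 hn0.le
      nlinarith
    have c4 : L / n ≤ log m := by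
      refine le_of_mul_le_mul_left ?_ (by linarith : (0 : ℝ) < E₁)
      have d1 := mul_le_mul_of_nonneg_left a1 (by linarith : (0 : ℝ) ≤ E₁)
      have d2 : E₁ * (3 * (L / n)) ≤ σ := by
        rw [← mul_div_assoc, ← mul_div_assoc, div_le_iff₀ hn0]
        exact b1
      linarith
    exact ⟨m, (pow_dvd_pow m b3).trans (T39.ml_dvd hx.ne' hΓ' E₁), c4, c3.trans h6',
      by linarith [ms_nonneg (big (L / n) x)]⟩

end Pool.Agent.Lib.CR
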