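import Pool.Agent.Lib.CR.Util

/-! Project cr, row NS: the count of pairs `(t, g)`. -/

open Finset Real

noncomputable section

namespace Pool.Agent.Lib.CR

namespace T82

theorem ns_rad_le {t : ℕ × ℕ} {g : ℕ} {Y : ℝ} (hg : g ∣ rad (Pr t))
    (h : ((g * rad (Pr t) : ℕ) : ℝ) ≤ Y) : (rad (Pr t) : ℝ) ≤ Y := by
  have g0 : 0 < g := Nat.pos_of_dvd_of_pos hg (rad_pos _)
  exact (Nat.cast_le.2 (Nat.le_mul_of_pos_left _ g0)).trans h

theorem ns_large (h1 : St_C1) (h2 : St_R2) (h3 : St_R2b) (h4 : St_R3) (hD : St_DIV) :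
    ∃ C X₀ : ℝ, 0 ≤ C ∧ 1 ≤ X₀ ∧ ∀ Y ≥ X₀, ∀ F : Finset ((ℕ × ℕ) × ℕ),
      (∀ v ∈ F, Tr v.1 ∧ v.2 ∣ rad (Pr v.1) ∧ ((v.2 * rad (Pr v.1) : ℕ) : ℝ) ≤ Y) →
      (#F : ℝ) ≤ C * Y ^ (2 / 3 : ℝ) := by
  classical
  obtain ⟨C₁, h1⟩ := h1
  obtain ⟨A, δ₃, X₃, hA, d3, h4⟩ := h4
  obtain ⟨δ₂, X₂, d2, h2⟩ := h2 A hA
  obtain ⟨X₄, h3⟩ := h3 A hA
  set ε : ℝ := min (min δ₂ δ₃) (1 / 30) with hε
  have e0 : 0 < ε := lt_min (lt_min d2 d3) (by norm_num)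
  have e2 : ε ≤ δ₂ := (min_le_left _ _).trans (min_le_left _ _)
  have e3 : ε ≤ δ₃ := (min_le_left _ _).trans (min_le_right _ _)
  have e4 : ε ≤ 1 / 30 := min_le_right _ _
  obtain ⟨C₂, c2, hD⟩ := hD ε e0
  refine ⟨|C₁| + 3 * C₂, max (max X₂ X₃) (max X₄ 1), by positivity,
    (le_max_right _ _).trans (le_max_right _ _), fun Y hY F hF => ?_⟩
  have y2 : X₂ ≤ Y := ((le_max_left _ _).trans (le_max_left _ _)).trans hY
  have y3 : X₃ ≤ Y := ((le_max_right _ _).trans (le_max_left _ _)).trans hY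
  have y4 : X₄ ≤ Y := ((le_max_left _ _).trans (le_max_right _ _)).trans hY
  have y1 : 1 ≤ Y := ((le_max_right _ _).trans (le_max_right _ _)).trans hY
  have y0 : 0 < Y := by linarith
  set F₁ := F.filter fun v => dd v.2 (Pr v.1) ≤ 4 * v.1.1 * v.1.2 with hF₁
  set F₂ := F.filter fun v => ¬ dd v.2 (Pr v.1) ≤ 4 * v.1.1 * v.1.2 with hF₂
  have s0 : (#F : ℝ) = #F₁ + #F₂ := by
    exact_mod_cast (card_filter_add_card_filter_not _).symm
  have s1 : (#F₁ : ℝ) ≤ |C₁| * Y ^ (2 / 3 : ℝ) := by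
    refine (h1 Y F₁ y0.le fun v hv => ?_).trans
      (mul_le_mul_of_nonneg_right (le_abs_self _) (by positivity))
    obtain ⟨a1, a2⟩ := mem_filter.1 hv
    obtain ⟨b1, b2, b3⟩ := hF v a1
    exact ⟨b1, b2, b3, a2⟩
  set G := F₂.image Prod.fst with hG
  have hG' : ∀ t ∈ G, Tr t ∧ (rad (Pr t) : ℝ) ≤ Y ∧ ∃ g : ℕ, g ∣ rad (Pr t) ∧
      ((g * rad (Pr t) : ℕ) : ℝ) ≤ Y ∧ 4 * t.1 * t.2 < dd g (Pr t) := by
    intro t ht
    obtain ⟨v, hv, rfl⟩ := mem_image.1 ht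
    obtain ⟨a1, a2⟩ := mem_filter.1 hv
    obtain ⟨b1, b2, b3⟩ := hF v a1
    exact ⟨b1, ns_rad_le b2 b3, v.2, b2, b3, not_le.1 a2⟩
  have s2 : (#F₂ : ℝ) ≤ #G * (C₂ * Y ^ ε) := by
    refine card_le_classes' F₂ G (fun v t => v.1 = t) _
      (fun v hv => ⟨v.1, mem_image_of_mem _ hv, rfl⟩) fun t ht F' hF' hP => ?_
    have k1 : #F' ≤ #(rad (Pr t)).divisors := by
      refine card_le_card_of_injOn Prod.snd (fun v hv => ?_) fun v hv w hw h => ?_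
      · have := (hF v (mem_filter.1 (hF' hv)).1).2.1
        rw [hP v hv] at this
        exact mem_coe.2 (Nat.mem_divisors.2 ⟨this, (rad_pos _).ne'⟩)
      · exact Prod.ext ((hP v hv).trans (hP w hw).symm) h
    refine (Nat.cast_le.2 k1).trans ((hD _ (rad_pos _)).1.trans ?_)
    have := (hG' t ht).2.1
    gcongr
  have s3 : (#G : ℝ) ≤ 3 * Y ^ (2 / 3 - ε) := by
    have k := card_le_classes' G (univ : Finset (Fin 3))
      (fun t i => ![A * log Y ≤ log (t.1 + t.2 : ℕ),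
        log (t.1 + t.2 : ℕ) ≤ A * log Y ∧ Y ^ (1 / 10 : ℝ) ≤ pw (Pr t),
        log (t.1 + t.2 : ℕ) ≤ A * log Y ∧ (pw (Pr t) : ℝ) ≤ Y ^ (1 / 10 : ℝ)] i)
      (Y ^ (2 / 3 - ε)) ?_ ?_
    · simpa using k
    · intro t _
      rcases le_total (A * log Y) (log (t.1 + t.2 : ℕ)) with h | h
      · exact ⟨0, mem_univ _, h⟩
      · rcases le_total (Y ^ (1 / 10 : ℝ)) (pw (Pr t)) with h' | h'
        · exact ⟨1, mem_univ _, h, h'⟩
        · exact ⟨2, mem_univ _, h, h'⟩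
    · intro i _ F' hF' hP
      fin_cases i
      · refine (h4 Y y3 F' fun t ht => ?_).trans (rpow_le_rpow_of_exponent_le y1 (by linarith))
        obtain ⟨b1, b2, -⟩ := hG' t (hF' ht)
        exact ⟨b1, b2, hP t ht⟩
      · refine (h2 Y y2 F' fun t ht => ?_).trans (rpow_le_rpow_of_exponent_le y1 (by linarith))
        obtain ⟨b1, b2, -⟩ := hG' t (hF' ht)
        exact ⟨b1, b2, (hP t ht).1, (hP t ht).2⟩
      · refine (h3 Y y4 F' fun t ht => ?_).trans (rpow_le_rpow_of_exponent_le y1 (by linarith))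
        obtain ⟨b1, -, b3⟩ := hG' t (hF' ht)
        exact ⟨b1, (hP t ht).1, (hP t ht).2, b3⟩
  have s4 : (#F₂ : ℝ) ≤ 3 * C₂ * Y ^ (2 / 3 : ℝ) := by
    refine s2.trans ((mul_le_mul_of_nonneg_right s3 (by positivity)).trans (le_of_eq ?_))
    have : Y ^ (2 / 3 : ℝ) = Y ^ (2 / 3 - ε) * Y ^ ε := by
      rw [← rpow_add y0]; congr 1; ring
    rw [this]; ring
  rw [s0, add_mul]
  linarith

end T82

open T82

theorem st_NS (_hA : St_ABC) (h1 : St_C1) (h2 : St_R2) (h3 : St_R2b) (h4 : St_R3)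
    (hD : St_DIV) : St_NS := by
  obtain ⟨C, X₀, c0, x1, h⟩ := ns_large h1 h2 h3 h4 hD
  have x2 : 1 ≤ X₀ ^ (2 / 3 : ℝ) := one_le_rpow x1 (by norm_num)
  refine ⟨C * X₀ ^ (2 / 3 : ℝ), fun Y F hY hF => ?_⟩
  rcases le_total X₀ Y with hX | hX
  · refine (h Y hX F hF).trans (mul_le_mul_of_nonneg_right ?_ (by positivity))
    exact le_mul_of_one_le_right c0 x2
  · rcases F.eq_empty_or_nonempty with rfl | ⟨v, hv⟩
    · simp only [card_empty, Nat.cast_zero]; positivity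
    obtain ⟨-, b2, b3⟩ := hF v hv
    have y1 : 1 ≤ Y := le_trans (by exact_mod_cast rad_pos _) (ns_rad_le b2 b3)
    refine (h X₀ le_rfl F fun w hw => ?_).trans
      (le_mul_of_one_le_right (by positivity) (one_le_rpow y1 (by norm_num)))
    obtain ⟨a1, a2, a3⟩ := hF w hw
    exact ⟨a1, a2, a3.trans hX⟩

end Pool.Agent.Lib.CR
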