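import Pool.Agent.Lib.CR.Util

/-! Project cr, row PAR: parametrization of minimal models with full 2-torsion. -/

open Finset Real

noncomputable section

namespace Pool.Agent.Lib.CR

namespace T59

open WeierstrassCurve WeierstrassCurve.Affine

theorem int_root {r : ℚ} (b c : ℤ) (h : r ^ 3 + b * r + c = 0) : ∃ k : ℤ, r = k := by
  have h1 : r.num ^ 3 = r.den * -(b * r.num * r.den + c * r.den ^ 2) := by
    have e : (r.num : ℚ) = r * r.den := (Rat.mul_den_eq_num r).symm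
    have : (r.num : ℚ) ^ 3 = r.den * -(b * r.num * r.den + c * r.den ^ 2) := by
      rw [e]; linear_combination (r.den : ℚ) ^ 3 * h
    exact_mod_cast this
  have h2 : IsUnit (r.den : ℤ) :=
    ((Rat.isCoprime_num_den r).pow_left (m := 3)).isUnit_of_dvd' ⟨_, h1⟩ dvd_rfl
  exact ⟨r.num, ((Rat.den_eq_one_iff r).1 (by simpa [Int.isUnit_iff_natAbs_eq] using h2)).symm⟩

theorem two_root {c : ℤ × ℤ} {P : (curve c).Point} (h0 : P ≠ 0) (h : P + P = 0) :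
    ∃ (k : ℤ) (hk : (curve c).Nonsingular k 0), P = .some k 0 hk ∧ k ^ 3 + c.1 * k + c.2 = 0 := by
  rcases P with _ | ⟨x, y, hp⟩
  · exact absurd rfl h0
  · rw [add_eq_zero_iff_eq_neg, Point.neg_some, Point.some.injEq] at h
    have h1 := h.2
    simp only [negY, zero_mul, sub_zero] at h1
    obtain rfl : y = 0 := by linarith
    have h2 := (equation_iff _ _).1 hp.1
    simp only [zero_mul, add_zero] at h2
    have h3 : x ^ 3 + c.1 * x + c.2 = 0 := by linarith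
    obtain ⟨k, rfl⟩ := int_root c.1 c.2 h3
    exact ⟨k, hp, rfl, by exact_mod_cast h3⟩

theorem roots {c : ℤ × ℤ} (h : Fam c) :
    ∃ r s : ℤ, c.1 = -(r ^ 2 + r * s + s ^ 2) ∧ c.2 = r * s * (r + s) := by
  obtain ⟨-, -, f, hf⟩ := h
  have h0 : ∀ v : ZMod 2 × ZMod 2, v ≠ 0 → f v ≠ 0 := fun v hv e => hv (hf (by rw [e, map_zero]))
  have h2 : ∀ v : ZMod 2 × ZMod 2, f v + f v = 0 := fun v => by
    rw [← map_add, (by revert v; decide : v + v = 0), map_zero]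
  obtain ⟨r, hr, e1, p1⟩ := two_root (h0 (1, 0) (by decide)) (h2 _)
  obtain ⟨s, hs, e2, p2⟩ := two_root (h0 (0, 1) (by decide)) (h2 _)
  have hne : r - s ≠ 0 := by
    intro e
    obtain rfl : r = s := sub_eq_zero.1 e
    exact absurd (hf (e1.trans e2.symm)) (by decide)
  have h3 : c.1 = -(r ^ 2 + r * s + s ^ 2) :=
    mul_left_cancel₀ hne (by linear_combination p1 - p2)
  exact ⟨r, s, h3, by linear_combination p1 - r * h3⟩

theorem sorted {x y : ℤ} (hx : x ≠ 0) (hy : y ≠ 0) (hz : x + y ≠ 0) :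
    ∃ u v : ℤ, 0 < u ∧ u ≤ v ∧ u ^ 2 + u * v + v ^ 2 = x ^ 2 + x * y + y ^ 2 ∧
      ((2 * u + v) * (u - v) * (u + 2 * v)) ^ 2 = ((2 * x + y) * (x - y) * (x + 2 * y)) ^ 2 := by
  have h : (0 < x ∧ x ≤ y) ∨ (0 < y ∧ y ≤ x) ∨ (0 < -x ∧ -x ≤ -y) ∨ (0 < -y ∧ -y ≤ -x) ∨
      (0 < x ∧ x ≤ -(x + y)) ∨ (0 < -(x + y) ∧ -(x + y) ≤ x) ∨ (0 < -x ∧ -x ≤ x + y) ∨
      (0 < x + y ∧ x + y ≤ -x) ∨ (0 < y ∧ y ≤ -(x + y)) ∨ (0 < -(x + y) ∧ -(x + y) ≤ y) ∨
      (0 < -y ∧ -y ≤ x + y) ∨ (0 < x + y ∧ x + y ≤ -y) := by omega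
  rcases h with h | h | h | h | h | h | h | h | h | h | h | h <;>
    exact ⟨_, _, h.1, h.2, by ring, by ring⟩

theorem shape {c : ℤ × ℤ} (h : Fam c) : ∃ (t : ℕ × ℕ) (d : ℕ), Tr t ∧ 0 < d ∧
    3 * c.1 = -(d : ℤ) ^ 2 * ((t.1 : ℤ) ^ 2 + t.1 * t.2 + (t.2 : ℤ) ^ 2) ∧
    (27 * c.2) ^ 2 = ((d : ℤ) ^ 3 *
      ((2 * t.1 + t.2) * ((t.1 : ℤ) - t.2) * (t.1 + 2 * t.2))) ^ 2 := by
  obtain ⟨r, s, hA, hB⟩ := roots h
  have hD : (r - s) * (r + 2 * s) * (r - s + (r + 2 * s)) ≠ 0 := by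
    intro e
    refine h.1 ?_
    rw [hA, hB]
    linear_combination -((r - s) * (r + 2 * s) * (r - s + (r + 2 * s))) * e
  obtain ⟨u, v, hu, huv, e1, e2⟩ := sorted (left_ne_zero_of_mul (left_ne_zero_of_mul hD))
    (right_ne_zero_of_mul (left_ne_zero_of_mul hD)) (right_ne_zero_of_mul hD)
  lift u to ℕ using hu.le
  lift v to ℕ using hu.le.trans huv
  have hu' : 0 < u := by exact_mod_cast hu
  have huv' : u ≤ v := by exact_mod_cast huv
  obtain ⟨d, a, b, hd, hab, rfl, rfl⟩ := Nat.exists_coprime' (Nat.gcd_pos_of_pos_left v hu')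
  refine ⟨(a, b), d, ⟨Nat.pos_of_mul_pos_right hu', Nat.le_of_mul_le_mul_right huv' hd, hab⟩, hd,
    ?_, ?_⟩
  · push_cast at e1
    rw [hA]
    linear_combination e1
  · push_cast at e2
    rw [hB]
    linear_combination -e2

theorem not_dvd {A B Q G : ℤ} {d p i : ℕ} (hmin : ¬ ((p : ℤ) ^ 4 ∣ A ∧ (p : ℤ) ^ 6 ∣ B))
    (hA : 3 * A = -(d : ℤ) ^ 2 * Q) (hB : (27 * B) ^ 2 = ((d : ℤ) ^ 3 * G) ^ 2)
    (h1 : (p : ℤ) ^ (2 * i) ∣ 3 * A → (p : ℤ) ^ 4 ∣ A)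
    (h2 : (p : ℤ) ^ (3 * i) ∣ 27 * B → (p : ℤ) ^ 6 ∣ B) : ¬ p ^ i ∣ d := by
  rintro ⟨k, rfl⟩
  refine hmin ⟨h1 ⟨-(k ^ 2 * Q), by rw [hA]; push_cast; ring⟩, h2 ?_⟩
  refine (Int.pow_dvd_pow_iff two_ne_zero).1 ⟨(k ^ 3 * G) ^ 2, ?_⟩
  rw [hB]; push_cast; ring

theorem split {d : ℕ} (h4 : ¬ 2 ^ 2 ∣ d) (h27 : ¬ 3 ^ 3 ∣ d) :
    ∃ d6 d5 : ℕ, d6 ∣ 18 ∧ d = d6 * d5 ∧ ¬ 2 ∣ d5 ∧ ¬ 3 ∣ d5 := by
  by_cases a : 2 ∣ d <;> by_cases b : 9 ∣ d
  · exact ⟨18, d / 18, by norm_num, by omega, by omega, by omega⟩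
  · by_cases e : 3 ∣ d
    · exact ⟨6, d / 6, by norm_num, by omega, by omega, by omega⟩
    · exact ⟨2, d / 2, by norm_num, by omega, by omega, by omega⟩
  · exact ⟨9, d / 9, by norm_num, by omega, by omega, by omega⟩
  · by_cases e : 3 ∣ d
    · exact ⟨3, d / 3, by norm_num, by omega, by omega, by omega⟩
    · exact ⟨1, d, by norm_num, by omega, by omega, by omega⟩

theorem five_le {p : ℕ} (hp : p.Prime) (h2 : p ≠ 2) (h3 : p ≠ 3) : 5 ≤ p := by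
  have := hp.two_le
  have h4 : p ≠ 4 := by rintro rfl; exact absurd hp (by norm_num)
  omega

theorem cop3 {p : ℕ} (hp : p.Prime) (h3 : p ≠ 3) : IsCoprime (p : ℤ) 3 := by
  have := (Nat.coprime_primes hp Nat.prime_three).2 h3
  exact_mod_cast Nat.isCoprime_iff_coprime.2 this

theorem not_dvd_Q {t : ℕ × ℕ} (h : Tr t) {p : ℕ} (hp : p.Prime) (h1 : p ∣ Pr t) :
    ¬ p ∣ t.1 ^ 2 + t.1 * t.2 + t.2 ^ 2 := by
  intro h2
  have h3 : ∀ {x y : ℕ}, x.Coprime y → p ∣ x → p ∣ y → False := fun hc hx hy =>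
    hp.one_lt.ne' (Nat.eq_one_of_dvd_coprimes hc hx hy)
  have ha : ¬ p ∣ t.1 := fun ha => h3 h.cop12 ha (hp.dvd_of_dvd_pow (n := 2)
    ((Nat.dvd_add_right ((ha.pow two_ne_zero).add (ha.mul_right _))).1 h2))
  have hb : ¬ p ∣ t.2 := fun hb => ha (hp.dvd_of_dvd_pow (n := 2)
    ((Nat.dvd_add_left ((hb.mul_left t.1).add (hb.pow two_ne_zero))).1 (by rwa [← add_assoc])))
  rcases (hp.dvd_mul.1 h1) with h4 | h4
  · exact (hp.dvd_mul.1 h4).elim ha hb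
  · have e : t.1 ^ 2 + t.1 * t.2 + t.2 ^ 2 = t.1 * (t.1 + t.2) + t.2 ^ 2 := by ring
    rw [e] at h2
    exact hb (hp.dvd_of_dvd_pow ((Nat.dvd_add_right (h4.mul_left _)).1 h2))

end T59

theorem st_PAR : St_PAR := by
  intro c hc
  obtain ⟨t, d, ht, hd, hA, hB⟩ := T59.shape hc
  have hP := ht.Pr_pos
  have hD : (4 * c.1 ^ 3 + 27 * c.2 ^ 2).natAbs = (d ^ 3 * Pr t) ^ 2 := by
    have e : 4 * c.1 ^ 3 + 27 * c.2 ^ 2 = -(((d ^ 3 * Pr t) ^ 2 : ℕ) : ℤ) := by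
      refine mul_left_cancel₀ (by norm_num : (27 : ℤ) ≠ 0) ?_
      have e1 : 27 * (4 * c.1 ^ 3 + 27 * c.2 ^ 2) = 4 * (3 * c.1) ^ 3 + (27 * c.2) ^ 2 := by ring
      rw [e1, hA, hB, Pr]; push_cast; ring
    rw [e, Int.natAbs_neg, Int.natAbs_natCast]
  have hsq : ∀ p : ℕ, p.Prime → p ≠ 3 → ¬ p ^ 2 ∣ d := fun p hp h3 =>
    T59.not_dvd (hc.2.1 p hp) hA hB
      (fun h => ((T59.cop3 hp h3).pow_left (m := 4)).dvd_of_dvd_mul_left h)
      (fun h => ((T59.cop3 hp h3).pow (m := 6) (n := 3)).dvd_of_dvd_mul_left (by simpa using h))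
  have h27 : ¬ 3 ^ 3 ∣ d := T59.not_dvd (hc.2.1 3 Nat.prime_three) hA hB
    (fun h => by norm_num at h ⊢; omega) (fun h => by norm_num at h ⊢; omega)
  obtain ⟨d6, d5, h18, rfl, n2, n3⟩ := T59.split (hsq 2 Nat.prime_two (by norm_num)) h27
  have h5 : 0 < d5 := Nat.pos_of_mul_pos_left hd
  have p5 : ∀ p : ℕ, p.Prime → p ∣ d5 → 5 ≤ p := fun p hp h =>
    T59.five_le hp (by rintro rfl; exact n2 h) (by rintro rfl; exact n3 h)
  have sq5 : Squarefree d5 := Nat.squarefree_iff_prime_squarefree.2 fun p hp h => by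
    have := p5 p hp ((Dvd.intro _ rfl).trans h)
    exact hsq p hp (by omega) (by rw [sq]; exact h.mul_left _)
  set T := ((d6 * d5) ^ 3 * Pr t).primeFactors.filter (fun p : ℕ => 5 ≤ p) with hT
  have hN : (d6 * d5) ^ 3 * Pr t ≠ 0 := by positivity
  have hcond : cond c = (∏ p ∈ T, p) * ∏ p ∈ T.filter (fun p : ℕ => (p : ℤ) ∣ c.1), p := by
    rw [cond, hD, Nat.primeFactors_pow _ two_ne_zero, ← hT, prod_filter (s := T), ← prod_mul_distrib]
    exact prod_congr rfl fun p _ => by split_ifs <;> ring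
  have hiff : ∀ p ∈ T, (p : ℤ) ∣ c.1 ↔ p ∣ d6 * d5 := by
    intro p hp
    obtain ⟨h1, h2⟩ := mem_filter.1 hp
    have hpp := Nat.prime_of_mem_primeFactors h1
    constructor
    · intro h
      by_contra hn
      have h3 : p ∣ Pr t := (hpp.dvd_mul.1 (Nat.dvd_of_mem_primeFactors h1)).resolve_left
        fun h4 => hn (hpp.dvd_of_dvd_pow h4)
      have h4 : (p : ℤ) ∣ (((d6 * d5) ^ 2 * (t.1 ^ 2 + t.1 * t.2 + t.2 ^ 2) : ℕ) : ℤ) := by
        have h6 := (h.mul_left 3).neg_right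
        have h7 : -(3 * c.1) = (((d6 * d5) ^ 2 * (t.1 ^ 2 + t.1 * t.2 + t.2 ^ 2) : ℕ) : ℤ) := by
          rw [hA]; push_cast; ring
        rwa [h7] at h6
      rcases hpp.dvd_mul.1 (Int.natCast_dvd_natCast.1 h4) with h6 | h6
      · exact hn (hpp.dvd_of_dvd_pow h6)
      · exact T59.not_dvd_Q ht hpp h3 h6
    · intro h
      refine (T59.cop3 hpp (by omega)).dvd_of_dvd_mul_left ?_
      rw [hA]
      exact (((Int.natCast_dvd_natCast.2 h).pow two_ne_zero).neg_right).mul_right _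
  refine ⟨?_, t, d6, d5.gcd (rad (Pr t)), d5 / d5.gcd (rad (Pr t)), ht, h18, ?_,
    Nat.gcd_dvd_right _ _, ?_, ?_, ?_⟩
  · rw [hD]
    refine Nat.pow_le_pow_left (Nat.le_of_dvd (Nat.pos_of_ne_zero hN) ?_) 2
    have a1 : ∏ p ∈ T, p ∣ d6 * d5 * Pr t := by
      refine (prod_dvd_prod_of_subset _ _ _ fun p hp => ?_).trans (rad_dvd _)
      have h1 := (mem_filter.1 hp).1
      have hpp := Nat.prime_of_mem_primeFactors h1
      refine Nat.mem_primeFactors.2 ⟨hpp, ?_, by positivity⟩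
      rcases hpp.dvd_mul.1 (Nat.dvd_of_mem_primeFactors h1) with h | h
      · exact (hpp.dvd_of_dvd_pow h).mul_right _
      · exact h.mul_left _
    have a2 : ∏ p ∈ T.filter (fun p : ℕ => (p : ℤ) ∣ c.1), p ∣ d6 * d5 := by
      refine (prod_dvd_prod_of_subset _ _ _ fun p hp => ?_).trans (rad_dvd _)
      obtain ⟨h1, h2⟩ := mem_filter.1 hp
      exact Nat.mem_primeFactors.2 ⟨Nat.prime_of_mem_primeFactors (mem_filter.1 h1).1,
        (hiff p h1).1 h2, hd.ne'⟩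
    rw [hcond]
    exact (mul_dvd_mul a1 a2).trans ⟨d6 * d5, by ring⟩
  · exact Nat.div_pos (Nat.gcd_le_left _ h5) (Nat.gcd_pos_of_pos_left _ h5)
  · set g := d5.gcd (rad (Pr t)) with hg
    set h := d5 / g with hh
    have e : g * h = d5 := Nat.mul_div_cancel' (Nat.gcd_dvd_left _ _)
    have hd5 : h ∣ d5 := Dvd.intro_left _ e
    have six : ∀ n : ℕ, n ∣ (d6 * d5) ^ 3 * Pr t → rad n ∣ 6 * ∏ p ∈ T, p := by
      intro n hn
      have b1 : n.primeFactors ⊆ {2, 3} ∪ T := fun p hp => by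
        have hpp := Nat.prime_of_mem_primeFactors hp
        by_cases h2 : p = 2
        · simp [h2]
        by_cases h3 : p = 3
        · simp [h3]
        exact mem_union_right _ (mem_filter.2 ⟨Nat.primeFactors_mono hn hN hp,
          T59.five_le hpp h2 h3⟩)
      have b2 : Disjoint ({2, 3} : Finset ℕ) T := disjoint_left.2 fun p hp hp' => by
        have := (mem_filter.1 hp').2
        simp only [mem_insert, mem_singleton] at hp
        omega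
      have b3 := prod_dvd_prod_of_subset _ _ (fun p : ℕ => p) b1
      rwa [prod_union b2, prod_pair (by norm_num)] at b3
    have c1 : h ∣ 6 * ∏ p ∈ T, p := by
      have := six h ((hd5.mul_left d6).trans ((dvd_pow_self _ three_ne_zero).mul_right _))
      rwa [rad, Nat.prod_primeFactors_of_squarefree (sq5.squarefree_of_dvd hd5)] at this
    have c2 := six (Pr t) (Dvd.intro_left _ rfl)
    have c3 : h.Coprime (rad (Pr t)) := Nat.coprime_of_dvd fun p hp h1 h2 => by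
      have h3 : p ∣ g := Nat.dvd_gcd (h1.trans hd5) h2
      exact hp.not_isUnit (sq5 p (e ▸ mul_dvd_mul h3 h1))
    have c4 : d5 ∣ ∏ p ∈ T.filter (fun p : ℕ => (p : ℤ) ∣ c.1), p := by
      conv_lhs => rw [← Nat.prod_primeFactors_of_squarefree sq5]
      refine prod_dvd_prod_of_subset _ _ _ fun p hp => ?_
      have hpp := Nat.prime_of_mem_primeFactors hp
      have h1 := (Nat.dvd_of_mem_primeFactors hp).mul_left d6
      have h2 : p ∈ T := mem_filter.2 ⟨Nat.mem_primeFactors.2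
        ⟨hpp, (h1.pow three_ne_zero).mul_right _, hN⟩, p5 p hpp (Nat.dvd_of_mem_primeFactors hp)⟩
      exact mem_filter.2 ⟨h2, (hiff p h2).2 h1⟩
    have c5 := mul_dvd_mul (c3.mul_dvd_of_dvd_of_dvd c1 c2) c4
    have c6 : 0 < cond c := prod_pos fun p hp =>
      pow_pos (Nat.prime_of_mem_primeFactors (mem_filter.1 hp).1).pos _
    refine Nat.le_of_dvd (by omega) ?_
    have c7 : g * h ^ 2 * rad (Pr t) = h * rad (Pr t) * (g * h) := by ring
    rwa [hcond, ← mul_assoc, c7, e]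
  · rw [mul_assoc d6, Nat.mul_div_cancel' (Nat.gcd_dvd_left _ _)]
    exact hA
  · rw [mul_assoc d6, Nat.mul_div_cancel' (Nat.gcd_dvd_left _ _)]
    exact hB

end Pool.Agent.Lib.CR
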