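import Pool.Agent.Lib.CR.Util

/-! Project cr, row R2: triples with a large powerful part. -/

open Finset Real

noncomputable section

namespace Pool.Agent.Lib.CR

namespace T43

/-- The mass of the primes of exponent exactly `e`. -/
def me (e n : ℕ) : ℝ := ms (n.primeFactors.filter fun p => n.factorization p = e)

theorem log_pw (n : ℕ) :
    log (pw n) = ms (n.primeFactors.filter fun p => 2 ≤ n.factorization p) :=
  log_prod_ms fun _ hp => (Nat.prime_of_mem_primeFactors (mem_filter.1 hp).1).pos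

theorem pw_pos (n : ℕ) : 0 < pw n :=
  prod_pos fun _ hp => (Nat.prime_of_mem_primeFactors (mem_filter.1 hp).1).pos

theorem pw_mul {a b : ℕ} (h : a.Coprime b) : pw (a * b) = pw a * pw b := by
  rw [pw, h.primeFactors_mul, filter_union,
    prod_union (disjoint_filter_filter h.disjoint_primeFactors)]
  congr 1
  · refine prod_congr (filter_congr fun p hp => ?_) fun _ _ => rfl
    rw [Nat.factorization_eq_of_coprime_left h (List.mem_toFinset.1 hp)]
  · refine prod_congr (filter_congr fun p hp => ?_) fun _ _ => rfl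
    rw [Nat.factorization_eq_of_coprime_right h (List.mem_toFinset.1 hp)]

theorem log_pw_Pr {t : ℕ × ℕ} (h : Tr t) : log (pw (Pr t)) = ∑ i, log (pw (xx i t)) := by
  have c (n : ℕ) : ((pw n : ℕ) : ℝ) ≠ 0 := by exact_mod_cast (pw_pos n).ne'
  rw [Pr, pw_mul (Nat.Coprime.mul_left h.cop13 h.cop23), pw_mul h.cop12, Nat.cast_mul,
    Nat.cast_mul, log_mul (mul_ne_zero (c _) (c _)) (c _), log_mul (c _) (c _),
    Fin.sum_univ_three]
  rfl

theorem pw_split (V : ℕ) {n : ℕ} (hn : n ≠ 0) :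
    log (pw n) ≤ ∑ e ∈ Icc 2 V, me e n + log n / (V + 1) := by
  rw [log_pw, ← sh_self hn]
  simp only [me, ms, sh, sum_filter]
  rw [sum_comm, sum_div, ← sum_add_distrib]
  refine sum_le_sum fun p _ => ?_
  have hp := log_nat_nonneg p
  have hV : (0 : ℝ) < V + 1 := by positivity
  have h0 : 0 ≤ (n.factorization p : ℝ) * log p / (V + 1) := by positivity
  rw [sum_ite_eq]
  split_ifs with h1 h2 h2
  · linarith
  · have h3 : V + 1 ≤ n.factorization p := by
      rw [mem_Icc] at h2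
      omega
    have h4 : (V : ℝ) + 1 ≤ n.factorization p := by exact_mod_cast h3
    rw [zero_add, le_div_iff₀ hV]
    nlinarith
  · linarith
  · linarith

theorem dec (e : ℕ) {n : ℕ} (hn : n ≠ 0) : ∃ β u : ℕ, 0 < β ∧ 0 < u ∧ β * u ^ e = n ∧
    log (rad β) + me e n ≤ log (rad n) := by
  have hp (p : ℕ) (h : p ∈ n.primeFactors) := Nat.prime_of_mem_primeFactors h
  refine ⟨∏ p ∈ n.primeFactors.filter (fun p => ¬ n.factorization p = e), p ^ n.factorization p,
    ∏ p ∈ n.primeFactors.filter (fun p => n.factorization p = e), p,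
    prod_pos fun p h => pow_pos (hp p (mem_filter.1 h).1).pos _,
    prod_pos fun p h => (hp p (mem_filter.1 h).1).pos, ?_, ?_⟩
  · conv_rhs => rw [← Nat.prod_factorization_pow_eq_self hn]
    rw [Finsupp.prod, Nat.support_factorization,
      ← prod_filter_mul_prod_filter_not n.primeFactors fun p => n.factorization p = e, mul_comm,
      ← prod_pow]
    congr 1
    exact prod_congr rfl fun p h => by rw [(mem_filter.1 h).2]
  · rw [log_rad, log_rad, me]
    have h1 : (∏ p ∈ n.primeFactors.filter (fun p => ¬ n.factorization p = e),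
        p ^ n.factorization p).primeFactors ⊆
        n.primeFactors.filter (fun p => ¬ n.factorization p = e) := fun q hq => by
      have q1 := Nat.prime_of_mem_primeFactors hq
      obtain ⟨p, p1, p2⟩ := (q1.prime.dvd_finsetProd_iff _).1 (Nat.dvd_of_mem_primeFactors hq)
      rwa [(Nat.prime_dvd_prime_iff_eq q1 (hp p (mem_filter.1 p1).1)).1 (q1.dvd_of_dvd_pow p2)]
    have h2 := ms_mono h1
    have h3 := sum_filter_add_sum_filter_not n.primeFactors (fun p => n.factorization p = e)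
      fun p => log (p : ℝ)
    simp only [ms] at h2 ⊢
    linarith

theorem inj_yz (i : Fin 3) {t t' : ℕ × ℕ} (h1 : yy i t = yy i t') (h2 : zz i t = zz i t') :
    t = t' := by
  fin_cases i <;> simp [yy, zz] at h1 h2 <;> ext <;> omega

theorem inj_xy (i : Fin 3) {t t' : ℕ × ℕ} (h1 : xx i t = xx i t') (h2 : yy i t = yy i t') :
    t = t' := by
  fin_cases i <;> simp [yy, xx] at h1 h2 <;> ext <;> omega

/-- The sign of the role. -/
def sg (i : Fin 3) : ℤ := ![1, 1, -1] i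

theorem sg_ne (i : Fin 3) : sg i ≠ 0 := by fin_cases i <;> simp [sg]

theorem role_eq (i : Fin 3) (t : ℕ × ℕ) : (xx i t : ℤ) + sg i * yy i t = zz i t := by
  fin_cases i <;> simp [xx, yy, zz, sg, add_comm]

theorem rad_role {t : ℕ × ℕ} (h : Tr t) (i : Fin 3) :
    rad (Pr t) = rad (xx i t) * (rad (yy i t) * rad (zz i t)) := by
  rw [Pr_eq i, rad_mul (h.cop_yzx i).symm, rad_mul (h.cop_yz i)]

theorem yy_xx (i : Fin 3) : ∃ j, ∀ t, yy i t = xx j t := by
  fin_cases i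
  exacts [⟨1, fun _ => rfl⟩, ⟨0, fun _ => rfl⟩, ⟨0, fun _ => rfl⟩]

theorem zz_xx (i : Fin 3) : ∃ j, ∀ t, zz i t = xx j t := by
  fin_cases i
  exacts [⟨2, fun _ => rfl⟩, ⟨2, fun _ => rfl⟩, ⟨1, fun _ => rfl⟩]

/-- One large radical: the other two numbers are counted. -/
theorem classA {X B s b : ℝ} (hX : 0 < X) (i : Fin 3) (F : Finset (ℕ × ℕ))
    (hR : ∀ F : Finset (ℕ × ℕ), (∀ n ∈ F, 0 < n.1 ∧ 0 < n.2 ∧ log n.1 ≤ B ∧ log n.2 ≤ B ∧
      (rad n.1 : ℝ) * rad n.2 ≤ X ^ (1 - s)) → (#F : ℝ) ≤ b)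
    (hF : ∀ t ∈ F, Tr t ∧ (rad (Pr t) : ℝ) ≤ X ∧ log (t.1 + t.2 : ℕ) ≤ B ∧
      X ^ s ≤ rad (xx i t)) : (#F : ℝ) ≤ b := by
  rw [← card_image_of_injOn (f := fun t => (yy i t, zz i t)) fun t _ t' _ h =>
    inj_yz i (Prod.ext_iff.1 h).1 (Prod.ext_iff.1 h).2]
  refine hR _ fun n hn => ?_
  obtain ⟨t, ht, rfl⟩ := mem_image.1 hn
  obtain ⟨h1, h2, h3, h4⟩ := hF t ht
  refine ⟨h1.yy_pos i, h1.zz_pos i, (log_le_of_le (yy_le i t)).trans h3,
    (log_le_of_le (zz_le i t)).trans h3, ?_⟩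
  rw [rad_role h1 i] at h2
  push_cast at h2
  have h5 : 0 < X ^ s := rpow_pos_of_pos hX s
  rw [rpow_sub hX, rpow_one, le_div_iff₀ h5]
  have h6 : (0 : ℝ) ≤ (rad (yy i t) : ℝ) * rad (zz i t) := by positivity
  nlinarith

/-- All radicals small and one number has a large `e`-th power part. -/
theorem classB (hS : St_CS) {X B s r w τ : ℝ} {e H : ℕ} (hX : 0 < X) (hw : 0 ≤ w) (hτ : 0 ≤ τ)
    (he : 2 ≤ e) (i : Fin 3) (F : Finset (ℕ × ℕ))
    (hd : ∀ d : ℕ, 0 < d → d ≤ 2 * H → (#d.divisors : ℝ) ≤ τ)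
    (hR : ∀ Y : ℝ, 0 ≤ Y → ∀ F : Finset ℕ, (∀ n ∈ F, 0 < n ∧ log n ≤ B ∧ (rad n : ℝ) ≤ Y) →
      (#F : ℝ) ≤ Y * w)
    (hF : ∀ t ∈ F, Tr t ∧ t.1 + t.2 ≤ H ∧ log (t.1 + t.2 : ℕ) ≤ B ∧
      (∀ j, (rad (xx j t) : ℝ) ≤ X ^ s) ∧ r * log X ≤ me e (xx i t)) :
    (#F : ℝ) ≤ X ^ (s - r) * w * (X ^ s * w) +
      √(X ^ (s - r) * w * (X ^ s * w)) * (X ^ s * w * τ) := by
  classical
  have hdec : ∀ t : ℕ × ℕ, ∃ β u : ℕ, t ∈ F → 0 < β ∧ 0 < u ∧ β * u ^ e = xx i t ∧
      log (rad β) + me e (xx i t) ≤ log (rad (xx i t)) := fun t => by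
    by_cases ht : t ∈ F
    · obtain ⟨β, u, h⟩ := dec e ((hF t ht).1.xx_pos i).ne'
      exact ⟨β, u, fun _ => h⟩
    · exact ⟨0, 0, fun h => absurd h ht⟩
  choose β u hβ using hdec
  have hs : 0 ≤ X ^ s := (rpow_pos_of_pos hX s).le
  have hsr : 0 ≤ X ^ (s - r) := (rpow_pos_of_pos hX _).le
  have hx (j : Fin 3) : (#(F.image (xx j)) : ℝ) ≤ X ^ s * w := hR _ hs _ fun n hn => by
    obtain ⟨t, ht, rfl⟩ := mem_image.1 hn
    obtain ⟨h1, -, h3, h4, -⟩ := hF t ht
    exact ⟨h1.xx_pos j, (log_le_of_le (xx_le j t)).trans h3, h4 j⟩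
  have hB : (#(F.image β) : ℝ) ≤ X ^ (s - r) * w := hR _ hsr _ fun n hn => by
    obtain ⟨t, ht, rfl⟩ := mem_image.1 hn
    obtain ⟨h1, -, h3, h4, h5⟩ := hF t ht
    obtain ⟨b1, b2, b3, b4⟩ := hβ t ht
    have b5 : β t ≤ xx i t := Nat.le_of_dvd (h1.xx_pos i) ⟨_, b3.symm⟩
    have r0 (n : ℕ) : (0 : ℝ) < rad n := by exact_mod_cast rad_pos n
    refine ⟨b1, (log_le_of_le (b5.trans (xx_le i t))).trans h3, ?_⟩
    have b6 := (le_rpow_iff_log_le (r0 _) hX).1 (h4 i)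
    rw [le_rpow_iff_log_le (r0 _) hX]
    linarith
  obtain ⟨j, hj⟩ := yy_xx i
  obtain ⟨k, hk⟩ := zz_xx i
  have hY : (#((F.image (xx j)).image fun n : ℕ => sg i * n) : ℝ) ≤ X ^ s * w :=
    le_trans (by exact_mod_cast card_image_le) (hx j)
  have hZ : (#((F.image (xx k)).image fun n : ℕ => (n : ℤ)) : ℝ) ≤ X ^ s * w :=
    le_trans (by exact_mod_cast card_image_le) (hx k)
  have key := hS e H τ (F.image β) ((F.image (xx j)).image fun n : ℕ => sg i * n)
    ((F.image (xx k)).image fun n : ℕ => (n : ℤ))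
    (F.image fun t => (β t, u t, sg i * yy i t)) he hτ hd (fun z hz => by
      obtain ⟨n, hn, rfl⟩ := mem_image.1 hz
      obtain ⟨t, ht, rfl⟩ := mem_image.1 hn
      rw [Nat.abs_cast]
      exact_mod_cast (xx_le k t).trans (hF t ht).2.1) (fun v hv => by
      obtain ⟨t, ht, rfl⟩ := mem_image.1 hv
      obtain ⟨b1, b2, b3, -⟩ := hβ t ht
      refine ⟨b1, mem_image_of_mem _ ht, b2, ?_, ?_⟩
      · exact mem_image.2 ⟨_, mem_image_of_mem _ ht, by rw [hj]⟩
      · refine mem_image.2 ⟨_, mem_image_of_mem _ ht, ?_⟩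
        rw [← hk, ← role_eq, ← b3]
        push_cast
        rfl)
  rw [card_image_of_injOn fun t ht t' ht' h => by
    simp only [Prod.mk.injEq] at h
    refine inj_xy i ?_ ?_
    · rw [← (hβ t ht).2.2.1, ← (hβ t' ht').2.2.1, h.1, h.2.1]
    · exact_mod_cast mul_left_cancel₀ (sg_ne i) h.2.2] at key
  refine key.trans ?_
  gcongr

end T43

open T43 in
theorem st_R2 (hC : St_RC) (hD : St_DIV) (hS : St_CS) : St_R2 := by
  classical
  intro A hA
  obtain ⟨V, hV2, hVA⟩ : ∃ V : ℕ, 2 ≤ V ∧ 60 * A ≤ V + 1 :=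
    ⟨⌈60 * A⌉₊ + 2, by omega, by push_cast; linarith [Nat.le_ceil (60 * A)]⟩
  have hV0 : (0 : ℝ) < V := by exact_mod_cast (by omega : 0 < V)
  obtain ⟨r, hr, hrV⟩ : ∃ r : ℝ, 0 < r ∧ r * V = 1 / 60 :=
    ⟨1 / (60 * V), by positivity, by field_simp⟩
  obtain ⟨X₁, h₁⟩ := hC A (r / 100) hA (by positivity)
  obtain ⟨C, hC0, hC1⟩ := hD (r / 200 / (A + 1)) (by positivity)
  obtain ⟨X₂, h₂⟩ := absorb C (ε := r / 200) (by positivity)
  obtain ⟨X₃, h₃⟩ := absorb (3 + 6 * V) (ε := r / 100) (by positivity)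
  refine ⟨r / 10, max X₁ (max X₂ X₃), by positivity, fun X hX F hF => ?_⟩
  obtain ⟨hX1, hX23⟩ := max_le_iff.1 hX
  obtain ⟨hX2, hX3⟩ := max_le_iff.1 hX23
  obtain ⟨x3, l1, -, c1, -⟩ := h₂ X hX2
  obtain ⟨-, -, -, c2, -⟩ := h₃ X hX3
  have x0 : 0 < X := by linarith
  have x1 : 1 ≤ X := by linarith
  have mono {a b : ℝ} (h : a ≤ b) : X ^ a ≤ X ^ b := rpow_le_rpow_of_exponent_le x1 h
  have hd : ∀ d : ℕ, 0 < d → d ≤ 2 * ⌊X ^ A⌋₊ → (#d.divisors : ℝ) ≤ X ^ (r / 100) := by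
    intro d d0 d1
    have d2 : (d : ℝ) ≤ X ^ (A + 1) := by
      have d3 : (d : ℝ) ≤ 2 * ⌊X ^ A⌋₊ := by exact_mod_cast d1
      have d4 := Nat.floor_le (rpow_pos_of_pos x0 A).le
      have d5 := rpow_pos_of_pos x0 A
      rw [rpow_add x0, rpow_one]
      nlinarith
    have d3 : (d : ℝ) ^ (r / 200 / (A + 1)) ≤ X ^ (r / 200) := by
      refine (rpow_le_rpow (Nat.cast_nonneg d) d2 (by positivity)).trans_eq ?_
      rw [← rpow_mul x0.le]
      congr 1
      field_simp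
    refine (hC1 d d0).1.trans ((mul_le_mul c1 d3 (by positivity) (by positivity)).trans_eq ?_)
    rw [← rpow_add x0]
    congr 1
    ring
  have e1 := card_filter_add_card_filter_not (s := F)
    fun t => ∃ i, X ^ (1 / 3 + r / 8) ≤ rad (xx i t)
  have a1 : (#(F.filter fun t => ∃ i, X ^ (1 / 3 + r / 8) ≤ rad (xx i t)) : ℝ) ≤
      #(univ : Finset (Fin 3)) * X ^ (2 / 3 - 11 / 100 * r) := by
    refine card_le_classes' _ univ (fun t i => X ^ (1 / 3 + r / 8) ≤ rad (xx i t)) _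
      (fun t ht => (mem_filter.1 ht).2.imp fun i hi => ⟨mem_univ _, hi⟩) fun i _ F' s1 s2 => ?_
    refine (classA (B := A * log X) (s := 1 / 3 + r / 8) x0 i F'
      (h₁ X hX1 _ (rpow_pos_of_pos x0 _).le).2.1 fun t ht => ?_).trans ?_
    · obtain ⟨b1, b2, b3, -⟩ := hF t (mem_filter.1 (s1 ht)).1
      exact ⟨b1, b2, b3, s2 t ht⟩
    · rw [← rpow_add x0]
      exact mono (by linarith)
  have a2 : (#(F.filter fun t => ¬ ∃ i, X ^ (1 / 3 + r / 8) ≤ rad (xx i t)) : ℝ) ≤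
      #((univ : Finset (Fin 3)) ×ˢ Icc 2 V) * (2 * X ^ (2 / 3 - 11 / 100 * r)) := by
    refine card_le_classes' _ _ (fun t c => r * log X ≤ me c.2 (xx c.1 t)) _
      (fun t ht => ?_) fun c hc F' s1 s2 => ?_
    · obtain ⟨b1, b2, b3, b4⟩ := hF t (mem_filter.1 ht).1
      by_contra hn
      push Not at hn
      have b5 := log_le_log (rpow_pos_of_pos x0 _) b4
      rw [log_rpow x0, log_pw_Pr b1] at b5
      have b6 (i : Fin 3) : log (pw (xx i t)) < log X / 30 := by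
        have b7 := pw_split V (b1.xx_pos i).ne'
        have b8 : ∑ e ∈ Icc 2 V, me e (xx i t) ≤ #(Icc 2 V) • (r * log X) :=
          sum_le_card_nsmul _ _ _ fun e he => (hn (i, e) (mem_product.2 ⟨mem_univ _, he⟩)).le
        have b9 : (#(Icc 2 V) : ℝ) = V - 1 := by
          rw [Nat.card_Icc, show V + 1 - 2 = V - 1 by omega, Nat.cast_sub (by omega), Nat.cast_one]
        rw [nsmul_eq_mul, b9] at b8
        have b10 : log (xx i t) / (V + 1) ≤ log X / 60 := by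
          rw [div_le_iff₀ (by positivity)]
          have := (log_le_of_le (xx_le i t)).trans b3
          nlinarith
        have b11 : (V - 1) * (r * log X) = log X / 60 - r * log X := by
          linear_combination log X * hrV
        nlinarith
      rw [Fin.sum_univ_three] at b5
      linarith [b6 0, b6 1, b6 2]
    · refine (classB hS (B := A * log X) (s := 1 / 3 + r / 8) (r := r) x0
        (rpow_pos_of_pos x0 (r / 100)).le (rpow_pos_of_pos x0 (r / 100)).le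
        (mem_Icc.1 (mem_product.1 hc).2).1 c.1 F' hd (fun Y hY => (h₁ X hX1 Y hY).1)
        fun t ht => ?_).trans ?_
      · obtain ⟨b0, b00⟩ := mem_filter.1 (s1 ht)
        obtain ⟨b1, b2, b3, -⟩ := hF t b0
        refine ⟨b1, Nat.le_floor ?_, b3, fun j => (not_le.1 fun h => b00 ⟨j, h⟩).le, s2 t ht⟩
        exact (le_rpow_iff_log_le (by exact_mod_cast b1.pos3) x0).2 b3
      · rw [sqrt_eq_rpow]
        simp only [← rpow_add x0, ← rpow_mul x0.le]
        rw [two_mul]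
        exact add_le_add (mono (by linarith)) (mono (by linarith))
  have a3 : (#((univ : Finset (Fin 3)) ×ˢ Icc 2 V) : ℝ) ≤ 3 * V := by
    rw [card_product, Nat.card_Icc, card_univ, Fintype.card_fin]
    exact_mod_cast (by omega : 3 * (V + 1 - 2) ≤ 3 * V)
  rw [card_univ, Fintype.card_fin] at a1
  have e2 : (#F : ℝ) = #(F.filter fun t => ∃ i, X ^ (1 / 3 + r / 8) ≤ rad (xx i t)) +
      #(F.filter fun t => ¬ ∃ i, X ^ (1 / 3 + r / 8) ≤ rad (xx i t)) := by exact_mod_cast e1.symm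
  have p0 := rpow_pos_of_pos x0 (2 / 3 - 11 / 100 * r)
  have e3 : X ^ (2 / 3 - r / 10) = X ^ (r / 100) * X ^ (2 / 3 - 11 / 100 * r) := by
    rw [← rpow_add x0]
    congr 1
    ring
  rw [e2, e3]
  push_cast at a1
  nlinarith

end Pool.Agent.Lib.CR
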