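import Pool.Agent.Lib.CR.Util

/-! Project cr, block R2b: triples with a small powerful radical and a large part `dd`. -/

open Finset Real

noncomputable section

namespace Pool.Agent.Lib.CR

namespace T24

theorem dd_pos (g n : ℕ) : 0 < dd g n :=
  prod_pos fun _ hp => pow_pos (Nat.prime_of_mem_primeFactors (mem_filter.1 hp).1).pos _

theorem dd_dvd (g : ℕ) {n : ℕ} (hn : n ≠ 0) : dd g n ∣ n := by
  conv_rhs => rw [← Nat.prod_factorization_pow_eq_self hn]
  exact prod_dvd_prod_of_subset _ _ _ (filter_subset _ _)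

theorem dd_mul (g : ℕ) {a b : ℕ} (h : a.Coprime b) : dd g (a * b) = dd g a * dd g b := by
  have hd := h.disjoint_primeFactors
  rw [dd, h.primeFactors_mul, filter_union,
    prod_union (disjoint_filter_filter hd), dd, dd]
  congr 1
  · refine prod_congr (filter_congr fun p hp => ?_) fun p hp => ?_
    · rw [Nat.factorization_eq_of_coprime_left h (Nat.mem_primeFactors_iff_mem_primeFactorsList.1 hp)]
    · rw [Nat.factorization_eq_of_coprime_left h
        (Nat.mem_primeFactors_iff_mem_primeFactorsList.1 (mem_filter.1 hp).1)]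
  · refine prod_congr (filter_congr fun p hp => ?_) fun p hp => ?_
    · rw [Nat.factorization_eq_of_coprime_right h (Nat.mem_primeFactors_iff_mem_primeFactorsList.1 hp)]
    · rw [Nat.factorization_eq_of_coprime_right h
        (Nat.mem_primeFactors_iff_mem_primeFactorsList.1 (mem_filter.1 hp).1)]

theorem dd_Pr (g : ℕ) {t : ℕ × ℕ} (h : Tr t) :
    dd g (Pr t) = dd g t.1 * dd g t.2 * dd g (t.1 + t.2) := by
  rw [Pr, dd_mul g (Nat.Coprime.mul_left h.cop13 h.cop23), dd_mul g h.cop12]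

theorem rad_dd_dvd (g n : ℕ) : rad (dd g n) ∣ pw n * g := by
  refine prod_primes_dvd _ (fun p hp => (Nat.prime_of_mem_primeFactors hp).prime) fun p hp => ?_
  have hp1 := Nat.prime_of_mem_primeFactors hp
  obtain ⟨q, hq, hpq⟩ := (Prime.dvd_finsetProd_iff hp1.prime _).1 (Nat.dvd_of_mem_primeFactors hp)
  obtain ⟨hq1, hq2⟩ := mem_filter.1 hq
  obtain rfl : p = q := (Nat.prime_dvd_prime_iff_eq hp1 (Nat.prime_of_mem_primeFactors hq1)).1
    (hp1.dvd_of_dvd_pow hpq)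
  rcases hq2 with h2 | h2
  · exact Dvd.dvd.mul_right (dvd_prod_of_mem _ (mem_filter.2 ⟨hq1, h2⟩)) _
  · exact Dvd.dvd.mul_left h2 _

theorem pw_pos (n : ℕ) : 0 < pw n :=
  prod_pos fun _ hp => (Nat.prime_of_mem_primeFactors (mem_filter.1 hp).1).pos

theorem rad_three {g : ℕ} (hg : 0 < g) {t : ℕ × ℕ} (h : Tr t) :
    rad (dd g t.1) * rad (dd g t.2) * rad (dd g (t.1 + t.2)) ≤ pw (Pr t) * g := by
  have d1 := dd_dvd g h.pos1.ne'
  have d2 := dd_dvd g h.pos2.ne'
  have d3 := dd_dvd g h.pos3.ne'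
  have c12 : (dd g t.1).Coprime (dd g t.2) :=
    Nat.Coprime.coprime_dvd_left d1 (h.cop12.coprime_dvd_right d2)
  have c13 : (dd g t.1).Coprime (dd g (t.1 + t.2)) :=
    Nat.Coprime.coprime_dvd_left d1 (h.cop13.coprime_dvd_right d3)
  have c23 : (dd g t.2).Coprime (dd g (t.1 + t.2)) :=
    Nat.Coprime.coprime_dvd_left d2 (h.cop23.coprime_dvd_right d3)
  rw [← rad_mul c12, ← rad_mul (Nat.Coprime.mul_left c13 c23), ← dd_Pr g h]
  exact Nat.le_of_dvd (Nat.mul_pos (pw_pos _) hg) (rad_dd_dvd g _)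

theorem lt_two_mul {b b' : ℕ} (hb : 0 < b) (h : Nat.log 2 b = Nat.log 2 b') : b' < 2 * b := by
  have h1 := Nat.lt_pow_succ_log_self (b := 2) one_lt_two b'
  have h2 := Nat.pow_log_le_self 2 hb.ne'
  rw [← h, pow_succ] at h1
  omega

theorem log2_le {b : ℕ} (hb : 0 < b) : (Nat.log 2 b : ℝ) ≤ 2 * log b := by
  have h2 := log_le_of_le (Nat.pow_log_le_self 2 hb.ne')
  rw [Nat.cast_pow, log_pow, Nat.cast_ofNat] at h2
  have h3 : (0 : ℝ) ≤ Nat.log 2 b := Nat.cast_nonneg _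
  nlinarith [log_two_gt_d9]

end T24

open T24 in
theorem st_R2b (hC : St_RC) : St_R2b := by
  classical
  intro A hA
  obtain ⟨X₁, h1⟩ := hC A (1 / 60) hA (by norm_num)
  obtain ⟨X₂, h2⟩ := absorb (2 * A + 1) (ε := 1 / 60) (by norm_num)
  refine ⟨max X₁ X₂, fun X hX F hF => ?_⟩
  obtain ⟨x3, l1, -, -, hab⟩ := h2 X (le_of_max_le_right hX)
  have hX0 : (0 : ℝ) < X := by linarith
  obtain ⟨-, -, h3⟩ := h1 X (le_of_max_le_left hX) (X ^ (3 / 5 : ℝ)) (by positivity)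
  choose! g hg using fun t ht => (hF t ht).2.2.2
  set D : ℕ × ℕ → ℕ × ℕ × ℕ := fun t => (dd (g t) t.1, dd (g t) t.2, dd (g t) (t.1 + t.2)) with hD
  have hI : (#(F.image D) : ℝ) ≤ X ^ (3 / 5 : ℝ) * X ^ (1 / 60 : ℝ) := by
    refine h3 _ fun n hn => ?_
    obtain ⟨t, ht, rfl⟩ := mem_image.1 hn
    obtain ⟨hT, hl, hp, -⟩ := hF t ht
    obtain ⟨g1, g2, -⟩ := hg t ht
    have g0 : 0 < g t := Nat.pos_of_dvd_of_pos g1 (rad_pos _)
    have g3 : g t ≤ rad (Pr t) := Nat.le_of_dvd (rad_pos _) g1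
    have g4 : (g t : ℝ) ≤ X ^ (1 / 2 : ℝ) := by
      rw [← sqrt_eq_rpow]
      refine le_sqrt_of_sq_le (le_trans ?_ g2)
      rw [sq]
      exact_mod_cast Nat.mul_le_mul_left _ g3
    refine ⟨dd_pos _ _, dd_pos _ _, dd_pos _ _, le_trans (log_le_of_le ?_) hl,
      le_trans (log_le_of_le ?_) hl, le_trans (log_le_of_le ?_) hl, ?_⟩
    · exact (Nat.le_of_dvd hT.pos1 (dd_dvd _ hT.pos1.ne')).trans (Nat.le_add_right _ _)
    · exact (Nat.le_of_dvd hT.pos2 (dd_dvd _ hT.pos2.ne')).trans (Nat.le_add_left _ _)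
    · exact Nat.le_of_dvd hT.pos3 (dd_dvd _ hT.pos3.ne')
    · have r := rad_three g0 hT
      have r' : (rad (dd (g t) t.1) : ℝ) * rad (dd (g t) t.2) * rad (dd (g t) (t.1 + t.2)) ≤
          pw (Pr t) * g t := by exact_mod_cast r
      refine r'.trans ((mul_le_mul hp g4 (Nat.cast_nonneg _) (by positivity)).trans_eq ?_)
      rw [← rpow_add hX0]; norm_num
  set J := ⌊2 * A * log X⌋₊ with hJ
  have hJ' : ((J + 1 : ℕ) : ℝ) ≤ X ^ (1 / 60 : ℝ) := by
    have := Nat.floor_le (a := 2 * A * log X) (by positivity)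
    push_cast
    linarith
  have hc : #F ≤ #(F.image D ×ˢ range (J + 1)) := by
    refine card_le_card_of_injOn (fun t => (D t, Nat.log 2 t.2)) (fun t ht => ?_)
      fun t ht t' ht' e => ?_
    · have ht : t ∈ F := ht
      obtain ⟨hT, hl, -⟩ := hF t ht
      refine mem_coe.2 (mem_product.2 ⟨mem_image_of_mem _ ht, mem_range.2 (Nat.lt_succ_of_le ?_)⟩)
      refine Nat.le_floor ((log2_le hT.pos2).trans ?_)
      have := log_le_of_le (Nat.le_add_left t.2 t.1)
      linarith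
    · have ht : t ∈ F := ht
      have ht' : t' ∈ F := ht'
      obtain ⟨e1, e2⟩ := Prod.mk.inj e
      obtain ⟨e3, e4⟩ := Prod.mk.inj e1
      obtain ⟨e4, e5⟩ := Prod.mk.inj e4
      have hT := (hF t ht).1
      have hT' := (hF t' ht').1
      have k := (hg t ht).2.2
      have k' := (hg t' ht').2.2
      rw [dd_Pr _ hT] at k
      rw [dd_Pr _ hT', ← e3, ← e4, ← e5] at k'
      have b1 := lt_two_mul hT.pos2 e2
      have b2 := lt_two_mul hT'.pos2 e2.symm
      refine gap_eq hT hT' (dd_dvd _ hT.pos1.ne') (dd_dvd _ hT.pos2.ne') (dd_dvd _ hT.pos3.ne')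
        (e3 ▸ dd_dvd _ hT'.pos1.ne') (e4 ▸ dd_dvd _ hT'.pos2.ne') (e5 ▸ dd_dvd _ hT'.pos3.ne')
        (lt_of_le_of_lt ?_ k) (lt_of_le_of_lt ?_ k')
      · nlinarith [Nat.mul_le_mul_left t.1 b1.le]
      · nlinarith [Nat.mul_le_mul_left t'.1 b2.le]
  rw [card_product, card_range] at hc
  have hc' : (#F : ℝ) ≤ #(F.image D) * ((J + 1 : ℕ) : ℝ) := by exact_mod_cast hc
  refine hc'.trans ((mul_le_mul hI hJ' (Nat.cast_nonneg _) (by positivity)).trans_eq ?_)
  rw [← rpow_add hX0, ← rpow_add hX0]; norm_num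

end Pool.Agent.Lib.CR
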