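import Pool.Agent.Lib.CR.Util

/-! Project cr, block R3: the range of large `c`. -/

open Finset Real

noncomputable section

namespace Pool.Agent.Lib.CR

theorem st_R3 (hA : St_ABC) (h1 : St_CA) (h2 : St_CU) (h3 : St_CB) (h4 : St_DU) : St_R3 := by
  classical
  obtain ⟨η, hη, AU, XU, hU⟩ := h2
  obtain ⟨κ, k0, k1, k2⟩ : ∃ κ : ℝ, 0 < κ ∧ κ ≤ 1 / 100 ∧ 36 * κ ≤ η :=
    ⟨min (1 / 100) (η / 36), by positivity, min_le_left _ _, by
      linarith [min_le_right (1 / 100) (η / 36)]⟩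
  obtain ⟨AB, XB, hB⟩ := h3 κ k0 k1
  obtain ⟨XA, hA'⟩ := h1 κ (κ / 2) k0 (by linarith) (by positivity)
  obtain ⟨C, hC⟩ := hA (κ / 128) (by positivity)
  obtain ⟨X₁, a1⟩ := absorb (|C| + 1) (ε := κ / 128) (by positivity)
  obtain ⟨X₂, a2⟩ := absorb 3 (ε := κ / 64) (by positivity)
  obtain ⟨A, A1, A2, A3⟩ : ∃ A : ℝ, AU ≤ A ∧ AB ≤ A ∧ 3 / κ ≤ A :=
    ⟨max AU (max AB (3 / κ)), le_max_left _ _, le_max_of_le_right (le_max_left _ _),
      le_max_of_le_right (le_max_right _ _)⟩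
  have A0 : 0 < A := lt_of_lt_of_le (by positivity) A3
  refine ⟨A, κ / 32, max (max XU XB) (max XA (max X₁ X₂)), A0, by positivity, fun X hX F hF => ?_⟩
  simp only [ge_iff_le, max_le_iff] at hX
  obtain ⟨⟨xU, xB⟩, xA, x1, x2⟩ := hX
  obtain ⟨x3, l1, -, b1, -⟩ := a1 X x1
  obtain ⟨-, -, -, b2, -⟩ := a2 X x2
  have X0 : (0 : ℝ) < X := by linarith
  have X1 : (1 : ℝ) ≤ X := by linarith
  have key := card_le_classes' F
    ((Icc 1 ⌊X ^ (κ / 64)⌋₊).filter fun Λ : ℕ => A * log X ≤ Λ) (fun t Λ => Sc Λ t)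
    (3 * X ^ (2 / 3 - κ / 16)) (fun t ht => ?_) fun Λ hΛ F' hF' hS => ?_
  · have c1 : (#((Icc 1 ⌊X ^ (κ / 64)⌋₊).filter fun Λ : ℕ => A * log X ≤ Λ) : ℝ) ≤
        X ^ (κ / 64) :=
      le_trans (by exact_mod_cast card_filter_le _ _) (card_Icc_floor (by positivity))
    refine key.trans ((mul_le_mul c1 (mul_le_mul_of_nonneg_right b2 (by positivity))
      (by positivity) (by positivity)).trans_eq ?_)
    rw [← rpow_add X0, ← rpow_add X0]
    congr 1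
    ring
  · obtain ⟨hT, hR, hl⟩ := hF t ht
    have c0 : 0 ≤ log (t.1 + t.2 : ℕ) := log_nat_nonneg _
    have c1 := Nat.le_ceil (log (t.1 + t.2 : ℕ))
    have c2 := Nat.ceil_lt_add_one c0
    have c3 := hC t.1 t.2 hT.pos1 hT.pos2 hT.cop12
    have c4 : (rad (t.1 * t.2 * (t.1 + t.2)) : ℝ) ^ (κ / 128) ≤ X ^ (κ / 128) :=
      rpow_le_rpow (Nat.cast_nonneg _) hR (by positivity)
    have c5 : 1 ≤ X ^ (κ / 128) := one_le_rpow X1 (by positivity)
    have c6 : C * (rad (t.1 * t.2 * (t.1 + t.2)) : ℝ) ^ (κ / 128) ≤ |C| * X ^ (κ / 128) :=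
      mul_le_mul (le_abs_self C) c4 (by positivity) (abs_nonneg C)
    have c7 : (|C| + 1) * X ^ (κ / 128) ≤ X ^ (κ / 64) := by
      refine (mul_le_mul_of_nonneg_right b1 (by positivity)).trans_eq ?_
      rw [← rpow_add X0]
      congr 1
      ring
    have c8 : 0 < A * log X := by positivity
    refine ⟨⌈log (t.1 + t.2 : ℕ)⌉₊, mem_filter.2 ⟨mem_Icc.2 ⟨Nat.ceil_pos.2 (by linarith),
      Nat.le_floor (by linarith)⟩, hl.trans c1⟩, by linarith, c1⟩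
  · obtain ⟨hΛ1, hΛ2⟩ := mem_filter.1 hΛ
    have u1 : (Λ : ℝ) ≤ X ^ (κ / 64) := (Nat.le_floor_iff (by positivity)).1 (mem_Icc.1 hΛ1).2
    have u2 : (Λ : ℝ) ≤ X ^ (1 / 100 : ℝ) :=
      u1.trans (rpow_le_rpow_of_exponent_le X1 (by linarith))
    have u3 : (Λ : ℝ) ≤ X ^ (1 / 2 : ℝ) :=
      u1.trans (rpow_le_rpow_of_exponent_le X1 (by linarith))
    have u4 : AU * log X ≤ Λ := (mul_le_mul_of_nonneg_right A1 (by linarith)).trans hΛ2
    have u5 : AB * log X ≤ Λ := (mul_le_mul_of_nonneg_right A2 (by linarith)).trans hΛ2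
    have u6 : 3 ≤ κ * Λ := by
      rw [div_le_iff₀ k0] at A3
      have : A ≤ Λ := (le_mul_of_one_le_right A0.le l1).trans hΛ2
      nlinarith
    set F₁ := F'.filter fun t => (big (κ * log X) (Pr t)).Nonempty with hF₁
    set F₂ := F'.filter fun t => ∃ S ⊆ (Pr t).primeFactors,
      ms S ≤ (2 / 3 - κ) * log X ∧ log (Pr t) - sh S (Pr t) ≤ (1 - κ) * Λ - 3 with hF₂
    set F₃ := F'.filter fun t => big (log X / 100) (Pr t) = ∅ ∧
      ∃ e : ℕ, 1 ≤ e ∧ e * log X ≤ 5 * Λ ∧ dev e (Pr t) ≤ η * Λ with hF₃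
    have v1 : (#F₁ : ℝ) ≤ X ^ (2 / 3 - κ / 16) := hB X xB Λ F₁ u5 u3 fun t ht => by
      obtain ⟨t1, t2⟩ := mem_filter.1 ht
      exact ⟨(hF t (hF' t1)).1, hS t t1, (hF t (hF' t1)).2.1, t2⟩
    have v2 : (#F₂ : ℝ) ≤ X ^ (2 / 3 - κ / 16) := by
      refine (hA' X xA Λ F₂ fun t ht => ?_).trans (rpow_le_rpow_of_exponent_le X1 (by linarith))
      obtain ⟨t1, t2⟩ := mem_filter.1 ht
      exact ⟨(hF t (hF' t1)).1, hS t t1, (hF t (hF' t1)).2.1, t2⟩
    have v3 : (#F₃ : ℝ) ≤ X ^ (2 / 3 - κ / 16) := by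
      refine (hU X xU Λ F₃ u4 u2 fun t ht => ?_).trans
        (rpow_le_rpow_of_exponent_le X1 (by linarith))
      obtain ⟨t1, t2⟩ := mem_filter.1 ht
      exact ⟨(hF t (hF' t1)).1, hS t t1, (hF t (hF' t1)).2.1, t2⟩
    have w : F' ⊆ F₁ ∪ F₂ ∪ F₃ := fun t ht => by
      obtain ⟨hT, hR, -⟩ := hF t (hF' ht)
      rcases (big (κ * log X) (Pr t)).eq_empty_or_nonempty with hb | hb
      · have r : log (rad (Pr t)) ≤ log X := log_le_log (by exact_mod_cast rad_pos _) hR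
        rcases h4 κ (log X) Λ t k0 k1 (by linarith) u6 hT (hS t ht) r hb with h | ⟨e, e1, e2, e3⟩
        · exact mem_union_left _ (mem_union_right _ (mem_filter.2 ⟨ht, h⟩))
        · refine mem_union_right _ (mem_filter.2 ⟨ht, ?_, e, e1, e2,
            e3.trans (mul_le_mul_of_nonneg_right k2 (Nat.cast_nonneg _))⟩)
          refine subset_empty.1 (hb ▸ fun p hp => ?_)
          obtain ⟨p1, p2⟩ := mem_filter.1 hp
          exact mem_filter.2 ⟨p1, by nlinarith⟩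
      · exact mem_union_left _ (mem_union_left _ (mem_filter.2 ⟨ht, hb⟩))
    have w2 : #F' ≤ #F₁ + #F₂ + #F₃ := (card_le_card w).trans
      ((card_union_le _ _).trans (Nat.add_le_add_right (card_union_le _ _) _))
    have w3 : (#F' : ℝ) ≤ #F₁ + #F₂ + #F₃ := by exact_mod_cast w2
    linarith

end Pool.Agent.Lib.CR
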