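import Pool.Agent.Lib.CR.Util

/-! Project cr, row RC. -/

open Finset Real

namespace Pool.Agent.Lib.CR

theorem st_RC (hK : St_RK) : St_RC := by
  intro A ε hA hε
  obtain ⟨C, hK⟩ := hK (ε / (6 * A)) (by positivity)
  obtain ⟨X₀, hX₀⟩ := absorb (C ^ 3) (half_pos hε)
  refine ⟨X₀, fun X hX Y hY => ?_⟩
  obtain ⟨x3, x1, -, xC, -⟩ := hX₀ X hX
  have x0 : 0 < X := by linarith
  set f : ℕ → ℝ := fun n => (n : ℝ) ^ (-(ε / (6 * A))) / rad n with hf
  have f0 : ∀ n, 0 ≤ f n := fun n => by positivity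
  have f1 : ∀ n : ℕ, 0 < n → log n ≤ A * log X → 1 ≤ X ^ (ε / 6) * (f n * rad n) := by
    intro n hn h
    have n0 : (0 : ℝ) < n := by exact_mod_cast hn
    have r0 : (rad n : ℝ) ≠ 0 := by exact_mod_cast (rad_pos n).ne'
    simp only [hf]
    rw [div_mul_cancel₀ _ r0, rpow_def_of_pos x0, rpow_def_of_pos n0, ← exp_add]
    refine one_le_exp ?_
    have e : log X * (ε / 6) + log n * -(ε / (6 * A)) = (A * log X - log n) * (ε / (6 * A)) := by
      field_simp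
      ring
    rw [e]
    exact mul_nonneg (by linarith) (by positivity)
  have h3 : ∀ F : Finset (ℕ × ℕ × ℕ), (∀ n ∈ F, 0 < n.1 ∧ 0 < n.2.1 ∧ 0 < n.2.2 ∧
      log n.1 ≤ A * log X ∧ log n.2.1 ≤ A * log X ∧ log n.2.2 ≤ A * log X ∧
      (rad n.1 : ℝ) * rad n.2.1 * rad n.2.2 ≤ Y) → (#F : ℝ) ≤ Y * X ^ ε := by
    intro F hF
    set U : Finset ℕ := F.biUnion fun v => {v.1, v.2.1, v.2.2} with hU
    have hU0 : 0 ∉ U := fun h => by
      obtain ⟨v, hv', hv⟩ := mem_biUnion.1 h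
      obtain ⟨a1, a2, a3, -⟩ := hF v hv'
      simp only [mem_insert, mem_singleton] at hv
      omega
    have hsub : F ⊆ U ×ˢ U ×ˢ U := fun v hv => by
      simp only [mem_product]
      refine ⟨?_, ?_, ?_⟩ <;> exact mem_biUnion.2 ⟨v, hv, by simp⟩
    have e : ∑ y ∈ U ×ˢ U ×ˢ U, f y.1 * (f y.2.1 * f y.2.2) = (∑ n ∈ U, f n) ^ 3 := by
      rw [sum_product]
      simp only [← mul_sum, ← sum_mul]
      rw [sum_product]
      simp only [← mul_sum, ← sum_mul]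
      ring
    have e2 : X ^ (ε / 2) = (X ^ (ε / 6)) ^ 3 := by
      rw [← rpow_natCast, ← rpow_mul x0.le]
      congr 1
      push_cast
      ring
    have h1 : ∀ v ∈ F, (1 : ℝ) ≤ Y * X ^ (ε / 2) * (f v.1 * (f v.2.1 * f v.2.2)) := by
      intro v hv
      obtain ⟨a1, a2, a3, a4, a5, a6, a7⟩ := hF v hv
      have b := one_le_mul_of_one_le_of_one_le (f1 _ a1 a4)
        (one_le_mul_of_one_le_of_one_le (f1 _ a2 a5) (f1 _ a3 a6))
      have c := mul_nonneg (f0 v.1) (mul_nonneg (f0 v.2.1) (f0 v.2.2))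
      calc (1 : ℝ) ≤ _ := b
        _ = (rad v.1 : ℝ) * rad v.2.1 * rad v.2.2 * X ^ (ε / 2) *
            (f v.1 * (f v.2.1 * f v.2.2)) := by rw [e2]; ring
        _ ≤ _ := by gcongr
    have h2 : ∑ n ∈ U, f n ≤ C := hK U hU0
    have h4 : 0 ≤ ∑ n ∈ U, f n := sum_nonneg fun n _ => f0 n
    calc (#F : ℝ) = ∑ _v ∈ F, (1 : ℝ) := by simp
      _ ≤ ∑ v ∈ F, Y * X ^ (ε / 2) * (f v.1 * (f v.2.1 * f v.2.2)) := sum_le_sum h1
      _ ≤ ∑ v ∈ U ×ˢ U ×ˢ U, Y * X ^ (ε / 2) * (f v.1 * (f v.2.1 * f v.2.2)) :=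
        sum_le_sum_of_subset_of_nonneg hsub fun v _ _ =>
          mul_nonneg (by positivity) (mul_nonneg (f0 _) (mul_nonneg (f0 _) (f0 _)))
      _ = Y * X ^ (ε / 2) * (∑ n ∈ U, f n) ^ 3 := by rw [← mul_sum, e]
      _ ≤ Y * X ^ (ε / 2) * X ^ (ε / 2) :=
        mul_le_mul_of_nonneg_left ((pow_le_pow_left₀ h4 h2 3).trans xC) (by positivity)
      _ = _ := by rw [mul_assoc, ← rpow_add x0, add_halves]
  have l0 : log ((1 : ℕ) : ℝ) ≤ A * log X := by
    rw [Nat.cast_one, log_one]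
    positivity
  have r1 : rad 1 = 1 := by simp [rad]
  refine ⟨fun F hF => ?_, fun F hF => ?_, h3⟩
  · have := h3 (F.image fun n => (n, 1, 1)) fun v hv => by
      obtain ⟨n, hn, rfl⟩ := mem_image.1 hv
      obtain ⟨a1, a2, a3⟩ := hF n hn
      exact ⟨a1, one_pos, one_pos, a2, l0, l0, by simpa [r1] using a3⟩
    rwa [card_image_of_injective _ fun a b h => (Prod.mk.inj h).1] at this
  · have := h3 (F.image fun n => (n.1, n.2, 1)) fun v hv => by
      obtain ⟨n, hn, rfl⟩ := mem_image.1 hv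
      obtain ⟨a1, a2, a3, a4, a5⟩ := hF n hn
      exact ⟨a1, a2, one_pos, a3, a4, l0, by simpa [r1] using a5⟩
    rwa [card_image_of_injective _ fun a b h =>
      Prod.ext (Prod.mk.inj h).1 (Prod.mk.inj (Prod.mk.inj h).2).1] at this

end Pool.Agent.Lib.CR
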