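import Pool.Agent.Lib.CR.Util

/-! Project cr, block REPB: representation with free big primes. -/

open Finset Real

noncomputable section

namespace Pool.Agent.Lib.CR

namespace REPB45

theorem toNat_le {k : ℤ} {c : ℝ} (h : |(k : ℝ)| ≤ c) : (k.toNat : ℝ) ≤ c := by
  have h1 : (k.toNat : ℤ) ≤ |k| := by
    rw [Int.toNat_eq_max]
    exact max_le (le_abs_self _) (abs_nonneg _)
  have h2 : (k.toNat : ℝ) ≤ |(k : ℝ)| := by exact_mod_cast h1
  exact h2.trans h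

theorem log_pp_le {B : Finset ℕ} (hB : ∀ p ∈ B, p.Prime) (k : ℕ → ℤ) {c : ℝ}
    (h : ∀ p ∈ B, |(k p : ℝ)| ≤ c) :
    log ((∏ p ∈ B, p ^ (k p).toNat : ℕ) : ℝ) ≤ c * ms B := by
  rw [log_prod_pow fun p hp => (hB p hp).pos, ms, mul_sum]
  exact sum_le_sum fun p hp => mul_le_mul_of_nonneg_right (toNat_le (h p hp)) (log_nat_nonneg p)

theorem split {B : Finset ℕ} (hB : ∀ p ∈ B, p.Prime) {y g : ℕ} (hy : 0 < y) (hg : g ∣ y)
    (hd : Disjoint g.primeFactors B) :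
    ∃ j : ℕ, 0 < j ∧ y = g * (∏ p ∈ B, p ^ y.factorization p) * j ∧
      log j = log y - log g - sh B y := by
  have hg0 : 0 < g := Nat.pos_of_dvd_of_pos hg hy
  have h1 : (∏ p ∈ B, p ^ y.factorization p) ∣ y :=
    Finset.prod_dvd_of_isRelPrime
      (fun p hp q hq hpq => Nat.coprime_iff_isRelPrime.1
        (Nat.coprime_pow_primes _ _ (hB p hp) (hB q hq) hpq))
      fun p _ => Nat.ordProj_dvd y p
  have h2 : g.Coprime (∏ p ∈ B, p ^ y.factorization p) :=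
    Nat.Coprime.prod_right fun p hp => Nat.Coprime.pow_right _
      ((Nat.Prime.coprime_iff_not_dvd (hB p hp)).2 fun h =>
        disjoint_left.1 hd (Nat.mem_primeFactors.2 ⟨hB p hp, h, hg0.ne'⟩) hp).symm
  obtain ⟨j, hj⟩ := h2.mul_dvd_of_dvd_of_dvd hg h1
  have hj0 : 0 < j := Nat.pos_of_ne_zero fun h => by rw [h, mul_zero] at hj; omega
  have h3 : 0 < ∏ p ∈ B, p ^ y.factorization p := prod_pos fun p hp => pow_pos (hB p hp).pos _
  refine ⟨j, hj0, hj, ?_⟩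
  have h4 := congrArg (fun u : ℕ => log (u : ℝ)) hj
  simp only [Nat.cast_mul g, Nat.cast_mul (g * _)] at h4
  rw [log_mul (by positivity) (by positivity), log_mul (by positivity) (by positivity),
    log_prod_pow fun p hp => (hB p hp).pos] at h4
  rw [h4, sh]
  ring

theorem fact_le {y p : ℕ} {τ Λ : ℝ} (hy : 0 < y) (h : log y ≤ Λ) (hp : τ < log p) :
    (y.factorization p : ℝ) * τ ≤ Λ := by
  have h1 := sh_le_log {p} hy.ne'
  rw [sh, sum_singleton] at h1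
  exact (mul_le_mul_of_nonneg_left hp.le (Nat.cast_nonneg _)).trans (h1.trans h)

/-- The arithmetic of one exponent. -/
theorem expo {e₀ q Q : ℕ} {ε k : ℤ} (he : 0 < e₀) (hq : 1 ≤ q) (hQ : 1 ≤ Q)
    (h1 : |(ε : ℝ)| ≤ e₀) (h2 : |(q : ℝ) * (ε / e₀) - k| ≤ 1 / Q) :
    |(k : ℝ)| ≤ 2 * q ∧ |((ε - k * (e₀ / q : ℕ) : ℤ) : ℝ)| ≤ e₀ / (q * Q) + 2 * q := by
  have he' : (0 : ℝ) < e₀ := by exact_mod_cast he
  have hq' : (1 : ℝ) ≤ q := by exact_mod_cast hq
  have hQ' : (1 : ℝ) ≤ Q := by exact_mod_cast hQ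
  have hq0 : (0 : ℝ) < q := by linarith
  have h3 : |(q : ℝ) * (ε / e₀)| ≤ q := by
    rw [abs_mul, abs_div, abs_of_pos hq0, abs_of_pos he']
    exact mul_le_of_le_one_right hq0.le ((div_le_one he').2 h1)
  have h4 : (1 : ℝ) / Q ≤ 1 := (div_le_one (by linarith)).2 hQ'
  have h5 : |(k : ℝ)| ≤ 2 * q := by
    have := abs_sub_abs_le_abs_sub (k : ℝ) (q * (ε / e₀))
    rw [abs_sub_comm] at this
    linarith
  refine ⟨h5, ?_⟩
  have h6 : (e₀ : ℝ) = q * (e₀ / q : ℕ) + (e₀ % q : ℕ) := by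
    exact_mod_cast (Nat.div_add_mod e₀ q).symm
  have h7 : ((e₀ % q : ℕ) : ℝ) ≤ q := by exact_mod_cast (Nat.mod_lt e₀ hq).le
  have h8 : ((ε - k * (e₀ / q : ℕ) : ℤ) : ℝ) =
      e₀ / q * (q * (ε / e₀) - k) + k * ((e₀ % q : ℕ) / q) := by
    rw [Int.cast_sub, Int.cast_mul, Int.cast_natCast]
    generalize ((e₀ / q : ℕ) : ℝ) = u at h6
    generalize ((e₀ % q : ℕ) : ℝ) = v at h6
    have h9 : v = e₀ - q * u := by linarith
    rw [h9]
    field_simp
    ring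
  rw [h8]
  refine (abs_add_le _ _).trans (add_le_add ?_ ?_)
  · rw [abs_mul, abs_of_pos (div_pos he' hq0), ← div_div, div_eq_mul_one_div (_ / _)]
    exact mul_le_mul_of_nonneg_left h2 (div_pos he' hq0).le
  · rw [abs_mul, abs_of_nonneg (div_nonneg (Nat.cast_nonneg _) hq0.le)]
    exact (mul_le_of_le_one_right (abs_nonneg _) ((div_le_one hq0).2 h7)).trans h5

end REPB45

open REPB45 in
theorem st_REPB (hD : St_DIR) : St_REPB := by
  intro n Q y z m g₁ g₂ e₀ L Λ J B hn hQ hL hΛ hy hz _ hm ly lz lr lm le hB d1 d2 hd hJ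
  have hn' : (0 : ℝ) < n := by exact_mod_cast hn
  have hτ : 0 < L / n := div_pos hL hn'
  have h0 := (Nat.mul_pos hy hz).ne'
  have hB1 : B ⊆ (y * z).primeFactors := hB.trans (big_subset _ _)
  have hp (p) (h : p ∈ B) : p.Prime := Nat.prime_of_mem_primeFactors (hB1 h)
  have hm0 : 0 < m := Nat.pos_of_ne_zero fun h => by
    rw [h, Nat.cast_zero, log_zero] at lm
    linarith
  have he : 0 < e₀ := by
    have : (0 : ℝ) < e₀ := (div_pos (mul_pos hn' hΛ) hL).trans_le le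
    exact_mod_cast this
  have g1 : 0 < g₁ := Nat.pos_of_dvd_of_pos d1 hy
  have g2 : 0 < g₂ := Nat.pos_of_dvd_of_pos d2 hz
  rw [Nat.primeFactors_mul g1.ne' g2.ne', disjoint_union_left] at hd
  obtain ⟨j₁, j1, ey, l1⟩ := split hp hy d1 hd.1
  obtain ⟨j₂, j2, ez, l2⟩ := split hp hz d2 hd.2
  rw [sh_mul B hy.ne' hz.ne'] at hJ
  have lj1 : log j₁ ≤ J := by linarith [log_nat_nonneg j₂]
  have lj2 : log j₂ ≤ J := by linarith [log_nat_nonneg j₁]
  have hms : ms B ≤ L := (ms_mono hB1).trans ((log_rad _).symm.le.trans lr)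
  obtain ⟨ε, hε⟩ : ∃ ε : ℕ → ℤ, ∀ p, ε p = (y.factorization p : ℤ) - z.factorization p :=
    ⟨_, fun _ => rfl⟩
  have hε1 (p) (h : p ∈ B) : |(ε p : ℝ)| ≤ e₀ := by
    have a (u : ℕ) (hu : 0 < u) (lu : log u ≤ Λ) : (u.factorization p : ℝ) ≤ e₀ := by
      have b := fact_le hu lu (mem_filter.1 (hB h)).2
      rw [← le_div_iff₀ hτ, div_div_eq_mul_div, mul_comm Λ] at b
      exact b.trans le
    have a1 := a y hy ly
    have a2 := a z hz lz
    have a3 : (0 : ℝ) ≤ y.factorization p := Nat.cast_nonneg _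
    have a4 : (0 : ℝ) ≤ z.factorization p := Nat.cast_nonneg _
    rw [hε, Int.cast_sub, Int.cast_natCast, Int.cast_natCast, abs_le]
    constructor <;> linarith
  obtain ⟨q, q1, q2, k, hk⟩ := hD B (fun p => ε p / e₀) Q n hQ
    ((card_le_card hB).trans (card_big hn hL lr))
  refine ⟨q, q1, q2, fun a ha => ?_⟩
  have hx (p) (h : p ∈ B) := expo he q1 hQ (hε1 p h) (hk p h)
  obtain ⟨d, hdd⟩ : ∃ d : ℕ → ℤ, ∀ p, d p = ε p - k p * (e₀ / q : ℕ) := ⟨_, fun _ => rfl⟩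
  have pp (u : ℕ → ℤ) : 0 < ∏ p ∈ B, p ^ (u p).toNat :=
    prod_pos fun p h => pow_pos (hp p h).pos _
  have cw (u : ℕ → ℤ) : (∏ p ∈ B, p ^ (u p).toNat).Coprime m :=
    Nat.Coprime.prod_left fun p h => Nat.Coprime.pow_left _
      (hm.coprime_dvd_left (Nat.dvd_of_mem_primeFactors (hB1 h)))
  have bw (u : ℕ → ℤ) (hu : ∀ p ∈ B, |(u p : ℝ)| ≤ 2 * q) :
      ∏ p ∈ B, p ^ (u p).toNat ≤ m ^ (2 * q * n) := by
    refine le_pow_of_log hm0 ((log_pp_le hp u hu).trans ?_)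
    rw [div_le_iff₀ hn'] at lm
    push_cast
    rw [mul_assoc (2 * (q : ℝ))]
    exact mul_le_mul_of_nonneg_left (by linarith) (by positivity)
  have br (u : ℕ → ℤ) (hu : ∀ p ∈ B, |(u p : ℝ)| ≤ e₀ / (q * Q) + 2 * q) (j : ℕ) (hj : 0 < j)
      (lj : log j ≤ J) : j * ∏ p ∈ B, p ^ (u p).toNat ≤ m ^ a := by
    refine le_pow_of_log hm0 ?_
    have b1 := pp u
    have b2 := (log_pp_le hp u hu).trans (mul_le_mul_of_nonneg_left hms (by positivity))
    have b3 := mul_le_mul_of_nonneg_left lm (Nat.cast_nonneg (α := ℝ) a)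
    rw [Nat.cast_mul, log_mul (by positivity) (by positivity)]
    linarith
  refine ⟨_, _, _, _, pp k, pp fun p => -k p, Nat.mul_pos j1 (pp d),
    Nat.mul_pos j2 (pp fun p => -d p), bw k fun p h => (hx p h).1,
    bw _ fun p h => by rw [Int.cast_neg, abs_neg]; exact (hx p h).1,
    br d (fun p h => by rw [hdd]; exact (hx p h).2) j₁ j1 lj1,
    br _ (fun p h => by rw [Int.cast_neg, abs_neg, hdd]; exact (hx p h).2) j₂ j2 lj2,
    cw _, cw _, ?_⟩
  have key : (∏ p ∈ B, p ^ y.factorization p) * (∏ p ∈ B, p ^ (-k p).toNat) ^ (e₀ / q) *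
      ∏ p ∈ B, p ^ (-d p).toNat = (∏ p ∈ B, p ^ z.factorization p) *
      (∏ p ∈ B, p ^ (k p).toNat) ^ (e₀ / q) * ∏ p ∈ B, p ^ (d p).toNat := by
    simp only [← prod_pow, ← prod_mul_distrib, ← pow_mul, ← pow_add]
    refine prod_congr rfl fun p _ => congrArg _ ?_
    have a1 := Int.toNat_sub_toNat_neg (k p)
    have a2 := Int.toNat_sub_toNat_neg (d p)
    have a3 := hdd p
    rw [hε] at a3
    zify
    rw [Int.natCast_div] at a3
    linear_combination -a3 - a2 - ((e₀ : ℤ) / q) * a1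
  generalize (∏ p ∈ B, p ^ y.factorization p) = Y at ey key
  generalize (∏ p ∈ B, p ^ z.factorization p) = Z at ez key
  rw [ey, ez]
  zify at key ⊢
  linear_combination (g₁ * g₂ * j₁ * j₂ : ℤ) * key

end Pool.Agent.Lib.CR
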