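import Pool.Agent.Lib.CR.Util

/-! Project cr: the representation for nearly uniform exponents. -/

open Finset Real

noncomputable section

namespace Pool.Agent.Lib.CR

namespace REPU32

/-- The missing part. -/
def up (e n : ℕ) : ℕ := ∏ p ∈ n.primeFactors, p ^ (e - n.factorization p)

/-- The excess part. -/
def dn (e n : ℕ) : ℕ := ∏ p ∈ n.primeFactors, p ^ (n.factorization p - e)

theorem up_pos (e n : ℕ) : 0 < up e n :=
  prod_pos fun _ hp => pow_pos (Nat.prime_of_mem_primeFactors hp).pos _

theorem dn_pos (e n : ℕ) : 0 < dn e n :=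
  prod_pos fun _ hp => pow_pos (Nat.prime_of_mem_primeFactors hp).pos _

theorem mul_up (e : ℕ) {n : ℕ} (hn : n ≠ 0) : n * up e n = rad n ^ e * dn e n := by
  nth_rw 1 [← Nat.prod_factorization_pow_eq_self hn]
  rw [Finsupp.prod, Nat.support_factorization, up, dn, rad, ← prod_pow, ← prod_mul_distrib,
    ← prod_mul_distrib]
  exact prod_congr rfl fun p _ => by rw [← pow_add, ← pow_add]; congr 1; omega

theorem log_up_dn (e n : ℕ) : log (up e n) + log (dn e n) = dev e n := by
  have hp : ∀ p ∈ n.primeFactors, 0 < p := fun _ hp => (Nat.prime_of_mem_primeFactors hp).pos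
  rw [up, dn, log_prod_pow hp, log_prod_pow hp, ← sum_add_distrib]
  refine sum_congr rfl fun p _ => ?_
  rw [← add_mul]
  congr 1
  rcases le_total e (n.factorization p) with h | h
  · rw [Nat.sub_eq_zero_of_le h, Nat.cast_sub h, Nat.cast_zero, zero_add,
      abs_of_nonneg (sub_nonneg.2 (by exact_mod_cast h))]
  · rw [Nat.sub_eq_zero_of_le h, Nat.cast_sub h, Nat.cast_zero, add_zero,
      abs_of_nonpos (sub_nonpos.2 (by exact_mod_cast h)), neg_sub]

theorem dev_mul (e : ℕ) {y z : ℕ} (h : y.Coprime z) : dev e (y * z) = dev e y + dev e z := by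
  rw [dev, h.primeFactors_mul, sum_union h.disjoint_primeFactors]
  congr 1
  · exact sum_congr rfl fun p hp => by
      rw [Nat.factorization_eq_of_coprime_left h (Nat.mem_primeFactors_iff_mem_primeFactorsList.1 hp)]
  · exact sum_congr rfl fun p hp => by
      rw [Nat.factorization_eq_of_coprime_right h
        (Nat.mem_primeFactors_iff_mem_primeFactorsList.1 hp)]

end REPU32

open REPU32 in
theorem st_REPU : St_REPU := by
  intro y z m e M a hy hz hc hm h0 h1 h2
  rw [rad_mul hc] at h1
  rw [dev_mul e hc, ← log_up_dn, ← log_up_dn] at h2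
  have l : ∀ u v : ℕ, 0 < u → 0 < v → log ((u * v : ℕ) : ℝ) = log u + log v := fun u v hu hv => by
    rw [Nat.cast_mul, log_mul (by exact_mod_cast hu.ne') (by exact_mod_cast hv.ne')]
  refine ⟨rad y, rad z, dn e y * up e z, up e y * dn e z, rad_pos y, rad_pos z,
    Nat.mul_pos (dn_pos e y) (up_pos e z), Nat.mul_pos (up_pos e y) (dn_pos e z),
    (Nat.le_mul_of_pos_right _ (rad_pos z)).trans h1,
    (Nat.le_mul_of_pos_left _ (rad_pos y)).trans h1, le_pow_of_log h0 ?_, le_pow_of_log h0 ?_,
    hm.coprime_dvd_left ((rad_dvd y).mul_right z), hm.coprime_dvd_left ((rad_dvd z).mul_left y),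
    ?_⟩
  · rw [l _ _ (dn_pos e y) (up_pos e z)]
    linarith [log_nat_nonneg (up e y), log_nat_nonneg (dn e z)]
  · rw [l _ _ (up_pos e y) (dn_pos e z)]
    linarith [log_nat_nonneg (dn e y), log_nat_nonneg (up e z)]
  · calc y * 1 * rad z ^ e * (up e y * dn e z) = (y * up e y) * (rad z ^ e * dn e z) := by ring
      _ = (rad y ^ e * dn e y) * (z * up e z) := by rw [mul_up e hy.ne', mul_up e hz.ne']
      _ = _ := by ring

end Pool.Agent.Lib.CR
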