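import Pool.Agent.Lib.CR.Util

/-! Project cr, row RK. -/

open Finset Real

namespace Pool.Agent.Lib.CR

namespace T7k

theorem loc {ε : ℝ} (hε : 0 < ε) {p : ℕ} (hp : p.Prime) :
    ∃ s : ℝ, HasSum (fun k : ℕ => ((p ^ k : ℕ) : ℝ) ^ (-ε) / rad (p ^ k)) s ∧
      s ≤ exp ((1 - (2 : ℝ) ^ (-ε))⁻¹ * (p : ℝ) ^ (-(1 + ε))) := by
  have p2 : (2 : ℝ) ≤ p := by exact_mod_cast hp.two_le
  have p0 : (0 : ℝ) < p := by linarith
  set x : ℝ := (p : ℝ) ^ (-ε) with hx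
  have x0 : 0 < x := by positivity
  have x1 : x ≤ (2 : ℝ) ^ (-ε) := Real.rpow_le_rpow_of_nonpos two_pos p2 (by linarith)
  have x2 : (2 : ℝ) ^ (-ε) < 1 := Real.rpow_lt_one_of_one_lt_of_neg one_lt_two (by linarith)
  have h1 : HasSum (fun k : ℕ => ((p ^ (k + 1) : ℕ) : ℝ) ^ (-ε) / rad (p ^ (k + 1)))
      (x / p * (1 - x)⁻¹) := by
    have h := (hasSum_geometric_of_lt_one x0.le (x1.trans_lt x2)).mul_left (x / p)
    refine (HasSum.congr_fun h fun k => ?_)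
    have e1 : rad (p ^ (k + 1)) = p := by
      rw [rad, Nat.primeFactors_prime_pow (by omega) hp, prod_singleton]
    rw [e1, Nat.cast_pow, ← Real.rpow_natCast, ← Real.rpow_mul p0.le, mul_comm,
      Real.rpow_mul_natCast p0.le, ← hx]
    ring
  refine ⟨_, (hasSum_nat_add_iff 1).1 h1, ?_⟩
  have e2 : (p : ℝ) ^ (-(1 + ε)) = x / p := by
    rw [show -(1 + ε) = -ε - 1 by ring, Real.rpow_sub_one p0.ne']
  have e3 : (1 - x)⁻¹ ≤ (1 - (2 : ℝ) ^ (-ε))⁻¹ := inv_anti₀ (by linarith) (by linarith)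
  rw [e2]
  refine le_trans ?_ (Real.add_one_le_exp _)
  have e4 : x / p * (1 - x)⁻¹ ≤ x / p * (1 - (2 : ℝ) ^ (-ε))⁻¹ := by gcongr
  simp only [range_one, sum_singleton, pow_zero, Nat.cast_one, Real.one_rpow, rad,
    Nat.primeFactors_one, prod_empty, div_one]
  linarith

end T7k

theorem st_RK : St_RK := fun ε hε => by
  have x2 : (2 : ℝ) ^ (-ε) < 1 := Real.rpow_lt_one_of_one_lt_of_neg one_lt_two (by linarith)
  have c0 : 0 ≤ (1 - (2 : ℝ) ^ (-ε))⁻¹ := inv_nonneg.2 (by linarith)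
  have hs : Summable fun n : ℕ => (n : ℝ) ^ (-(1 + ε)) :=
    Real.summable_nat_rpow.2 (by linarith)
  refine ⟨exp ((1 - (2 : ℝ) ^ (-ε))⁻¹ * ∑' n : ℕ, (n : ℝ) ^ (-(1 + ε))), fun F hF => ?_⟩
  set f : ℕ → ℝ := fun n => (n : ℝ) ^ (-ε) / rad n with hf
  have f0 : ∀ n, 0 ≤ f n := fun n => by positivity
  set s := F.biUnion Nat.primeFactors with hsd
  have h1 := (EulerProduct.summable_and_hasSum_factoredNumbers_prod_filter_prime_tsum (f := f)
    (by simp [hf, rad])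
    (fun {m n} h => by
      simp only [hf]
      rw [rad_mul h, Nat.cast_mul, Real.mul_rpow (Nat.cast_nonneg _) (Nat.cast_nonneg _)]
      push_cast
      ring)
    (fun {p} hp => by
      obtain ⟨s, h, -⟩ := T7k.loc hε hp
      exact h.summable.norm) s).2
  have hm : ∀ n ∈ F, n ∈ Nat.factoredNumbers s := fun n hn =>
    Nat.mem_factoredNumbers_of_primeFactors_subset (fun h => hF (h ▸ hn))
      (subset_biUnion_of_mem Nat.primeFactors hn)
  have h2 : ∑ n ∈ F, f n = ∑ m ∈ F.subtype (· ∈ Nat.factoredNumbers s), f m := by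
    rw [sum_subtype_of_mem f hm]
  have h3 := sum_le_hasSum (F.subtype (· ∈ Nat.factoredNumbers s)) (fun m _ => f0 m) h1
  refine (h2.trans_le h3).trans ?_
  calc _ ≤ ∏ p ∈ s with p.Prime, exp ((1 - (2 : ℝ) ^ (-ε))⁻¹ * (p : ℝ) ^ (-(1 + ε))) :=
        prod_le_prod (fun p _ => tsum_nonneg fun k => f0 _) fun p hp => by
          obtain ⟨s, h, h'⟩ := T7k.loc hε (mem_filter.1 hp).2
          exact h.tsum_eq.trans_le h'
    _ ≤ _ := by
      rw [← Real.exp_sum, ← mul_sum, Real.exp_le_exp]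
      exact mul_le_mul_of_nonneg_left (hs.sum_le_tsum _ fun n _ => by positivity) c0

end Pool.Agent.Lib.CR
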