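import Pool.Agent.Lib.CR.Util

/-! Row T2: the product pigeonhole over four-tuples. -/

open Finset Real

namespace Pool.Agent.Lib.CR

namespace T66p

theorem le8 {m M : ℕ} {f g : Fin 4 → ℕ} (hf : ∀ j, f j ≤ m ^ M) (hg : ∀ j, g j ≤ m ^ M) :
    (∏ j, f j) * ∏ j, g j ≤ m ^ (8 * M) := by
  have b : ∀ f : Fin 4 → ℕ, (∀ j, f j ≤ m ^ M) → ∏ j, f j ≤ (m ^ M) ^ 4 := fun f h => by
    simpa using prod_le_pow_card univ f _ fun j _ => h j
  refine (Nat.mul_le_mul (b f hf) (b g hg)).trans (le_of_eq ?_)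
  ring

theorem pos8 {f g : Fin 4 → ℕ} (hf : ∀ j, 0 < f j) (hg : ∀ j, 0 < g j) :
    0 < (∏ j, f j) * ∏ j, g j :=
  Nat.mul_pos (prod_pos fun j _ => hf j) (prod_pos fun j _ => hg j)

theorem cop8 {m : ℕ} {f g : Fin 4 → ℕ} (hf : ∀ j, (f j).Coprime m) (hg : ∀ j, (g j).Coprime m) :
    ((∏ j, f j) * ∏ j, g j).Coprime m :=
  Nat.Coprime.mul_left (Nat.Coprime.prod_left fun j _ => hf j)
    (Nat.Coprime.prod_left fun j _ => hg j)

theorem card4 {f : Fin 4 → ℕ} {W : ℕ} (h : ∀ j, #(f j).primeFactors ≤ W) (p : ∀ j, 0 < f j) :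
    #(∏ j, f j).primeFactors ≤ 4 * W := by
  have s : (∏ j, f j).primeFactors ⊆ univ.biUnion fun j => (f j).primeFactors := fun q hq => by
    obtain ⟨h1, h2, -⟩ := Nat.mem_primeFactors.1 hq
    obtain ⟨j, -, hj⟩ := (Prime.dvd_finsetProd_iff h1.prime _).1 h2
    exact mem_biUnion.2 ⟨j, mem_univ _, Nat.mem_primeFactors.2 ⟨h1, hj, (p j).ne'⟩⟩
  refine (card_le_card s).trans ?_
  simpa using card_biUnion_le_card_mul univ (fun j => (f j).primeFactors) W fun j _ => h j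

end T66p

open T66p in
theorem st_T2 (hT : St_TL) (hC : St_COL) : St_T2 := by
  classical
  obtain ⟨C, C1, hT⟩ := hT
  refine ⟨64 * C, by omega, ?_⟩
  intro ι F y z m M M' a E e g₁ g₂ W μ hM hM' ha hm hE he q1 q2 hF hs hμ
  have μ0 : 0 ≤ μ := by simpa using hμ ∅ ∅ (by simp) (by simp) (by simp) (by simp)
  have m0 : 0 < m := lt_of_lt_of_le (by positivity) hm
  have : NeZero m := ⟨m0.ne'⟩
  obtain ⟨c, F', sub, hc, col⟩ := hC ι F (fun k => (y k).primeFactors)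
    (fun k => (z k).primeFactors) W fun k hk => by
      obtain ⟨-, -, h3, -, h5, -⟩ := hF k hk
      refine ⟨h3.disjoint_primeFactors, ?_⟩
      rwa [h3.primeFactors_mul, card_union_of_disjoint h3.disjoint_primeFactors] at h5
  choose! w₁ w₂ r₁ r₂ hR using fun k hk => (hF k hk).2.2.2.2.2
  obtain ⟨ε, ε4, hε⟩ : ∃ ε : ZMod (m ^ E), ε ^ 4 = 1 ∧
      ∀ k ∈ F, (y k : ZMod (m ^ E)) = ε * z k := by
    rcases hs with h | h
    · exact ⟨1, by simp, fun k hk => by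
        rw [one_mul]
        exact (ZMod.natCast_eq_natCast_iff _ _ _).2 (h k hk)⟩
    · refine ⟨-1, by ring, fun k hk => ?_⟩
      have := (ZMod.natCast_eq_zero_iff _ _).2 (h k hk)
      push_cast at this
      linear_combination this
  have mem : ∀ I ∈ Fintype.piFinset fun _ : Fin 4 => F', ∀ j, I j ∈ F := fun I hI j =>
    sub (Fintype.mem_piFinset.1 hI j)
  have rel : ∀ I : Fin 4 → ι, (∀ j, I j ∈ F) →
      (∏ j, y (I j)) * g₂ ^ 4 * (∏ j, w₂ (I j)) ^ e * ∏ j, r₂ (I j) =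
        (∏ j, z (I j)) * g₁ ^ 4 * (∏ j, w₁ (I j)) ^ e * ∏ j, r₁ (I j) := fun I hI => by
    have := prod_congr (s₁ := univ) rfl fun j _ => (hR _ (hI j)).2.2.2.2.2.2.2.2.2.2
    simpa only [prod_mul_distrib, prod_pow, prod_const, card_univ, Fintype.card_fin] using this
  have con : ∀ I : Fin 4 → ι, (∀ j, I j ∈ F) →
      ((∏ j, y (I j) : ℕ) : ZMod (m ^ E)) = (∏ j, z (I j) : ℕ) := fun I hI => by
    push_cast
    rw [prod_congr rfl fun j _ => hε _ (hI j), prod_mul_distrib, prod_const, card_univ,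
      Fintype.card_fin, ε4, one_mul]
  have key : (#(Fintype.piFinset fun _ : Fin 4 => F') : ℝ) ≤ #(univ : Finset (ZMod m)) * μ ^ 4 := by
    refine card_le_classes' _ _ (fun I t => ((∏ j, w₁ (I j) : ℕ) : ZMod m) =
      t * (∏ j, w₂ (I j) : ℕ)) _ (fun I hI => ?_) fun t _ G hG hP => ?_
    · have := ZMod.coe_mul_inv_eq_one _
        (Nat.Coprime.prod_left (t := univ) fun j _ => (hR _ (mem I hI j)).2.2.2.2.2.2.2.2.2.1)
      exact ⟨(∏ j, w₁ (I j) : ℕ) * ((∏ j, w₂ (I j) : ℕ) : ZMod m)⁻¹, mem_univ _, by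
        rw [mul_assoc, mul_comm _⁻¹, this, mul_one]⟩
    rcases G.eq_empty_or_nonempty with rfl | ⟨J, hJ⟩
    · simpa using pow_nonneg μ0 4
    have mJ := mem J (hG hJ)
    have pJ : ∀ j, 0 < y (J j) * z (J j) := fun j => Nat.mul_pos (hF _ (mJ j)).1 (hF _ (mJ j)).2.1
    have b := hμ (∏ j, y (J j) * z (J j)).primeFactors (F'.filter fun k =>
      (y k * z k).primeFactors ⊆ (∏ j, y (J j) * z (J j)).primeFactors)
      (fun p hp => Nat.prime_of_mem_primeFactors hp) (card4 (fun j => (hF _ (mJ j)).2.2.2.2.1) pJ)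
      ((filter_subset _ _).trans sub) fun k hk => (mem_filter.1 hk).2
    have s : G ⊆ Fintype.piFinset fun _ : Fin 4 => F'.filter fun k =>
        (y k * z k).primeFactors ⊆ (∏ j, y (J j) * z (J j)).primeFactors := fun I hI => by
      have mI := mem I (hG hI)
      have mI' := Fintype.mem_piFinset.1 (hG hI)
      have e1 : (∏ j, y (I j)) * (∏ j, z (J j)) * (((∏ j, w₂ (I j)) * ∏ j, w₁ (J j)) ^ e *
          ((∏ j, r₂ (I j)) * ∏ j, r₁ (J j))) = (∏ j, z (I j)) * (∏ j, y (J j)) *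
          (((∏ j, w₁ (I j)) * ∏ j, w₂ (J j)) ^ e * ((∏ j, r₁ (I j)) * ∏ j, r₂ (J j))) := by
        refine Nat.eq_of_mul_eq_mul_left (show 0 < g₁ ^ 4 * g₂ ^ 4 by positivity) ?_
        have := congrArg₂ (· * ·) (rel I mI) (rel J mJ).symm
        rw [mul_pow, mul_pow]
        linear_combination this
      have e2 : (∏ j, y (I j)) * (∏ j, z (J j)) ≡ (∏ j, z (I j)) * ∏ j, y (J j) [MOD m ^ E] := by
        rw [← ZMod.natCast_eq_natCast_iff, Nat.cast_mul, Nat.cast_mul, con I mI, con J mJ]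
      have e3 := hT m (8 * M) M' (8 * a) E e _ _ _ _ (by omega) hM' (by omega)
        (le_trans (by nlinarith [Nat.zero_le (C * M * M')]) hm) (le_of_eq_of_le (by ring) hE)
        (pos8 (fun j => (hR _ (mI j)).1) fun j => (hR _ (mJ j)).2.1)
        (pos8 (fun j => (hR _ (mI j)).2.1) fun j => (hR _ (mJ j)).1)
        (pos8 (fun j => (hR _ (mI j)).2.2.2.1) fun j => (hR _ (mJ j)).2.2.1)
        (pos8 (fun j => (hR _ (mI j)).2.2.1) fun j => (hR _ (mJ j)).2.2.2.1)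
        (le8 (fun j => (hR _ (mI j)).2.2.2.2.1) fun j => (hR _ (mJ j)).2.2.2.2.2.1)
        (le8 (fun j => (hR _ (mI j)).2.2.2.2.2.1) fun j => (hR _ (mJ j)).2.2.2.2.1)
        (le8 (fun j => (hR _ (mI j)).2.2.2.2.2.2.2.1) fun j => (hR _ (mJ j)).2.2.2.2.2.2.1)
        (le8 (fun j => (hR _ (mI j)).2.2.2.2.2.2.1) fun j => (hR _ (mJ j)).2.2.2.2.2.2.2.1) he
        (cop8 (fun j => (hR _ (mI j)).2.2.2.2.2.2.2.2.2.1)
          fun j => (hR _ (mJ j)).2.2.2.2.2.2.2.2.1)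
        (by
          rw [← ZMod.natCast_eq_natCast_iff, Nat.cast_mul, Nat.cast_mul, hP I hI, hP J hJ]
          ring)
        (Nat.ModEq.cancel_left_of_coprime (c := (∏ j, z (I j)) * ∏ j, y (J j))
          (Nat.Coprime.pow_left E (cop8
            (fun j => (hF _ (mI j)).2.2.2.1.coprime_dvd_left (Dvd.intro_left _ rfl))
            fun j => (hF _ (mJ j)).2.2.2.1.coprime_dvd_left (Dvd.intro _ rfl)).symm)
          (e1 ▸ e2.mul_right _))
      rw [e3] at e1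
      have e4 := Nat.eq_of_mul_eq_mul_right (Nat.mul_pos (pow_pos
        (pos8 (fun j => (hR _ (mI j)).2.1) fun j => (hR _ (mJ j)).1) e)
        (pos8 (fun j => (hR _ (mI j)).2.2.2.1) fun j => (hR _ (mJ j)).2.2.1)) e1
      have cp : (∏ j, y (I j)).Coprime (∏ j, z (I j)) :=
        Nat.Coprime.prod_left fun i _ => Nat.Coprime.prod_right fun j _ =>
          (Nat.disjoint_primeFactors (hF _ (mI i)).1.ne' (hF _ (mI j)).2.1.ne').1
            ((col _ (mI' j)).2.symm.mono_left (col _ (mI' i)).1)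
      have d1 : ∏ j, y (I j) ∣ ∏ j, y (J j) := cp.dvd_of_dvd_mul_left ⟨_, e4.symm⟩
      have d2 : ∏ j, z (I j) ∣ ∏ j, z (J j) := cp.symm.dvd_of_dvd_mul_left ⟨_, e4⟩
      refine Fintype.mem_piFinset.2 fun i => mem_filter.2 ⟨mI' i, Nat.primeFactors_mono ?_
        (prod_pos fun j _ => pJ j).ne'⟩
      rw [prod_mul_distrib]
      exact mul_dvd_mul ((dvd_prod_of_mem _ (mem_univ i)).trans d1)
        ((dvd_prod_of_mem _ (mem_univ i)).trans d2)
    have t := card_le_card s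
    rw [Fintype.card_piFinset_const] at t
    exact (Nat.cast_le.2 t).trans (by
      rw [Nat.cast_pow]
      exact pow_le_pow_left₀ (Nat.cast_nonneg _) b 4)
  rw [Fintype.card_piFinset_const, card_univ, ZMod.card, Nat.cast_pow] at key
  have r4 : ((m : ℝ) ^ (1 / 4 : ℝ)) ^ 4 = m := by
    rw [← rpow_natCast, ← rpow_mul (Nat.cast_nonneg _)]
    norm_num
  have fin : (#F' : ℝ) ≤ (m : ℝ) ^ (1 / 4 : ℝ) * μ :=
    (pow_le_pow_iff_left₀ (Nat.cast_nonneg _) (by positivity) four_ne_zero).1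
      (by rwa [mul_pow, r4])
  have hc' : (#F : ℝ) ≤ 2 ^ W * #F' := by exact_mod_cast hc
  refine hc'.trans ((mul_le_mul_of_nonneg_left fin (by positivity)).trans (le_of_eq ?_))
  ring

end Pool.Agent.Lib.CR
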