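import Pool.Agent.Lib.CR.Util

/-! Project cr, block T3: the product pigeonhole for solutions of `a + b = c`. -/

open Finset Real

noncomputable section

namespace Pool.Agent.Lib.CR

theorem st_T3 (hT : St_T2) (hG : St_GAP) : St_T3 := by
  classical
  obtain ⟨C, hC, h⟩ := hT
  refine ⟨C, hC, fun θ i F Λ m M M' a E e g₁ g₂ W h0 h1 hM hM' ha hm hE he p1 p2 h6 hθ hF => ?_⟩
  have hE1 : 1 ≤ E := le_trans (Nat.succ_le_of_lt (by positivity)) hE
  have hm1 : 0 < m := lt_of_lt_of_le (by positivity) hm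
  have hmx : ∀ t ∈ F, m ∣ xx i t := fun t ht =>
    (dvd_pow_self m (by omega)).trans (hF t ht).2.2.2.1
  have key := h (ℕ × ℕ) F (yy i) (zz i) m M M' a E e g₁ g₂ W (2 ^ (270 / θ * W)) hM hM' ha hm hE he
    p1 p2 (fun t ht => ?_) ?_ fun S F' hS hS4 hF' hP => ?_
  · refine key.trans (mul_le_mul_of_nonneg_left ?_ (by positivity))
    rw [← rpow_natCast, ← rpow_add two_pos]
    refine rpow_le_rpow_of_exponent_le one_le_two ?_
    have h2 : (W : ℝ) ≤ 1 / θ * W :=
      le_mul_of_one_le_left (Nat.cast_nonneg _) (by rw [le_div_iff₀ h0]; linarith)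
    calc (W : ℝ) + 270 / θ * W ≤ 1 / θ * W + 270 / θ * W := by linarith
      _ = 271 / θ * W := by ring
  · obtain ⟨hT, -, hW, -, hR⟩ := hF t ht
    refine ⟨hT.yy_pos i, hT.zz_pos i, hT.cop_yz i, (hT.cop_yzx i).coprime_dvd_right (hmx t ht),
      (card_le_card (Nat.primeFactors_mono ?_ hT.Pr_pos.ne')).trans hW, hR⟩
    rw [Pr_eq i t]
    exact Dvd.intro_left _ rfl
  · fin_cases i
    · refine Or.inl fun t ht => ?_
      have hd : m ^ E ∣ t.1 := (hF t ht).2.2.2.1
      show t.2 ≡ t.1 + t.2 [MOD m ^ E]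
      exact (Nat.modEq_iff_dvd' (Nat.le_add_left _ _)).2 (by simpa using hd)
    · refine Or.inl fun t ht => ?_
      have hd : m ^ E ∣ t.2 := (hF t ht).2.2.2.1
      show t.1 ≡ t.1 + t.2 [MOD m ^ E]
      exact (Nat.modEq_iff_dvd' (Nat.le_add_right _ _)).2 (by simpa using hd)
    · exact Or.inr fun t ht => (hF t ht).2.2.2.1
  · rcases F'.eq_empty_or_nonempty with rfl | ⟨t₀, ht₀⟩
    · rw [card_empty, Nat.cast_zero]; positivity
    have hmW : #m.primeFactors ≤ W := by
      obtain ⟨hT, -, hW, -⟩ := hF t₀ (hF' ht₀)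
      refine (card_le_card (Nat.primeFactors_mono ?_ hT.Pr_pos.ne')).trans hW
      rw [Pr_eq i t₀]
      exact (hmx t₀ (hF' ht₀)).mul_right _
    have g := hG (θ / 2) Λ (5 * W) (S ∪ m.primeFactors) F' (by positivity) (by linarith)
      (fun p hp => (mem_union.1 hp).elim (hS p) Nat.prime_of_mem_primeFactors)
      ((card_union_le _ _).trans (by omega)) fun t ht => ?_
    · refine g.trans_eq ?_
      congr 1
      push_cast
      field_simp
      ring
    · obtain ⟨hT, hSc, -, hd, -⟩ := hF t (hF' ht)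
      refine ⟨hT, hSc, ?_⟩
      have x0 := (hT.xx_pos i).ne'
      have y0 := (Nat.mul_pos (hT.yy_pos i) (hT.zz_pos i)).ne'
      have s1 : sh (S ∪ m.primeFactors) (yy i t * zz i t) = log (yy i t * zz i t : ℕ) :=
        sh_full y0 ((hP t ht).trans subset_union_left)
      have s2 : sh (S ∪ m.primeFactors) (m ^ E) = E * log m := by
        rw [sh_full (pow_pos hm1 E).ne' (by
          rw [Nat.primeFactors_pow _ (by omega)]; exact subset_union_right), Nat.cast_pow, log_pow]
      have s3 := sh_le_of_dvd (S ∪ m.primeFactors) hd x0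
      have s4 := log_le_of_le (xx_le i t)
      have s5 : log (Pr t) = log (xx i t) + log (yy i t * zz i t : ℕ) := by
        rw [Pr_eq i t, Nat.cast_mul, log_mul (by exact_mod_cast x0) (by exact_mod_cast y0)]
      have s6 : sh (S ∪ m.primeFactors) (Pr t) = sh (S ∪ m.primeFactors) (xx i t) +
          sh (S ∪ m.primeFactors) (yy i t * zz i t) := by rw [Pr_eq i t, sh_mul _ x0 y0]
      have s7 := hSc.2
      rw [s5, s6, s1]
      linarith

end Pool.Agent.Lib.CR
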