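import Pool.Agent.Lib.CR.Util

/-! Row TL: the two-logarithm lemma modulo a composite number. -/

open Finset

namespace Pool.Agent.Lib.CR

namespace T66t

/-- The box principle. -/
theorem siegel {A : Type} [CommRing A] [Fintype A] {K D N B : ℕ} (f : Fin K → Fin D → Fin N → A)
    (h : Fintype.card A ^ N < (B + 1) ^ (D * K)) : ∃ p : Fin K → Fin D → ℤ, p ≠ 0 ∧
      (∀ k l, |p k l| ≤ B) ∧ ∀ z, ∑ k, ∑ l, (p k l : A) * f k l z = 0 := by
  classical
  obtain ⟨c, c', ne, e⟩ := Fintype.exists_ne_map_eq_of_card_lt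
    (fun (c : Fin K → Fin D → Fin (B + 1)) (z : Fin N) => ∑ k, ∑ l, ((c k l : ℕ) : A) * f k l z)
    (by simpa [← pow_mul] using h)
  refine ⟨fun k l => ((c k l : ℕ) : ℤ) - (c' k l : ℕ), fun h0 => ne ?_, fun k l => ?_, fun z => ?_⟩
  · funext k l
    have := congrFun (congrFun h0 k) l
    simp only [Pi.zero_apply] at this
    exact Fin.ext (by omega)
  · have := (c k l).2
    have := (c' k l).2
    beta_reduce
    rw [abs_le]
    omega
  · have := congrFun e z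
    simp only [Int.cast_sub, Int.cast_natCast, sub_mul, sum_sub_distrib]
    exact sub_eq_zero.2 this

theorem core (hZ : St_ZL) (hE : St_EXT) {m u₁ u₂ r₁ r₂ e D S R K W b c₁ c₂ c₃ : ℕ} (hm : 1 < m)
    (p1 : 0 < u₁) (p2 : 0 < u₂) (p3 : 0 < r₁) (p4 : 0 < r₂) (cop : u₂.Coprime m)
    (hu : u₁ ≡ u₂ [MOD m]) (ne : u₁ ≠ u₂) (hc : u₁ ^ e * r₂ ≡ u₂ ^ e * r₁ [MOD m ^ W])
    (hRe : R ≤ e) (hB : W * (W + K) ≤ b * (D * K)) (hDK : 0 < D * K)
    (hz : ∀ r < R + D, ∀ s < S, r + s * e ≤ m ^ c₁)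
    (hY : ∀ r < R + D, ∀ s < S, u₁ ^ r * r₁ ^ s ≤ m ^ c₂ ∧ u₂ ^ r * r₂ ^ s ≤ m ^ c₂)
    (hKD : K * D ≤ m ^ c₃) (hsum : c₃ + (b + c₁ * K + c₂ * D) < W) (hN : D * K ≤ R * S) :
    False := by
  have m0 : 0 < m := by omega
  have : NeZero (m ^ W) := ⟨(pow_pos m0 W).ne'⟩
  obtain ⟨w, hw⟩ := ((ZMod.isUnit_iff_coprime u₂ (m ^ W)).2 (cop.pow_right W)).exists_right_inv
  obtain ⟨V, hV⟩ : ∃ V : ZMod (m ^ W), V = u₁ * w := ⟨_, rfl⟩
  have v1 : (u₁ : ZMod (m ^ W)) = V * u₂ := by rw [hV, mul_assoc, mul_comm w, hw, mul_one]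
  have v2 : (r₁ : ZMod (m ^ W)) = V ^ e * r₂ := by
    have := (ZMod.natCast_eq_natCast_iff _ _ _).2 hc
    push_cast at this
    rw [hV, mul_pow, mul_right_comm, this, mul_right_comm, ← mul_pow, hw, one_pow, one_mul]
  have v0 : (V - 1) ^ W = 0 := by
    obtain ⟨t, ht⟩ := hu.symm.dvd
    have a := congrArg (Int.cast : ℤ → ZMod (m ^ W)) ht
    push_cast at a
    have c : ((m : ZMod (m ^ W))) ^ W = 0 := by
      rw [← Nat.cast_pow, ZMod.natCast_self]
    rw [hV, ← hw, ← sub_mul, a, mul_pow, mul_pow, c, zero_mul, zero_mul]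
  obtain ⟨p, p0, pb, pz⟩ := siegel (B := m ^ b) (fun (k : Fin K) (l : Fin D) (z : Fin (W + K)) =>
    ((z : ℕ) : ZMod (m ^ W)) ^ (k : ℕ) * (V ^ (z : ℕ)) ^ (l : ℕ)) (by
      rw [ZMod.card, ← pow_mul]
      refine (Nat.pow_le_pow_right m0 hB).trans_lt ?_
      rw [pow_mul]
      exact Nat.pow_lt_pow_left (Nat.lt_succ_self _) hDK.ne')
  have ext := hE _ D K W V (fun k l => (p k l : ZMod (m ^ W))) v0 fun z hz => by
    simpa only [mul_assoc] using pz ⟨z, hz⟩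
  have q2 : (0 : ℚ) < u₂ := by exact_mod_cast p2
  have q4 : (0 : ℚ) < r₂ := by exact_mod_cast p4
  have key := hZ D K R S e (u₁ / u₂) (r₁ / r₂) (fun k l => p k l) (by positivity)
    (fun h => ne (by rw [div_eq_one_iff_eq q2.ne'] at h; exact_mod_cast h)) (by positivity) hRe hN
    fun r hr s hs => by
      obtain ⟨y1, y2⟩ := hY r hr s hs
      have z1 := hz r hr s hs
      obtain ⟨I, hI⟩ : ∃ I : ℤ, I = ∑ k, ∑ l, p k l * ((r + s * e : ℕ) : ℤ) ^ (k : ℕ) *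
        (((u₁ ^ r * r₁ ^ s : ℕ) : ℤ) ^ (l : ℕ) * ((u₂ ^ r * r₂ ^ s : ℕ) : ℤ) ^ (D - l)) := ⟨_, rfl⟩
      have dv : ((m ^ W : ℕ) : ℤ) ∣ I := by
        rw [← ZMod.intCast_zmod_eq_zero_iff_dvd, hI,
          ← zero_mul (((u₂ : ZMod (m ^ W)) ^ r * r₂ ^ s) ^ D), ← ext (r + s * e), sum_mul,
          Int.cast_sum]
        refine sum_congr rfl fun k _ => ?_
        rw [sum_mul, Int.cast_sum]
        refine sum_congr rfl fun l _ => ?_
        obtain ⟨d, hd⟩ := Nat.exists_eq_add_of_le l.2.le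
        rw [show D - l = d by omega]
        generalize (l : ℕ) = j at hd
        push_cast
        rw [v1, v2, show ((u₂ : ZMod (m ^ W)) ^ r * r₂ ^ s) ^ D =
          ((u₂ : ZMod (m ^ W)) ^ r * r₂ ^ s) ^ (j + d) by rw [← hd]]
        ring
      have bd : |I| < ((m ^ W : ℕ) : ℤ) := by
        have one : ∀ (k : Fin K) (l : Fin D), |p k l * ((r + s * e : ℕ) : ℤ) ^ (k : ℕ) *
            (((u₁ ^ r * r₁ ^ s : ℕ) : ℤ) ^ (l : ℕ) * ((u₂ ^ r * r₂ ^ s : ℕ) : ℤ) ^ (D - l))| ≤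
              ((m ^ (b + c₁ * K + c₂ * D) : ℕ) : ℤ) := fun k l => by
          have a1 : (r + s * e) ^ (k : ℕ) ≤ m ^ (c₁ * K) := by
            rw [pow_mul]
            exact (Nat.pow_le_pow_left z1 _).trans (Nat.pow_le_pow_right (pow_pos m0 _) k.2.le)
          have a2 : (u₁ ^ r * r₁ ^ s) ^ (l : ℕ) * (u₂ ^ r * r₂ ^ s) ^ (D - l) ≤ m ^ (c₂ * D) := by
            refine (Nat.mul_le_mul (Nat.pow_le_pow_left y1 _) (Nat.pow_le_pow_left y2 _)).trans ?_
            rw [← pow_add, Nat.add_sub_cancel' l.2.le, pow_mul]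
          rw [← Nat.cast_pow, ← Nat.cast_pow, ← Nat.cast_pow, ← Nat.cast_mul, abs_mul, abs_mul,
            Nat.abs_cast, Nat.abs_cast, pow_add, pow_add, Nat.cast_mul (_ * _), Nat.cast_mul (m ^ b)]
          exact mul_le_mul (mul_le_mul (pb k l) (Nat.cast_le.2 a1) (Nat.cast_nonneg _)
            (Nat.cast_nonneg _)) (Nat.cast_le.2 a2) (Nat.cast_nonneg _) (by positivity)
        rw [hI]
        refine ((abs_sum_le_sum_abs _ _).trans (sum_le_card_nsmul _ _ _ fun k _ =>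
          (abs_sum_le_sum_abs _ _).trans (sum_le_card_nsmul _ _ _ fun l _ => one k l))).trans_lt ?_
        rw [card_univ, card_univ, Fintype.card_fin, Fintype.card_fin, nsmul_eq_mul, nsmul_eq_mul,
          ← Nat.cast_mul, ← Nat.cast_mul, Nat.cast_lt, ← mul_assoc]
        refine (Nat.mul_le_mul_right _ hKD).trans_lt ?_
        rw [← pow_add]
        exact Nat.pow_lt_pow_right hm hsum
      have I0 := congrArg (Int.cast : ℤ → ℚ) (hI ▸ Int.eq_zero_of_abs_lt_dvd dv bd)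
      refine mul_right_cancel₀ (b := ((u₂ : ℚ) ^ r * r₂ ^ s) ^ D) (by positivity) ?_
      rw [zero_mul, ← Int.cast_zero, ← I0, sum_mul, Int.cast_sum]
      refine sum_congr rfl fun k _ => ?_
      rw [sum_mul, Int.cast_sum]
      refine sum_congr rfl fun l _ => ?_
      obtain ⟨d, hd⟩ := Nat.exists_eq_add_of_le l.2.le
      rw [show D - l = d by omega]
      generalize (l : ℕ) = j at hd
      rw [show ((u₂ : ℚ) ^ r * r₂ ^ s) ^ D = ((u₂ : ℚ) ^ r * r₂ ^ s) ^ (j + d) by rw [← hd]]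
      have : ((u₁ : ℚ) / u₂) ^ r * ((r₁ : ℚ) / r₂) ^ s * ((u₂ : ℚ) ^ r * r₂ ^ s) =
          (u₁ : ℚ) ^ r * r₁ ^ s := by
        rw [div_pow, div_pow]
        field_simp
      push_cast
      rw [← this]
      ring
  refine p0 (funext fun k => funext fun l => ?_)
  have := congrFun (congrFun key k) l
  simp only [Pi.zero_apply] at this ⊢
  exact_mod_cast this

end T66t

open T66t in
theorem st_TL (hZ : St_ZL) (hE : St_EXT) : St_TL := by
  refine ⟨360000, by norm_num, ?_⟩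
  intro m M M' a E e u₁ u₂ r₁ r₂ hM hM' ha hm hE' p1 p2 p3 p4 b1 b2 b3 b4 be cop hu hc
  have n1 : 1 ≤ M * M' := Nat.mul_pos hM hM'
  have n2 : 1 ≤ M * a := Nat.mul_pos hM ha
  have m1 : 360000 ≤ m := by nlinarith
  have m0 : 0 < m := by omega
  obtain ⟨x, hx⟩ : ∃ x, x = M' * (M * a) := ⟨_, rfl⟩
  obtain ⟨y, hy⟩ : ∃ y, y = M' * x := ⟨_, rfl⟩
  have x1 : M * a ≤ x := hx ▸ Nat.le_mul_of_pos_left _ hM'
  have y1 : x ≤ y := hy ▸ Nat.le_mul_of_pos_left _ hM'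
  have a1 : a ≤ M * a := Nat.le_mul_of_pos_left _ hM
  have hy' : 360000 * y ≤ E := by
    rw [hy, hx]
    exact le_of_eq_of_le (by ring) hE'
  by_cases c1 : e < 1200 * (M' * a) + 20 * M'
  · have t : M * e + a < E := by
      have t1 : M * e ≤ M * (1200 * (M' * a) + 20 * M') := Nat.mul_le_mul_left _ c1.le
      have t2 : M * M' ≤ M * M' * a := Nat.le_mul_of_pos_right _ ha
      have t3 : M * M' * a = x := by rw [hx]; ring
      have t4 : M * (1200 * (M' * a) + 20 * M') = 1200 * x + 20 * (M * M') := by rw [hx]; ring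
      omega
    have bd : ∀ u r, u ≤ m ^ M → r ≤ m ^ a → u ^ e * r < m ^ E := fun u r h1 h2 =>
      (Nat.mul_le_mul (Nat.pow_le_pow_left h1 e) h2).trans_lt (by
        rw [← pow_mul, ← pow_add]
        exact Nat.pow_lt_pow_right (by omega) t)
    exact Nat.ModEq.eq_of_lt_of_lt hc (bd _ _ b1 b4) (bd _ _ b2 b3)
  by_cases c2 : u₁ = u₂
  · subst c2
    have t : m ^ a < m ^ E := Nat.pow_lt_pow_right (by omega) (by omega)
    have := Nat.ModEq.cancel_left_of_coprime (Nat.Coprime.pow E e cop.symm) hc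
    rw [this.eq_of_lt_of_lt (b4.trans_lt t) (b3.trans_lt t)]
  exfalso
  refine core hZ hE (D := 20 * M') (S := 1200 * (M * M')) (R := 1200 * (M' * a)) (K := 72000 * x)
    (W := 360000 * y) (b := 90000 * y + 18000 * x) (c₁ := 1 + M')
    (c₂ := M * (1200 * (M' * a) + 20 * M') + a * (1200 * (M * M'))) (c₃ := 2 + y) (by omega)
    p1 p2 p3 p4 cop hu c2 (hc.of_dvd (pow_dvd_pow m hy')) (by omega)
    (le_of_eq (by rw [hy]; ring)) (Nat.mul_pos (by omega) (by omega)) (fun r hr s hs => ?_)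
    (fun r hr s hs => ?_) ?_ ?_ (le_of_eq (by rw [hx]; ring))
  · have t1 : (s + 1) * e ≤ m * m ^ M' := Nat.mul_le_mul (by nlinarith) be
    rw [pow_add, pow_one]
    nlinarith
  · have bd : ∀ u v, u ≤ m ^ M → v ≤ m ^ a → u ^ r * v ^ s ≤
        m ^ (M * (1200 * (M' * a) + 20 * M') + a * (1200 * (M * M'))) := fun u v h1 h2 =>
      (Nat.mul_le_mul (Nat.pow_le_pow_left h1 r) (Nat.pow_le_pow_left h2 s)).trans (by
        rw [← pow_mul, ← pow_mul, ← pow_add]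
        exact Nat.pow_le_pow_right m0 (Nat.add_le_add (Nat.mul_le_mul_left _ hr.le)
          (Nat.mul_le_mul_left _ hs.le)))
    exact ⟨bd _ _ b1 b3, bd _ _ b2 b4⟩
  · have t1 : y ≤ m ^ y := (Nat.lt_pow_self (by omega)).le
    have t2 : 1440000 ≤ m ^ 2 := by nlinarith
    rw [pow_add]
    exact le_of_eq_of_le (by rw [hy]; ring) (Nat.mul_le_mul t2 t1)
  · have t1 : (1 + M') * (72000 * x) = 72000 * x + 72000 * y := by rw [hy]; ring
    have t2 : (M * (1200 * (M' * a) + 20 * M') + a * (1200 * (M * M'))) * (20 * M') =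
        48000 * y + 400 * (M' * (M' * M)) := by rw [hy, hx]; ring
    have t3 : M' * (M' * M) ≤ y := by
      rw [hy, hx]
      exact Nat.mul_le_mul_left _ (Nat.mul_le_mul_left _ (Nat.le_mul_of_pos_right _ ha))
    omega

end Pool.Agent.Lib.CR
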