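import Pool.Agent.Lib.CR.Util

/-! Project cr, row UP: the upper bound for curves with full 2-torsion. -/

open Finset Real

noncomputable section

namespace Pool.Agent.Lib.CR

namespace T59U

/-- The class of a curve. -/
def Cl (c : ℤ × ℤ) (y : ℕ × ℕ × Bool) : Prop :=
  (0 ≤ c.2 ↔ y.2.2 = true) ∧ ∃ v : (ℕ × ℕ) × ℕ, Tr v.1 ∧ v.2 ∣ rad (Pr v.1) ∧
    v.2 * y.2.1 ^ 2 * rad (Pr v.1) ≤ 6 * cond c ∧
    3 * c.1 = -((y.1 * v.2 * y.2.1 : ℕ) : ℤ) ^ 2 *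
      ((v.1.1 : ℤ) ^ 2 + v.1.1 * v.1.2 + (v.1.2 : ℤ) ^ 2) ∧
    (27 * c.2) ^ 2 = (((y.1 * v.2 * y.2.1 : ℕ) : ℤ) ^ 3 *
      ((2 * v.1.1 + v.1.2) * ((v.1.1 : ℤ) - v.1.2) * (v.1.1 + 2 * v.1.2))) ^ 2

end T59U

theorem st_UP (hP : St_PAR) (hN : St_NS) : St_UP := by
  classical
  obtain ⟨C, hC⟩ := hN
  have hs : Summable fun n : ℕ => (n : ℝ) ^ (-(4 / 3) : ℝ) :=
    Real.summable_nat_rpow.2 (by norm_num)
  set Z := ∑' n : ℕ, (n : ℝ) ^ (-(4 / 3) : ℝ) with hZ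
  refine ⟨12 * (|C| * 6 ^ (2 / 3 : ℝ) * Z), fun X F hX hF => ?_⟩
  have key := card_le_classes F (Nat.divisors 18 ×ˢ Icc 1 ⌊6 * X⌋₊ ×ˢ (univ : Finset Bool)) T59U.Cl
    (fun y => |C| * (6 * X) ^ (2 / 3 : ℝ) * (y.2.1 : ℝ) ^ (-(4 / 3) : ℝ)) ?_ ?_
  · refine key.trans ?_
    have h1 : ∑ h ∈ Icc 1 ⌊6 * X⌋₊, (h : ℝ) ^ (-(4 / 3) : ℝ) ≤ Z :=
      hs.sum_le_tsum _ fun n _ => by positivity
    have h2 : #(Nat.divisors 18) = 6 := by decide
    have h3 : 0 ≤ |C| * (6 * X) ^ (2 / 3 : ℝ) := by positivity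
    have h4 := mul_le_mul_of_nonneg_left h1 h3
    simp only [sum_product, sum_const, card_univ, Fintype.card_bool, h2, nsmul_eq_mul]
    rw [← mul_sum, ← mul_sum]
    rw [mul_rpow (by norm_num) hX] at h4 ⊢
    push_cast
    linarith
  · intro c hc
    obtain ⟨-, t, d, g, h, ht, hd, hh, hg, hle, hA, hB⟩ := hP c (hF c hc).1
    refine ⟨(d, h, decide (0 ≤ c.2)), ?_, by simp, (t, g), ht, hg, hle, hA, hB⟩
    refine mem_product.2 ⟨Nat.mem_divisors.2 ⟨hd, by norm_num⟩,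
      mem_product.2 ⟨mem_Icc.2 ⟨hh, Nat.le_floor ?_⟩, mem_univ _⟩⟩
    have g0 : 0 < g := Nat.pos_of_dvd_of_pos hg (rad_pos _)
    have h1 : h ≤ g * h ^ 2 * rad (Pr t) :=
      Nat.le_of_dvd (by have := rad_pos (Pr t); positivity) ⟨g * h * rad (Pr t), by ring⟩
    have h2 : (h : ℝ) ≤ 6 * cond c := by exact_mod_cast h1.trans hle
    linarith [(hF c hc).2]
  · rintro ⟨d, h, b⟩ hy F' hF' hcl
    have hh : (0 : ℝ) < h := by
      exact_mod_cast (mem_Icc.1 (mem_product.1 (mem_product.1 hy).2).1).1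
    choose! φ hφ using fun c hc => (hcl c hc).2
    have inj : Set.InjOn φ F' := by
      intro c hc c' hc' e
      obtain ⟨-, -, -, a1, a2⟩ := hφ c hc
      obtain ⟨-, -, -, b1, b2⟩ := hφ c' hc'
      rw [e, ← b1] at a1
      rw [e, ← b2] at a2
      have s1 := (hcl c hc).1.trans (hcl c' hc').1.symm
      refine Prod.ext (by omega) ?_
      rcases sq_eq_sq_iff_eq_or_eq_neg.1 a2 with a3 | a3 <;> omega
    have h1 := hC (6 * X / h ^ 2) (F'.image φ) (by positivity) fun v hv => by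
      obtain ⟨c, hc, rfl⟩ := mem_image.1 hv
      obtain ⟨a1, a2, a3, -⟩ := hφ c hc
      refine ⟨a1, a2, ?_⟩
      rw [le_div_iff₀ (by positivity)]
      have a4 : (((φ c).2 * h ^ 2 * rad (Pr (φ c).1) : ℕ) : ℝ) ≤ (6 * cond c : ℕ) := by
        exact_mod_cast a3
      have a5 := (hF c (hF' hc)).2
      push_cast at a4 ⊢
      linarith
    rw [card_image_of_injOn inj] at h1
    have h2 : (6 * X / h ^ 2 : ℝ) ^ (2 / 3 : ℝ) = (6 * X) ^ (2 / 3 : ℝ) * (h : ℝ) ^ (-(4 / 3) : ℝ) := by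
      rw [div_rpow (by positivity) (by positivity), rpow_neg hh.le, ← rpow_natCast, ← rpow_mul hh.le,
        div_eq_mul_inv]
      norm_num
    refine h1.trans ?_
    rw [h2, mul_assoc]
    exact mul_le_mul_of_nonneg_right (le_abs_self C) (by positivity)

end Pool.Agent.Lib.CR
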