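import Pool.Agent.Lib.CR.Util

/-! A zero lemma for polynomial multiples of powers (Casoratian argument). -/

set_option autoImplicit false

namespace Pool.Agent.Lib.CR.T66

open Polynomial

theorem casorati_ne {F : Type} [Field F] {D K : ℕ} (q : Fin D → F[X]) (U : F) (hU : U ≠ 0)
    (hinj : Function.Injective fun l : Fin D => U ^ (l : ℕ)) (hq : ∀ l, q l ≠ 0)
    (hK : ∀ l, (q l).natDegree ≤ K) :
    (Matrix.of fun j l : Fin D => C ((U ^ (l : ℕ)) ^ (j : ℕ)) * taylor ((j : ℕ) : F) (q l)).det ≠ 0 ∧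
    (Matrix.of fun j l : Fin D =>
      C ((U ^ (l : ℕ)) ^ (j : ℕ)) * taylor ((j : ℕ) : F) (q l)).det.natDegree ≤ D * K := by
  have c0 : ∀ j l : Fin D, (U ^ (l : ℕ)) ^ (j : ℕ) ≠ 0 := fun j l => pow_ne_zero _ (pow_ne_zero _ hU)
  have t0 : ∀ (a : F) l, taylor a (q l) ≠ 0 := fun a l h => hq l (taylor_injective a (by simpa using h))
  have dg : ∀ σ : Equiv.Perm (Fin D), (∏ l : Fin D, C ((U ^ (l : ℕ)) ^ (σ l : ℕ)) *
      taylor ((σ l : ℕ) : F) (q l)).natDegree = ∑ l, (q l).natDegree := fun σ => by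
    rw [natDegree_prod _ _ fun l _ => mul_ne_zero (C_ne_zero.2 (c0 _ _)) (t0 _ _)]
    exact Finset.sum_congr rfl fun l _ => by rw [natDegree_C_mul (c0 _ _), natDegree_taylor]
  constructor
  · intro h
    have e := congrArg (fun p : F[X] => p.coeff (∑ l, (q l).natDegree)) h
    simp only [Matrix.det_apply', Matrix.of_apply, finsetSum_coeff, coeff_zero] at e
    have v := (Matrix.det_vandermonde_ne_zero_iff (v := fun l : Fin D => U ^ (l : ℕ))).2 hinj
    rw [← Matrix.det_transpose, Matrix.det_apply'] at v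
    refine mul_ne_zero v (Finset.prod_ne_zero_iff (s := Finset.univ).2 fun l _ =>
      leadingCoeff_ne_zero.2 (hq l)) ?_
    rw [Finset.sum_mul, ← e]
    refine Finset.sum_congr rfl fun σ _ => ?_
    rw [← C_eq_intCast, coeff_C_mul, ← dg σ, coeff_natDegree, leadingCoeff_prod, mul_assoc,
      ← Finset.prod_mul_distrib]
    simp only [Matrix.transpose_apply, Matrix.vandermonde_apply, leadingCoeff_mul, leadingCoeff_C,
      leadingCoeff_taylor]
  · rw [Matrix.det_apply']
    refine natDegree_sum_le_of_forall_le _ _ fun σ _ => ?_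
    rw [← C_eq_intCast]
    refine (natDegree_C_mul_le _ _).trans ?_
    simp only [Matrix.of_apply]
    rw [dg σ]
    simpa using Finset.sum_le_card_nsmul Finset.univ _ K fun l _ => hK l

/-- The zero lemma. -/
theorem zero_lemma {F : Type} [Field F] [CharZero F] {D K R S E : ℕ} (q : Fin D → F[X])
    (U ρ : F) (hU : U ≠ 0) (hρ : ρ ≠ 0) (hinj : Function.Injective fun l : Fin D => U ^ (l : ℕ))
    (hK : ∀ l, (q l).natDegree ≤ K) (hRE : R ≤ E) (hN : D * K < R * S)
    (h : ∀ r < R + D, ∀ s < S,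
      ∑ l, (q l).eval ((r + s * E : ℕ) : F) * (U ^ r * ρ ^ s) ^ (l : ℕ) = 0) (l₀ : Fin D) :
    q l₀ = 0 := by
  classical
  by_contra h0
  obtain ⟨n1, n2⟩ := casorati_ne (K := K) (fun l => if q l = 0 then 1 else q l) U hU hinj
    (fun l => by split_ifs with h; exacts [one_ne_zero, h])
    (fun l => by split_ifs with h; exacts [by simp, hK l])
  refine n1 (eq_zero_of_natDegree_lt_card_of_eval_eq_zero _
    (f := fun p : Fin R × Fin S => (((p.1 : ℕ) + (p.2 : ℕ) * E : ℕ) : F)) ?_ ?_ ?_)
  · rintro ⟨r, s⟩ ⟨r', s'⟩ e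
    have e' : (r : ℕ) + (s : ℕ) * E = r' + s' * E := Nat.cast_injective (R := F) e
    have a := congrArg (· % E) e'
    simp only [Nat.add_mul_mod_self_right, Nat.mod_eq_of_lt (r.2.trans_le hRE),
      Nat.mod_eq_of_lt (r'.2.trans_le hRE)] at a
    rw [a, add_right_inj, Nat.mul_left_inj (by have := r.2; omega)] at e'
    exact Prod.ext (Fin.ext a) (Fin.ext e')
  · rintro ⟨r, s⟩
    rw [← coe_evalRingHom, RingHom.map_det]
    refine Matrix.exists_mulVec_eq_zero_iff.1
      ⟨fun l => if q l = 0 then 0 else (U ^ (r : ℕ) * ρ ^ (s : ℕ)) ^ (l : ℕ), fun e => ?_, ?_⟩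
    · have := congrFun e l₀
      simp only [if_neg h0, Pi.zero_apply] at this
      exact pow_ne_zero _ (mul_ne_zero (pow_ne_zero _ hU) (pow_ne_zero _ hρ)) this
    · funext j
      rw [Matrix.mulVec, dotProduct]
      refine Eq.trans (Finset.sum_congr rfl fun l _ => ?_)
        (h (r + j) (by have := r.2; have := j.2; omega) s s.2)
      simp only [RingHom.mapMatrix_apply, Matrix.map_apply, Matrix.of_apply, coe_evalRingHom,
        eval_mul, eval_C, taylor_eval]
      split_ifs with hl
      · simp [hl]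
      · push_cast
        rw [add_right_comm]
        ring
  · simpa using n2.trans_lt hN

end Pool.Agent.Lib.CR.T66

namespace Pool.Agent.Lib.CR

open Polynomial

theorem st_ZL : St_ZL := by
  intro D K R S E U ρ p hU hU1 hρ hRE hN h
  funext k l
  have hk := k.2
  have hl := l.2
  have z := T66.zero_lemma (K := K - 1) (fun l => ∑ k : Fin K, monomial (k : ℕ) (p k l)) U ρ hU.ne'
    hρ.ne' (fun a b e => Fin.ext (pow_right_injective₀ hU hU1 e))
    (fun l => natDegree_sum_le_of_forall_le _ _ fun k _ =>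
      (natDegree_monomial_le _).trans (by have := k.2; omega)) hRE
    (lt_of_lt_of_le (Nat.mul_lt_mul_of_pos_left (by omega) (by omega)) hN)
    (fun r hr s hs => by
      rw [← h r hr s hs, Finset.sum_comm]
      simp only [eval_finsetSum, eval_monomial, Finset.sum_mul]) l
  have c := congrArg (fun q : ℚ[X] => q.coeff k) z
  simp only [finsetSum_coeff, coeff_monomial, coeff_zero, Fin.val_inj, Finset.sum_ite_eq',
    Finset.mem_univ, if_true] at c
  exact c

end Pool.Agent.Lib.CR
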