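import Pool.Agent.Lib.CR.Util
import Pool.Agent.Lib.MP_6073f3_nt.Z.Final

/-! Project cr: the curves with full 2-torsion ordered by the conductor. -/

open Finset Real

noncomputable section

namespace Pool.Agent.Lib.CR

open Pool.Agent.Lib.TorsRank Pool.Agent.Lib.RankZero

/-- A set all of whose finite subsets have bounded cardinality is finite. -/
theorem finite_of_bdd {α : Type} {s : Set α} {b : ℝ}
    (h : ∀ F : Finset α, (∀ x ∈ F, x ∈ s) → (#F : ℝ) ≤ b) : s.Finite ∧ (s.ncard : ℝ) ≤ b := by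
  have hf : s.Finite := by
    by_contra hi
    obtain ⟨F, hF, hc⟩ := Set.Infinite.exists_subset_card_eq hi (⌈b⌉₊ + 1)
    have h1 := h F fun x hx => hF hx
    rw [hc] at h1
    push_cast at h1
    linarith [Nat.le_ceil b]
  refine ⟨hf, ?_⟩
  rw [Set.ncard_eq_toFinset_card _ hf]
  exact h _ fun x hx => hf.mem_toFinset.1 hx

theorem low (hP : St_PAR) (K : ℕ) : ∃ c : ℝ, 0 < c ∧ ∃ X₀ : ℕ, ∀ X ≥ X₀, ∀ s : Set (ℤ × ℤ),
    s.Finite → (∀ v, Fam v → K * cond v ≤ X → Finite (curve v).Point → v ∈ s) →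
    c * (X : ℝ) ^ (2 / 3 : ℝ) ≤ s.ncard := by
  obtain ⟨c, hc, N₀, h⟩ := many_good
  obtain ⟨n, hn⟩ := good_le
  set k : ℕ := 2 * (K + 1) * 54 ^ 3 with hk
  have hk0 : 0 < k := by positivity
  refine ⟨c / ((n + 1) * (8 * k)), by positivity, k * (N₀ + 1) ^ 3, fun X hX s hs hv => ?_⟩
  have h1 := Nat.pow_nthRoot_le (n := 3) (a := X / k) (Or.inl (by norm_num))
  have h2 := Nat.lt_pow_nthRoot_add_one (n := 3) (by norm_num) (X / k)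
  set z := Nat.nthRoot 3 (X / k)
  have h3 : (N₀ + 1) ^ 3 ≤ X / k := (Nat.le_div_iff_mul_le hk0).2 (by rw [mul_comm]; exact hX)
  have h4 := lt_of_pow_lt_pow_left₀ 3 (Nat.zero_le _) (h3.trans_lt h2)
  have h5 : z ^ 3 * k ≤ X := (Nat.le_div_iff_mul_le hk0).1 h1
  have h6 : X < (z + 1) ^ 3 * k := (Nat.div_lt_iff_lt_mul hk0).1 h2
  have h7 := (h z (by omega)).trans (Nat.cast_le.2 (hn ((54 * z) ^ 6) z le_rfl))
  have h8 : {c ∈ famS 2 2 ((54 * z) ^ 6) | Finite (Pt 0 c.1 c.2)}.ncard ≤ s.ncard := by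
    refine Set.ncard_le_ncard (fun v hv' => ?_) hs
    obtain ⟨⟨a1, a2, a3, a4⟩, a5⟩ := hv'
    have hF : Fam v := ⟨a1, a2, a4⟩
    refine hv v hF ?_ a5
    have b1 := (hP v hF).1
    obtain ⟨b2, b3⟩ := max_le_iff.1 a3
    have b4 : ((4 * v.1 ^ 3 + 27 * v.2 ^ 2).natAbs : ℤ) ≤ 2 * ((54 * z) ^ 6 : ℕ) := by
      rw [Int.natCast_natAbs]
      refine (abs_add_le _ _).trans ?_
      rw [abs_mul, abs_pow, abs_of_nonneg (by positivity : (0 : ℤ) ≤ 27 * v.2 ^ 2),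
        abs_of_pos (by norm_num : (0 : ℤ) < 4)]
      linarith
    have b5 : cond v ^ 2 ≤ (2 * (54 * z) ^ 3) ^ 2 := by
      have : (4 * v.1 ^ 3 + 27 * v.2 ^ 2).natAbs ≤ 2 * (54 * z) ^ 6 := by exact_mod_cast b4
      calc _ ≤ 2 * (54 * z) ^ 6 := b1.trans this
        _ ≤ 4 * (54 * z) ^ 6 := by gcongr; norm_num
        _ = _ := by ring
    have b6 := le_of_pow_le_pow_left₀ two_ne_zero (Nat.zero_le _) b5
    calc K * cond v ≤ (K + 1) * (2 * (54 * z) ^ 3) := by gcongr; omega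
      _ = z ^ 3 * k := by rw [hk]; ring
      _ ≤ X := h5
  have hz : (1 : ℝ) ≤ z := by exact_mod_cast (by omega : 1 ≤ z)
  have hk1 : (1 : ℝ) ≤ k := by exact_mod_cast hk0
  have h9 : (X : ℝ) ^ (2 / 3 : ℝ) ≤ 8 * k * z ^ 2 := by
    have e1 : (X : ℝ) ≤ (2 * z) ^ 3 * k := by
      have : (X : ℝ) ≤ (z + 1) ^ 3 * k := by exact_mod_cast h6.le
      exact this.trans (by gcongr; linarith)
    have e2 : (X : ℝ) ^ (2 : ℕ) ≤ (8 * (k : ℝ) * (z : ℝ) ^ (2 : ℕ)) ^ (3 : ℕ) := by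
      calc (X : ℝ) ^ (2 : ℕ) ≤ ((2 * (z : ℝ)) ^ (3 : ℕ) * k) ^ (2 : ℕ) := by gcongr
        _ = 64 * (k : ℝ) ^ (2 : ℕ) * (z : ℝ) ^ (6 : ℕ) * 1 := by ring
        _ ≤ 64 * (k : ℝ) ^ (2 : ℕ) * (z : ℝ) ^ (6 : ℕ) * (8 * k) := by gcongr; linarith
        _ = _ := by ring
    refine le_of_pow_le_pow_left₀ three_ne_zero (by positivity) (le_of_eq_of_le ?_ e2)
    rw [← rpow_natCast, ← rpow_mul (Nat.cast_nonneg _)]
    norm_num
  have h10 : (({c ∈ famS 2 2 ((54 * z) ^ 6) | Finite (Pt 0 c.1 c.2)}.ncard : ℕ) : ℝ) ≤ s.ncard := by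
    exact_mod_cast h8
  push_cast at h7
  rw [div_mul_eq_mul_div, div_le_iff₀ (by positivity)]
  calc c * (X : ℝ) ^ (2 / 3 : ℝ) ≤ c * (8 * k * z ^ 2) := by gcongr
    _ = (c * z ^ 2) * (8 * k) := by ring
    _ ≤ (n * s.ncard) * (8 * k) :=
      mul_le_mul_of_nonneg_right (h7.trans (by gcongr)) (by positivity)
    _ ≤ ((n + 1) * s.ncard) * (8 * k) := by gcongr; linarith
    _ = _ := by ring

theorem main_of (hP : St_PAR) (hU : St_UP) (K : ℕ) : ∃ c₁ c₂ δ : ℝ, 0 < c₁ ∧ 0 < δ ∧ ∃ X₀ : ℕ,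
    ∀ N : ℤ × ℤ → ℕ, (∀ v, Fam v → cond v ≤ N v ∧ N v ≤ K * cond v) →
    (∀ X : ℕ, {v | Fam v ∧ N v ≤ X}.Finite) ∧ ∀ X ≥ X₀,
      c₁ * (X : ℝ) ^ (2 / 3 : ℝ) ≤ {v | Fam v ∧ N v ≤ X}.ncard ∧
      ({v | Fam v ∧ N v ≤ X}.ncard : ℝ) ≤ c₂ * (X : ℝ) ^ (2 / 3 : ℝ) ∧
      δ * {v | Fam v ∧ N v ≤ X}.ncard ≤
        {v ∈ {v | Fam v ∧ N v ≤ X} | Finite (curve v).Point}.ncard := by
  obtain ⟨C, hC⟩ := hU
  obtain ⟨c, hc, X₀, h⟩ := low hP K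
  refine ⟨c, |C| + 1, c / (|C| + 1), hc, by positivity, X₀, fun N hN => ?_⟩
  have hf (X : ℕ) := finite_of_bdd (s := {v | Fam v ∧ N v ≤ X}) fun F hF =>
    hC X F (Nat.cast_nonneg _) fun v hv =>
      ⟨(hF v hv).1, by exact_mod_cast (hN v (hF v hv).1).1.trans (hF v hv).2⟩
  refine ⟨fun X => (hf X).1, fun X hX => ?_⟩
  have h1 : ({v | Fam v ∧ N v ≤ X}.ncard : ℝ) ≤ (|C| + 1) * (X : ℝ) ^ (2 / 3 : ℝ) :=
    (hf X).2.trans (by gcongr; linarith [le_abs_self C])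
  have h2 := h X hX {v ∈ {v | Fam v ∧ N v ≤ X} | Finite (curve v).Point}
    ((hf X).1.subset (Set.sep_subset _ _)) fun v a1 a2 a3 => ⟨⟨a1, (hN v a1).2.trans a2⟩, a3⟩
  refine ⟨h X hX _ (hf X).1 fun v a1 a2 _ => ⟨a1, (hN v a1).2.trans a2⟩, h1, ?_⟩
  refine le_trans ?_ h2
  rw [div_mul_eq_mul_div, div_le_iff₀ (by positivity), mul_assoc, mul_comm _ (|C| + 1)]
  gcongr

end Pool.Agent.Lib.CR
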