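import Pool.Agent.Lib.CR.B_C1
import Pool.Agent.Lib.CR.B_CA
import Pool.Agent.Lib.CR.B_CB
import Pool.Agent.Lib.CR.B_CB0
import Pool.Agent.Lib.CR.B_CELL
import Pool.Agent.Lib.CR.B_COL
import Pool.Agent.Lib.CR.B_CS
import Pool.Agent.Lib.CR.B_CU
import Pool.Agent.Lib.CR.B_DIR
import Pool.Agent.Lib.CR.B_DIV
import Pool.Agent.Lib.CR.B_DU
import Pool.Agent.Lib.CR.B_EXT
import Pool.Agent.Lib.CR.B_GAP
import Pool.Agent.Lib.CR.B_KNAP
import Pool.Agent.Lib.CR.B_LAT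
import Pool.Agent.Lib.CR.B_ML
import Pool.Agent.Lib.CR.B_NS
import Pool.Agent.Lib.CR.B_PAR
import Pool.Agent.Lib.CR.B_R2
import Pool.Agent.Lib.CR.B_R2b
import Pool.Agent.Lib.CR.B_R3
import Pool.Agent.Lib.CR.B_RC
import Pool.Agent.Lib.CR.B_REPB
import Pool.Agent.Lib.CR.B_REPU
import Pool.Agent.Lib.CR.B_RK
import Pool.Agent.Lib.CR.B_T2
import Pool.Agent.Lib.CR.B_T3
import Pool.Agent.Lib.CR.B_TL
import Pool.Agent.Lib.CR.B_UP
import Pool.Agent.Lib.CR.B_W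
import Pool.Agent.Lib.CR.B_ZL
import Pool.Agent.Lib.CR.Main
import Pool.Agent.Lib.SX.Final

/-! Project cr: assembly. -/

namespace Pool.Agent.Lib.CR

theorem abc : St_ABC := Pool.Agent.SX.abc

theorem gap : St_GAP := st_GAP st_CELL

theorem t3 : St_T3 := st_T3 (st_T2 (st_TL st_ZL st_EXT) st_COL) gap

theorem ml : St_ML := st_ML st_KNAP

theorem r3 : St_R3 :=
  st_R3 abc (st_CA gap st_W) (st_CU ml st_REPU t3 st_W)
    (st_CB (st_CB0 st_CELL (st_REPB st_DIR) t3 st_W) ml) st_DU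

/-- The number of pairs (coprime triple, divisor `g` of the radical `R`) with `g R ≤ Y` is
`O(Y ^ (2 / 3))`. -/
theorem ns : St_NS :=
  st_NS abc (st_C1 st_LAT st_RK st_DIV) (st_R2 (st_RC st_RK) st_DIV st_CS) (st_R2b (st_RC st_RK)) r3
    st_DIV

theorem up : St_UP := st_UP st_PAR ns

end Pool.Agent.Lib.CR
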