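import Pool.Agent.Lib.CR.Util

/-! Project cr, row C1. -/

open Finset Real

namespace Pool.Agent.Lib.CR

namespace T7c

theorem dd_pos (g n : ℕ) : 0 < dd g n :=
  prod_pos fun _ hp => pow_pos (Nat.prime_of_mem_primeFactors (mem_filter.1 hp).1).pos _

theorem dd_dvd (g : ℕ) {n : ℕ} (hn : n ≠ 0) : dd g n ∣ n := by
  conv_rhs => rw [← Nat.prod_factorization_pow_eq_self hn]
  exact prod_dvd_prod_of_subset _ _ _ (filter_subset _ _)

theorem dd_mul (g : ℕ) {a b : ℕ} (h : a.Coprime b) :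
    dd g (a * b) = dd g a * dd g b := by
  have e1 : ∀ p ∈ a.primeFactors, (a * b).factorization p = a.factorization p := fun p hp =>
    Nat.factorization_eq_of_coprime_left h (Nat.mem_primeFactors_iff_mem_primeFactorsList.1 hp)
  have e2 : ∀ p ∈ b.primeFactors, (a * b).factorization p = b.factorization p := fun p hp =>
    Nat.factorization_eq_of_coprime_right h (Nat.mem_primeFactors_iff_mem_primeFactorsList.1 hp)
  rw [dd, dd, dd, prod_filter, prod_filter, prod_filter, h.primeFactors_mul,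
    prod_union h.disjoint_primeFactors]
  congr 1
  · exact prod_congr rfl fun p hp => by rw [e1 p hp]
  · exact prod_congr rfl fun p hp => by rw [e2 p hp]

theorem dvd_dd {g n : ℕ} (hg : g ∣ rad n) : g ∣ dd g n := by
  have hs : Squarefree g := (Finset.squarefree_prod_of_pairwise_isCoprime
    (fun p hp q hq hpq => Nat.coprime_iff_isRelPrime.1
      ((Nat.coprime_primes (Nat.prime_of_mem_primeFactors hp)
        (Nat.prime_of_mem_primeFactors hq)).2 hpq))
    (fun p hp => (Nat.prime_of_mem_primeFactors hp).squarefree)).squarefree_of_dvd hg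
  rw [← Nat.prod_primeFactors_of_squarefree hs]
  refine Finset.prod_primes_dvd _ (fun p hp => (Nat.prime_of_mem_primeFactors hp).prime)
    fun p hp => ?_
  have h1 : p ∈ n.primeFactors := by
    rw [← primeFactors_rad]
    exact Nat.primeFactors_mono hg (rad_pos n).ne' hp
  have h2 : 0 < n.factorization p := Nat.pos_of_ne_zero (by
    rw [← Finsupp.mem_support_iff, Nat.support_factorization]; exact h1)
  rw [Nat.prod_primeFactors_of_squarefree hs]
  exact (dvd_pow_self p h2.ne').trans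
    (dvd_prod_of_mem _ (mem_filter.2 ⟨h1, Or.inr (Nat.dvd_of_mem_primeFactors hp)⟩))

theorem key {g n : ℕ} (hn : n ≠ 0) (hg : 0 < g) :
    n ^ 4 * rad (dd g n) ^ 6 ≤ (g * rad n) ^ 4 * dd g n ^ 5 := by
  have h1 : rad (dd g n) ≤ ∏ p ∈ n.primeFactors,
      if 2 ≤ n.factorization p ∨ p ∣ g then p else 1 := by
    rw [← prod_filter]
    refine Nat.le_of_dvd (prod_pos fun p hp =>
      (Nat.prime_of_mem_primeFactors (mem_filter.1 hp).1).pos)
      (prod_dvd_prod_of_subset _ _ _ fun p hp' => ?_)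
    have hp := Nat.prime_of_mem_primeFactors hp'
    obtain ⟨q, hq, hd⟩ :=
      (Prime.dvd_finsetProd_iff hp.prime _).1 (Nat.dvd_of_mem_primeFactors hp')
    have := (Nat.prime_dvd_prime_iff_eq hp
      (Nat.prime_of_mem_primeFactors (mem_filter.1 hq).1)).1 (hp.dvd_of_dvd_pow hd)
    exact this ▸ hq
  have h2 : (∏ p ∈ n.primeFactors, if p ∣ g then p else 1) ≤ g := by
    rw [← prod_filter]
    exact Nat.le_of_dvd hg (Finset.prod_primes_dvd _
      (fun p hp => (Nat.prime_of_mem_primeFactors (mem_filter.1 hp).1).prime)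
      fun p hp => (mem_filter.1 hp).2)
  have h3 : n = ∏ p ∈ n.primeFactors, p ^ n.factorization p :=
    (Nat.prod_factorization_pow_eq_self hn).symm
  calc n ^ 4 * rad (dd g n) ^ 6
      ≤ (∏ p ∈ n.primeFactors, p ^ n.factorization p) ^ 4 * (∏ p ∈ n.primeFactors,
        if 2 ≤ n.factorization p ∨ p ∣ g then p else 1) ^ 6 := by
        rw [← h3]
        gcongr
    _ ≤ ((∏ p ∈ n.primeFactors, if p ∣ g then p else 1) * rad n) ^ 4 * dd g n ^ 5 := by
        rw [rad, dd, prod_filter, ← prod_mul_distrib, ← prod_pow, ← prod_pow, ← prod_pow,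
          ← prod_pow, ← prod_mul_distrib, ← prod_mul_distrib]
        refine prod_le_prod' fun p hp => ?_
        have p1 := (Nat.prime_of_mem_primeFactors hp).pos
        have p2 : 0 < n.factorization p := Nat.pos_of_ne_zero (by
          rw [← Finsupp.mem_support_iff, Nat.support_factorization]; exact hp)
        by_cases q1 : p ∣ g
        · simp only [q1, or_true, if_true, ← pow_two, ← pow_mul, ← pow_add]
          exact Nat.pow_le_pow_right p1 (by omega)
        · by_cases q2 : 2 ≤ n.factorization p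
          · simp only [q1, q2, true_or, if_true, if_false, one_mul, ← pow_mul, ← pow_add]
            exact Nat.pow_le_pow_right p1 (by omega)
          · have : n.factorization p = 1 := by omega
            simp [q1, this]
    _ ≤ _ := by gcongr

theorem le_Z {P Y D r : ℝ} (hY : 0 ≤ Y) (hD : 0 < D) (hr : 0 < r)
    (h : P ^ 4 * r ^ 6 ≤ Y ^ 4 * D ^ 5) : P ≤ Y * (D ^ (5 / 6 : ℝ) / r) ^ (3 / 2 : ℝ) := by
  refine le_of_pow_le_pow_left₀ (n := 4) (by norm_num) (by positivity) ?_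
  have e : ((D ^ (5 / 6 : ℝ) / r) ^ (3 / 2 : ℝ)) ^ 4 = D ^ 5 / r ^ 6 := by
    rw [← Real.rpow_natCast, ← Real.rpow_mul (by positivity)]
    rw [show (3 / 2 : ℝ) * (4 : ℕ) = (6 : ℕ) by norm_num, Real.rpow_natCast, div_pow,
      ← Real.rpow_natCast (D ^ _), ← Real.rpow_mul hD.le,
      show (5 / 6 : ℝ) * (6 : ℕ) = (5 : ℕ) by norm_num, Real.rpow_natCast]
  rw [mul_pow, e, ← mul_div_assoc, le_div_iff₀ (by positivity)]
  exact h

end T7c

open T7c in
theorem st_C1 (hL : St_LAT) (hK : St_RK) (hD : St_DIV) : St_C1 := by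
  obtain ⟨CL, hCL, hL⟩ := hL
  obtain ⟨CK, hK⟩ := hK (1 / 12) (by norm_num)
  obtain ⟨CD, hCD, hD⟩ := hD (1 / 12) (by norm_num)
  refine ⟨CL * CD * CK ^ 3, fun Y F hY hF => ?_⟩
  set f : ℕ → ℝ := fun n => (n : ℝ) ^ (-(1 / 12 : ℝ)) / rad n with hf
  set U : Finset ℕ := F.biUnion fun v =>
    {dd v.2 v.1.1, dd v.2 v.1.2, dd v.2 (v.1.1 + v.1.2)} with hU
  have hU0 : 0 ∉ U := fun h => by
    obtain ⟨v, -, hv⟩ := mem_biUnion.1 h
    simp only [mem_insert, mem_singleton] at hv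
    rcases hv with h | h | h <;> exact (dd_pos _ _).ne h
  have h1 := card_le_classes F (U ×ˢ U ×ˢ U)
    (fun v y => (dd v.2 v.1.1, dd v.2 v.1.2, dd v.2 (v.1.1 + v.1.2)) = y)
    (fun y => CL * CD * Y ^ (2 / 3 : ℝ) * (f y.1 * (f y.2.1 * f y.2.2)))
    (fun v hv => ⟨_, by
      simp only [mem_product]
      refine ⟨?_, ?_, ?_⟩ <;> exact mem_biUnion.2 ⟨v, hv, by simp⟩, rfl⟩) ?_
  · refine h1.trans ?_
    have e : ∑ y ∈ U ×ˢ U ×ˢ U, f y.1 * (f y.2.1 * f y.2.2) = (∑ n ∈ U, f n) ^ 3 := by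
      rw [sum_product]
      simp only [← mul_sum, ← sum_mul]
      rw [sum_product]
      simp only [← mul_sum, ← sum_mul]
      ring
    rw [← mul_sum, e]
    have h2 : ∑ n ∈ U, f n ≤ CK := hK U hU0
    have h3 : 0 ≤ ∑ n ∈ U, f n := sum_nonneg fun n _ => by positivity
    calc _ ≤ CL * CD * Y ^ (2 / 3 : ℝ) * CK ^ 3 := by gcongr
      _ = _ := by ring
  · rintro ⟨D₁, D₂, D₃⟩ - F' hF' hy
    rcases F'.eq_empty_or_nonempty with rfl | ⟨v₀, hv₀⟩
    · simp only [card_empty, Nat.cast_zero]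
      positivity
    simp only [Prod.mk.injEq] at hy
    have hdd : ∀ v ∈ F', dd v.2 (Pr v.1) = D₁ * D₂ * D₃ := fun v hv => by
      obtain ⟨a1, -⟩ := hF v (hF' hv)
      obtain ⟨b1, b2, b3⟩ := hy v hv
      rw [Pr, dd_mul _ (Nat.Coprime.mul_left a1.cop13 a1.cop23), dd_mul _ a1.cop12, b1, b2, b3]
    have hdv : ∀ v ∈ F', D₁ ∣ v.1.1 ∧ D₂ ∣ v.1.2 ∧ D₃ ∣ v.1.1 + v.1.2 := fun v hv => by
      obtain ⟨a1, -⟩ := hF v (hF' hv)
      obtain ⟨b1, b2, b3⟩ := hy v hv
      exact ⟨b1 ▸ dd_dvd _ a1.pos1.ne', b2 ▸ dd_dvd _ a1.pos2.ne', b3 ▸ dd_dvd _ a1.pos3.ne'⟩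
    have t0 := (hF v₀ (hF' hv₀)).1
    obtain ⟨d1, d2, d3⟩ := hdv v₀ hv₀
    have p1 : 0 < D₁ := Nat.pos_of_dvd_of_pos d1 t0.pos1
    have p2 : 0 < D₂ := Nat.pos_of_dvd_of_pos d2 t0.pos2
    have p3 : 0 < D₃ := Nat.pos_of_dvd_of_pos d3 t0.pos3
    have hrad : rad (D₁ * D₂ * D₃) = rad D₁ * rad D₂ * rad D₃ := by
      rw [rad_mul (Nat.Coprime.mul_left
          (Nat.Coprime.coprime_dvd_left d1 (t0.cop13.coprime_dvd_right d3))
          (Nat.Coprime.coprime_dvd_left d2 (t0.cop23.coprime_dvd_right d3))),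
        rad_mul (Nat.Coprime.coprime_dvd_left d1 (t0.cop12.coprime_dvd_right d2))]
    set D := D₁ * D₂ * D₃ with hDD
    have pD : 0 < D := by positivity
    have pD' : (0 : ℝ) < D := by exact_mod_cast pD
    have pr : (0 : ℝ) < rad D := by exact_mod_cast rad_pos D
    have h2 := hL D₁ D₂ D₃ (Y * ((D : ℝ) ^ (5 / 6 : ℝ) / rad D) ^ (3 / 2 : ℝ))
      (F'.image Prod.fst) (by positivity) fun t ht => by
        obtain ⟨v, hv, rfl⟩ := mem_image.1 ht
        obtain ⟨a1, a2, a3, a4⟩ := hF v (hF' hv)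
        obtain ⟨b1, b2, b3⟩ := hdv v hv
        refine ⟨a1, b1, b2, b3, (hdd v hv).symm.trans_le a4, le_Z hY pD' pr ?_⟩
        have k := key a1.Pr_pos.ne' (Nat.pos_of_dvd_of_pos a2 (rad_pos _))
        rw [hdd v hv] at k
        have k' : (Pr v.1 : ℝ) ^ 4 * (rad D : ℝ) ^ 6 ≤
            ((v.2 * rad (Pr v.1) : ℕ) : ℝ) ^ 4 * (D : ℝ) ^ 5 := by exact_mod_cast k
        exact k'.trans (by gcongr)
    rw [Real.mul_rpow hY (by positivity), ← Real.rpow_mul (by positivity),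
      show (3 / 2 : ℝ) * (2 / 3) = 1 by norm_num, Real.rpow_one, ← hDD] at h2
    have h3 : #F' ≤ #(F'.image Prod.fst ×ˢ D.divisors) := card_le_card fun v hv =>
      mem_product.2 ⟨mem_image_of_mem _ hv, Nat.mem_divisors.2
        ⟨hdd v hv ▸ dvd_dd (hF v (hF' hv)).2.1, pD.ne'⟩⟩
    rw [card_product] at h3
    have h4 : (#F' : ℝ) ≤ #(F'.image Prod.fst) * #D.divisors := by exact_mod_cast h3
    have h5 := (hD D pD).1
    have h6 : f D₁ * (f D₂ * f D₃) = (D : ℝ) ^ (-(1 / 12 : ℝ)) / rad D := by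
      simp only [hf]
      rw [hrad, hDD, Nat.cast_mul, Nat.cast_mul, Real.mul_rpow (by positivity) (by positivity),
        Real.mul_rpow (by positivity) (by positivity)]
      push_cast
      ring
    have h7 : (D : ℝ) ^ (5 / 6 : ℝ) * (D : ℝ) ^ (1 / 12 : ℝ) = (D : ℝ) ^ (-(1 / 12 : ℝ)) * D := by
      rw [← Real.rpow_add pD', ← Real.rpow_add_one pD'.ne']
      norm_num
    simp only
    rw [h6]
    refine le_of_mul_le_mul_right ?_ pD'
    calc (#F' : ℝ) * D ≤ #(F'.image Prod.fst) * (CD * (D : ℝ) ^ (1 / 12 : ℝ)) * D := by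
          gcongr
          exact h4.trans (by gcongr)
      _ = #(F'.image Prod.fst) * D * (CD * (D : ℝ) ^ (1 / 12 : ℝ)) := by ring
      _ ≤ CL * (Y ^ (2 / 3 : ℝ) * ((D : ℝ) ^ (5 / 6 : ℝ) / rad D)) *
          (CD * (D : ℝ) ^ (1 / 12 : ℝ)) := by gcongr
      _ = CL * CD * Y ^ (2 / 3 : ℝ) *
          ((D : ℝ) ^ (5 / 6 : ℝ) * (D : ℝ) ^ (1 / 12 : ℝ)) / rad D := by ring
      _ = _ := by rw [h7]; ring

end Pool.Agent.Lib.CR
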