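import Pool.Agent.Lib.CR.Util

/-! Project cr, row LAT. -/

open Finset Real

namespace Pool.Agent.Lib.CR

namespace T7

theorem lat_box (D₁ D₂ D₃ : ℕ) (T s : ℝ) (hT : 0 < T) (hs : 0 ≤ s) (F : Finset (ℕ × ℕ))
    (hF : ∀ t ∈ F, Tr t ∧ D₁ ∣ t.1 ∧ D₂ ∣ t.2 ∧ D₃ ∣ t.1 + t.2 ∧
      D₁ * D₂ * D₃ ≤ 4 * t.1 * t.2 ∧ T ≤ t.2 ∧ (t.2 : ℝ) ≤ 2 * T ∧ (t.1 : ℝ) ≤ s) :
    (#F : ℝ) * (D₁ * D₂ * D₃ : ℕ) ≤ 12 * (s * T) := by
  rcases F.eq_empty_or_nonempty with rfl | ⟨t₀, ht₀⟩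
  · simp only [card_empty, Nat.cast_zero, zero_mul]
    positivity
  set D := D₁ * D₂ * D₃ with hD
  obtain ⟨h1, h2, h3, h4, h5, h6, h7, h8⟩ := hF t₀ ht₀
  have hD0 : 0 < D := Nat.mul_pos (Nat.mul_pos (Nat.pos_of_dvd_of_pos h2 h1.pos1)
    (Nat.pos_of_dvd_of_pos h3 h1.pos2)) (Nat.pos_of_dvd_of_pos h4 h1.pos3)
  have hD' : (0 : ℝ) < D := by exact_mod_cast hD0
  have hD8 : (D : ℝ) ≤ 8 * (s * T) := by
    have e : (D : ℝ) ≤ 4 * t₀.1 * t₀.2 := by exact_mod_cast h5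
    have e2 : (t₀.1 : ℝ) * t₀.2 ≤ s * (2 * T) := by gcongr
    linarith
  set φ : ℕ × ℕ → ℝ := fun t => (t.1 : ℝ) / t.2 * (4 * T ^ 2 / D) with hφ
  have φ0 : ∀ t, 0 ≤ φ t := fun t => by positivity
  have hinj : Set.InjOn (fun t => ⌊φ t⌋₊) F := by
    intro t ht u hu h
    obtain ⟨a1, a2, a3, a4, -, a6, a7, -⟩ := hF t ht
    obtain ⟨b1, b2, b3, b4, -, b6, b7, -⟩ := hF u hu
    have h' : (⌊φ t⌋₊ : ℝ) = ⌊φ u⌋₊ := by exact_mod_cast h
    have c1 : |φ t - φ u| < 1 := by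
      rw [abs_lt]
      constructor <;> linarith [Nat.floor_le (φ0 t), Nat.floor_le (φ0 u),
        Nat.lt_floor_add_one (φ t), Nat.lt_floor_add_one (φ u)]
    have tb : (0 : ℝ) < t.2 := hT.trans_le a6
    have ub : (0 : ℝ) < u.2 := hT.trans_le b6
    have c2 : (t.1 : ℝ) * u.2 - u.1 * t.2 = (φ t - φ u) * (D * (t.2 * u.2 / (4 * T ^ 2))) := by
      simp only [hφ]
      field_simp
    have c3 : (t.2 : ℝ) * u.2 / (4 * T ^ 2) ≤ 1 := by
      rw [div_le_one (by positivity)]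
      calc (t.2 : ℝ) * u.2 ≤ 2 * T * (2 * T) := by gcongr
        _ = _ := by ring
    have c4 : |(t.1 : ℝ) * u.2 - u.1 * t.2| < D := by
      rw [c2, abs_mul, abs_of_pos (a := (D : ℝ) * _) (by positivity)]
      calc _ < 1 * (D * (t.2 * u.2 / (4 * T ^ 2)) : ℝ) :=
            mul_lt_mul_of_pos_right c1 (by positivity)
        _ ≤ 1 * (D * 1) := by gcongr
        _ = _ := by ring
    have c5 : |(t.1 : ℤ) * u.2 - u.1 * t.2| < (D : ℤ) := by exact_mod_cast c4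
    have c6 := Int.eq_zero_of_abs_lt_dvd (cross_dvd a1 a2 a3 a4 b2 b3 b4) c5
    exact eq_of_cross a1 b1 (by exact_mod_cast sub_eq_zero.1 c6)
  have hc : #F ≤ #(range (⌊4 * (s * T) / D⌋₊ + 1)) := by
    refine card_le_card_of_injOn _ (fun t ht => ?_) hinj
    obtain ⟨-, -, -, -, -, a6, -, a8⟩ := hF t ht
    rw [coe_range, Set.mem_Iio, Nat.lt_succ_iff]
    refine Nat.floor_le_floor ?_
    calc φ t ≤ s / T * (4 * T ^ 2 / D) := by
          simp only [hφ]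
          gcongr
      _ = _ := by field_simp
  rw [card_range] at hc
  have hc' : (#F : ℝ) ≤ 4 * (s * T) / D + 1 := by
    have e : (#F : ℝ) ≤ (⌊4 * (s * T) / D⌋₊ : ℝ) + 1 := by exact_mod_cast hc
    linarith [Nat.floor_le (a := 4 * (s * T) / D) (by positivity)]
  calc (#F : ℝ) * D ≤ (4 * (s * T) / D + 1) * D := by gcongr
    _ = 4 * (s * T) + D := by field_simp
    _ ≤ _ := by linarith

theorem sum_low (Y : ℝ) (n : ℕ) :
    ∑ j ∈ range n, (if (2 : ℝ) ^ j ≤ Y then ((2 : ℝ) ^ j) ^ 2 else 0) ≤ ((2 : ℝ) ^ n) ^ 2 / 3 ∧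
      ∑ j ∈ range n, (if (2 : ℝ) ^ j ≤ Y then ((2 : ℝ) ^ j) ^ 2 else 0) ≤ 2 * Y ^ 2 := by
  induction n with
  | zero => exact ⟨by simp, by simpa using sq_nonneg Y⟩
  | succ n ih =>
    rw [sum_range_succ, pow_succ (2 : ℝ) n]
    have h0 : (0 : ℝ) < 2 ^ n := by positivity
    split_ifs with h
    · have : ((2 : ℝ) ^ n) ^ 2 ≤ Y ^ 2 := by gcongr
      constructor <;> nlinarith [ih.1]
    · constructor <;> nlinarith [ih.1, ih.2]

theorem sum_high {Y : ℝ} (hY : 0 < Y) (n : ℕ) :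
    ∑ j ∈ range n, (if (2 : ℝ) ^ j ≤ Y then 0 else 1 / (2 : ℝ) ^ j)
      ≤ max 0 (2 / Y - 2 / (2 : ℝ) ^ n) := by
  induction n with
  | zero => simp
  | succ n ih =>
    rw [sum_range_succ]
    have h0 : (0 : ℝ) < 2 ^ n := by positivity
    split_ifs with h
    · have : 2 / Y ≤ 2 / (2 : ℝ) ^ n := by gcongr
      rw [max_eq_left (by linarith)] at ih
      rw [add_zero]
      exact ih.trans (le_max_left _ _)
    · have : 2 / (2 : ℝ) ^ n ≤ 2 / Y := by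
        have := (not_le.1 h).le
        gcongr
      rw [max_eq_right (by linarith)] at ih
      refine le_trans ?_ (le_max_right _ _)
      have e : 2 / (2 : ℝ) ^ (n + 1) = 1 / 2 ^ n := by rw [pow_succ]; field_simp
      have e2 : 2 / (2 : ℝ) ^ n = 2 * (1 / 2 ^ n) := by ring
      linarith

end T7

theorem st_LAT : St_LAT := by
  refine ⟨72, by norm_num, fun D₁ D₂ D₃ Z F hZ hF => ?_⟩
  rcases F.eq_empty_or_nonempty with rfl | ⟨t₀, ht₀⟩
  · simp only [card_empty, Nat.cast_zero, zero_mul]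
    positivity
  have hZ0 : 0 < Z := by
    obtain ⟨h1, -, -, -, -, h6⟩ := hF t₀ ht₀
    have : 0 < Pr t₀ := Nat.mul_pos (Nat.mul_pos h1.pos1 h1.pos2) h1.pos3
    exact lt_of_lt_of_le (by exact_mod_cast this) h6
  obtain ⟨Y, hY, hY3, hY2⟩ : ∃ Y : ℝ, 0 < Y ∧ Y ^ 3 = Z ∧ Y ^ 2 = Z ^ (2 / 3 : ℝ) := by
    refine ⟨Z ^ (1 / 3 : ℝ), by positivity, ?_, ?_⟩
    · rw [← Real.rpow_natCast, ← Real.rpow_mul hZ]
      norm_num
    · rw [← Real.rpow_natCast, ← Real.rpow_mul hZ]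
      norm_num
  set n := F.sup (fun t => Nat.log 2 t.2) + 1 with hn
  have h1 : #F = ∑ j ∈ range n, #(F.filter fun t => Nat.log 2 t.2 = j) :=
    card_eq_sum_card_fiberwise fun t ht => by
      rw [coe_range, Set.mem_Iio, Nat.lt_succ_iff]
      exact le_sup (f := fun t : ℕ × ℕ => Nat.log 2 t.2) ht
  have h2 : ∀ j, (#(F.filter fun t => Nat.log 2 t.2 = j) : ℝ) * (D₁ * D₂ * D₃ : ℕ) ≤
      24 * (if (2 : ℝ) ^ j ≤ Y then ((2 : ℝ) ^ j) ^ 2 else 0) +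
        12 * Z * (if (2 : ℝ) ^ j ≤ Y then 0 else 1 / (2 : ℝ) ^ j) := by
    intro j
    have h0 : (0 : ℝ) < 2 ^ j := by positivity
    have hb : ∀ t ∈ F.filter fun t => Nat.log 2 t.2 = j,
        (2 : ℝ) ^ j ≤ t.2 ∧ (t.2 : ℝ) ≤ 2 * 2 ^ j := by
      intro t ht
      obtain ⟨ht', hj⟩ := mem_filter.1 ht
      have p := (hF t ht').1.pos2
      have q1 := Nat.pow_log_le_self 2 p.ne'
      have q2 := (Nat.lt_pow_succ_log_self one_lt_two t.2).le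
      rw [pow_succ', hj] at q2
      rw [hj] at q1
      exact ⟨by exact_mod_cast q1, by exact_mod_cast q2⟩
    split_ifs with h
    · refine (T7.lat_box D₁ D₂ D₃ (2 ^ j) (2 * 2 ^ j) h0 (by positivity) _ fun t ht => ?_).trans
        (le_of_eq (by ring))
      obtain ⟨a1, a2, a3, a4, a5, -⟩ := hF t (mem_filter.1 ht).1
      obtain ⟨b1, b2⟩ := hb t ht
      exact ⟨a1, a2, a3, a4, a5, b1, b2, le_trans (by exact_mod_cast a1.2.1) b2⟩
    · refine (T7.lat_box D₁ D₂ D₃ (2 ^ j) (Z / (2 ^ j) ^ 2) h0 (by positivity) _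
        fun t ht => ?_).trans (le_of_eq (by field_simp; ring))
      obtain ⟨a1, a2, a3, a4, a5, a6⟩ := hF t (mem_filter.1 ht).1
      obtain ⟨b1, b2⟩ := hb t ht
      refine ⟨a1, a2, a3, a4, a5, b1, b2, ?_⟩
      rw [le_div_iff₀ (by positivity)]
      refine le_trans ?_ a6
      rw [Pr]
      push_cast
      have p1 : (0 : ℝ) ≤ t.1 := Nat.cast_nonneg _
      calc (t.1 : ℝ) * (2 ^ j) ^ 2 = t.1 * 2 ^ j * 2 ^ j := by ring
        _ ≤ t.1 * t.2 * (t.1 + t.2) := by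
          gcongr
          linarith
  rw [h1, Nat.cast_sum, sum_mul]
  refine (sum_le_sum fun j _ => h2 j).trans ?_
  rw [sum_add_distrib, ← mul_sum, ← mul_sum, ← hY2]
  have h3 := (T7.sum_low Y n).2
  have h4 : ∑ j ∈ range n, (if (2 : ℝ) ^ j ≤ Y then 0 else 1 / (2 : ℝ) ^ j) ≤ 2 / Y :=
    (T7.sum_high hY n).trans (max_le (by positivity) (sub_le_self _ (by positivity)))
  have h5 : 12 * Z * (2 / Y) = 24 * Y ^ 2 := by rw [← hY3]; field_simp; ring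
  have h6 := mul_le_mul_of_nonneg_left h4 (by positivity : 0 ≤ 12 * Z)
  linarith

end Pool.Agent.Lib.CR
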