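import Pool.Agent.Lib.CR.Util

/-! Project cr: the number of prime factors is small against the logarithm of the radical. -/

open Finset Real

noncomputable section

namespace Pool.Agent.Lib.CR

theorem st_W : St_W := by
  intro ε hε
  obtain ⟨X₀, h⟩ := absorb (2 / ε * ((⌊exp (2 / ε)⌋₊ + 1 : ℕ) : ℝ)) one_pos
  refine ⟨X₀, fun X hX => ?_⟩
  obtain ⟨a1, a2, a3, -⟩ := h X hX
  refine ⟨⌊ε * log X⌋₊, Nat.floor_le (by positivity), fun n hn => Nat.le_floor ?_⟩
  have h1 : #(big (2 / ε) n) * (2 / ε) ≤ ms (big (2 / ε) n) := by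
    rw [← nsmul_eq_mul]
    exact card_nsmul_le_sum _ _ _ fun p hp => (mem_filter.1 hp).2.le
  have h2 := h1.trans ((ms_mono (big_subset (2 / ε) n)).trans ((log_rad n).symm.le.trans
    (log_le_log (by exact_mod_cast rad_pos n) hn)))
  have h3 : n.primeFactors ⊆ big (2 / ε) n ∪ range (⌊exp (2 / ε)⌋₊ + 1) := fun p hp => by
    by_cases hb : 2 / ε < log p
    · exact mem_union_left _ (mem_filter.2 ⟨hp, hb⟩)
    · refine mem_union_right _ (mem_range.2 (Nat.lt_succ_of_le (Nat.le_floor ?_)))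
      rw [← log_le_iff_le_exp (by exact_mod_cast (Nat.prime_of_mem_primeFactors hp).pos)]
      exact not_lt.1 hb
  have h4 : (#n.primeFactors : ℝ) ≤ #(big (2 / ε) n) + ((⌊exp (2 / ε)⌋₊ + 1 : ℕ) : ℝ) := by
    have := (card_le_card h3).trans (card_union_le _ _)
    rw [card_range] at this
    exact_mod_cast this
  rw [div_mul_eq_mul_div, div_le_iff₀ hε] at a3
  rw [← mul_div_assoc, div_le_iff₀ hε] at h2
  linarith

end Pool.Agent.Lib.CR
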