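import Mathlib

/-! Project cr: counting coprime solutions of `a + b = c` by the radical of `a b c`, and curves with
full 2-torsion by the conductor. Definitions and block statements. -/

open Finset Real

noncomputable section

namespace Pool.Agent.Lib.CR

/-- The radical. -/
def rad (n : ℕ) : ℕ := ∏ q ∈ n.primeFactors, q

/-- The product `a b (a + b)`. -/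
def Pr (t : ℕ × ℕ) : ℕ := t.1 * t.2 * (t.1 + t.2)

/-- Coprime `0 < a ≤ b`. -/
def Tr (t : ℕ × ℕ) : Prop := 0 < t.1 ∧ t.1 ≤ t.2 ∧ t.1.Coprime t.2

/-- The share of the primes of `S` in `n`. -/
def sh (S : Finset ℕ) (n : ℕ) : ℝ := ∑ p ∈ S, (n.factorization p : ℝ) * log p

/-- The mass of `S`. -/
def ms (S : Finset ℕ) : ℝ := ∑ p ∈ S, log p

/-- The scale of `a + b`. -/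
def Sc (Λ : ℕ) (t : ℕ × ℕ) : Prop :=
  (Λ : ℝ) - 1 < log (t.1 + t.2 : ℕ) ∧ log (t.1 + t.2 : ℕ) ≤ Λ

/-- The three roles `(x; y, z)`. -/
def xx (i : Fin 3) (t : ℕ × ℕ) : ℕ := ![t.1, t.2, t.1 + t.2] i
def yy (i : Fin 3) (t : ℕ × ℕ) : ℕ := ![t.2, t.1, t.1] i
def zz (i : Fin 3) (t : ℕ × ℕ) : ℕ := ![t.1 + t.2, t.1 + t.2, t.2] i

/-- `y / z = (g₁ / g₂) (w₁ / w₂) ^ e (r₁ / r₂)` with bounded `w`, `r`. -/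
def Rep (m e M a g₁ g₂ y z : ℕ) : Prop :=
  ∃ w₁ w₂ r₁ r₂ : ℕ, 0 < w₁ ∧ 0 < w₂ ∧ 0 < r₁ ∧ 0 < r₂ ∧ w₁ ≤ m ^ M ∧ w₂ ≤ m ^ M ∧ r₁ ≤ m ^ a ∧
    r₂ ≤ m ^ a ∧ w₁.Coprime m ∧ w₂.Coprime m ∧ y * g₂ * w₂ ^ e * r₂ = z * g₁ * w₁ ^ e * r₁

/-- The primes of `n` with logarithm above `τ`. -/
def big (τ : ℝ) (n : ℕ) : Finset ℕ := n.primeFactors.filter fun p => τ < log p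

/-- The deviation of the exponents of `n` from `e`. -/
def dev (e n : ℕ) : ℝ := ∑ p ∈ n.primeFactors, |(n.factorization p : ℝ) - e| * log p

/-- The part of `n` on the primes which divide `g` or have exponent at least two. -/
def dd (g n : ℕ) : ℕ :=
  ∏ p ∈ n.primeFactors.filter (fun p => 2 ≤ n.factorization p ∨ p ∣ g), p ^ n.factorization p

/-- The product of the primes of exponent at least two. -/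
def pw (n : ℕ) : ℕ := ∏ p ∈ n.primeFactors.filter (fun p => 2 ≤ n.factorization p), p

/-- The prime-to-6 conductor of `y ^ 2 = x ^ 3 + A x + B`. -/
def cond (c : ℤ × ℤ) : ℕ :=
  ∏ p ∈ (4 * c.1 ^ 3 + 27 * c.2 ^ 2).natAbs.primeFactors.filter (fun p : ℕ => 5 ≤ p),
    p ^ (if ((p : ℕ) : ℤ) ∣ c.1 then 2 else 1)

/-- The curve `y ^ 2 = x ^ 3 + A x + B` over `ℚ`, for `c = (A, B)`. -/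
abbrev curve (c : ℤ × ℤ) : WeierstrassCurve.Affine ℚ := ⟨0, 0, 0, c.1, c.2⟩

/-- Minimal models with full rational 2-torsion. -/
def Fam (c : ℤ × ℤ) : Prop :=
  4 * c.1 ^ 3 + 27 * c.2 ^ 2 ≠ 0 ∧
    (∀ p : ℕ, p.Prime → ¬ ((p : ℤ) ^ 4 ∣ c.1 ∧ (p : ℤ) ^ 6 ∣ c.2)) ∧
    ∃ f : ZMod 2 × ZMod 2 →+ (curve c).Point, Function.Injective f

/-- Subexponential abc (proved in another library). -/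
def St_ABC : Prop :=
  ∀ ε : ℝ, 0 < ε → ∃ C : ℝ, ∀ a b : ℕ, 1 ≤ a → 1 ≤ b → a.Coprime b →
    log (a + b : ℕ) ≤ C * (rad (a * b * (a + b)) : ℝ) ^ ε

/-! ### The two-logarithm lemma -/

def St_ZL : Prop := ∀ (D K R S E : ℕ) (U ρ : ℚ) (p : Fin K → Fin D → ℚ), 0 < U → U ≠ 1 → 0 < ρ →
  R ≤ E → D * K ≤ R * S →
  (∀ r < R + D, ∀ s < S,
    ∑ k, ∑ l, p k l * ((r + s * E : ℕ) : ℚ) ^ (k : ℕ) * (U ^ r * ρ ^ s) ^ (l : ℕ) = 0) → p = 0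

def St_EXT : Prop := ∀ (A : Type) [CommRing A] (D K W : ℕ) (V : A) (p : Fin K → Fin D → A),
  (V - 1) ^ W = 0 →
  (∀ z < W + K, ∑ k, ∑ l, p k l * (z : A) ^ (k : ℕ) * (V ^ z) ^ (l : ℕ) = 0) →
  ∀ z : ℕ, ∑ k, ∑ l, p k l * (z : A) ^ (k : ℕ) * (V ^ z) ^ (l : ℕ) = 0

def St_TL : Prop := ∃ C : ℕ, 1 ≤ C ∧ ∀ m M M' a E e u₁ u₂ r₁ r₂ : ℕ, 1 ≤ M → 1 ≤ M' → 1 ≤ a →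
  C * M * M' ≤ m → C * M' ^ 2 * M * a ≤ E → 0 < u₁ → 0 < u₂ → 0 < r₁ → 0 < r₂ →
  u₁ ≤ m ^ M → u₂ ≤ m ^ M → r₁ ≤ m ^ a → r₂ ≤ m ^ a → e ≤ m ^ M' → u₂.Coprime m →
  u₁ ≡ u₂ [MOD m] → u₁ ^ e * r₂ ≡ u₂ ^ e * r₁ [MOD m ^ E] → u₁ ^ e * r₂ = u₂ ^ e * r₁

/-! ### Cells, gap principle, product pigeonhole -/

def St_CELL : Prop := ∀ (η Λ : ℝ) (W : ℕ) (S : Finset ℕ), 0 < η → η ≤ 1 → 0 < Λ →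
  (∀ p ∈ S, p.Prime) → #S ≤ W →
  ∃ 𝒢 : Finset ℕ, (#𝒢 : ℝ) ≤ 2 ^ (3 / η * W) ∧ ∀ n : ℕ, 0 < n → log n ≤ Λ →
    ∃ G ∈ 𝒢, G ∣ n ∧ G.primeFactors ⊆ S ∧ sh S n ≤ log G + η * Λ

def St_GAP : Prop := ∀ (η : ℝ) (Λ W : ℕ) (S : Finset ℕ) (F : Finset (ℕ × ℕ)), 0 < η → η ≤ 1 →
  (∀ p ∈ S, p.Prime) → #S ≤ W →
  (∀ t ∈ F, Tr t ∧ Sc Λ t ∧ log (Pr t) - sh S (Pr t) ≤ (1 - η) * Λ - 3) →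
  (#F : ℝ) ≤ 2 ^ (27 / η * W)

def St_COL : Prop := ∀ (ι : Type) (F : Finset ι) (A B : ι → Finset ℕ) (W : ℕ),
  (∀ k ∈ F, Disjoint (A k) (B k) ∧ #(A k) + #(B k) ≤ W) →
  ∃ (C : Finset ℕ) (F' : Finset ι), F' ⊆ F ∧ #F ≤ 2 ^ W * #F' ∧
    ∀ k ∈ F', A k ⊆ C ∧ Disjoint (B k) C

def St_T2 : Prop := ∃ C : ℕ, 1 ≤ C ∧ ∀ (ι : Type) (F : Finset ι) (y z : ι → ℕ)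
  (m M M' a E e g₁ g₂ W : ℕ) (μ : ℝ), 1 ≤ M → 1 ≤ M' → 1 ≤ a →
  C * M * M' ≤ m → C * M' ^ 2 * M * a ≤ E → e ≤ m ^ M' → 0 < g₁ → 0 < g₂ →
  (∀ k ∈ F, 0 < y k ∧ 0 < z k ∧ (y k).Coprime (z k) ∧ (y k * z k).Coprime m ∧
    #(y k * z k).primeFactors ≤ W ∧ Rep m e M a g₁ g₂ (y k) (z k)) →
  ((∀ k ∈ F, y k ≡ z k [MOD m ^ E]) ∨ ∀ k ∈ F, m ^ E ∣ y k + z k) →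
  (∀ (S : Finset ℕ) (F' : Finset ι), (∀ p ∈ S, p.Prime) → #S ≤ 4 * W → F' ⊆ F →
    (∀ k ∈ F', (y k * z k).primeFactors ⊆ S) → (#F' : ℝ) ≤ μ) →
  (#F : ℝ) ≤ (m : ℝ) ^ (1 / 4 : ℝ) * (2 ^ W * μ)

def St_T3 : Prop := ∃ C : ℕ, 1 ≤ C ∧ ∀ (θ : ℝ) (i : Fin 3) (F : Finset (ℕ × ℕ))
  (Λ m M M' a E e g₁ g₂ W : ℕ), 0 < θ → θ ≤ 1 → 1 ≤ M → 1 ≤ M' → 1 ≤ a →
  C * M * M' ≤ m → C * M' ^ 2 * M * a ≤ E → e ≤ m ^ M' → 0 < g₁ → 0 < g₂ →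
  6 ≤ θ * Λ → θ * Λ ≤ E * log m →
  (∀ t ∈ F, Tr t ∧ Sc Λ t ∧ #(Pr t).primeFactors ≤ W ∧ m ^ E ∣ xx i t ∧
    Rep m e M a g₁ g₂ (yy i t) (zz i t)) →
  (#F : ℝ) ≤ (m : ℝ) ^ (1 / 4 : ℝ) * 2 ^ (271 / θ * W)

/-! ### Modulus, representations, dichotomy -/

def St_KNAP : Prop := ∀ (s : Finset ℕ) (w u : ℕ → ℝ) (κ : ℝ) (j : ℕ), 0 ≤ κ → 1 ≤ j →
  (∀ p ∈ s, 0 ≤ w p ∧ w p ≤ κ ∧ 0 ≤ u p) → ∑ p ∈ s, w p ≤ j * κ →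
  ∃ Γ ⊆ s, ∑ p ∈ Γ, w p ≤ 2 * κ ∧ ∑ p ∈ s, u p ≤ j * ∑ p ∈ Γ, u p

def St_ML : Prop := ∀ (n E x : ℕ) (L : ℝ), 6 ≤ n → 1 ≤ E → 0 < x → 0 < L → log (rad x) ≤ L →
  12 * n * L * E ≤ log x →
  ∃ m : ℕ, m ^ E ∣ x ∧ L / n ≤ log m ∧ log m ≤ L ∧ log m ≤ ms (big (L / n) x) + 6 * L / n

def St_DIR : Prop := ∀ (s : Finset ℕ) (x : ℕ → ℝ) (Q n : ℕ), 1 ≤ Q → #s ≤ n →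
  ∃ q : ℕ, 1 ≤ q ∧ q ≤ Q ^ n ∧ ∃ k : ℕ → ℤ, ∀ p ∈ s, |q * x p - k p| ≤ 1 / Q

def St_REPB : Prop := ∀ (n Q y z m g₁ g₂ e₀ : ℕ) (L Λ J : ℝ) (B : Finset ℕ), 1 ≤ n → 1 ≤ Q →
  0 < L → 0 < Λ → 0 < y → 0 < z → y.Coprime z → (y * z).Coprime m → log y ≤ Λ → log z ≤ Λ →
  log (rad (y * z)) ≤ L → L / n ≤ log m → n * Λ / L ≤ e₀ → B ⊆ big (L / n) (y * z) →
  g₁ ∣ y → g₂ ∣ z → Disjoint (g₁ * g₂).primeFactors B →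
  log y + log z - log g₁ - log g₂ - sh B (y * z) ≤ J →
  ∃ q : ℕ, 1 ≤ q ∧ q ≤ Q ^ n ∧ ∀ a : ℕ, J + (e₀ / (q * Q) + 2 * q) * L ≤ a * (L / n) →
    Rep m (e₀ / q) (2 * q * n) a g₁ g₂ y z

def St_REPU : Prop := ∀ y z m e M a : ℕ, 0 < y → 0 < z → y.Coprime z → (y * z).Coprime m →
  0 < m → rad (y * z) ≤ m ^ M → dev e (y * z) ≤ a * log m → Rep m e M a 1 1 y z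

def St_DU : Prop := ∀ (κ L : ℝ) (Λ : ℕ) (t : ℕ × ℕ), 0 < κ → κ ≤ 1 / 100 → 0 < L →
  3 ≤ κ * Λ → Tr t → Sc Λ t → log (rad (Pr t)) ≤ L → big (κ * L) (Pr t) = ∅ →
  (∃ S ⊆ (Pr t).primeFactors, ms S ≤ (2 / 3 - κ) * L ∧
    log (Pr t) - sh S (Pr t) ≤ (1 - κ) * Λ - 3) ∨
  ∃ e : ℕ, 1 ≤ e ∧ e * L ≤ 5 * Λ ∧ dev e (Pr t) ≤ 36 * κ * Λ

def St_W : Prop := ∀ ε : ℝ, 0 < ε → ∃ X₀ : ℝ, ∀ X ≥ X₀, ∃ W : ℕ, (W : ℝ) ≤ ε * log X ∧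
  ∀ n : ℕ, (rad n : ℝ) ≤ X → #n.primeFactors ≤ W

/-! ### The range of large `c` -/

def St_CA : Prop := ∀ κ ε : ℝ, 0 < κ → κ ≤ 1 / 2 → 0 < ε → ∃ X₀ : ℝ, ∀ X ≥ X₀,
  ∀ (Λ : ℕ) (F : Finset (ℕ × ℕ)),
  (∀ t ∈ F, Tr t ∧ Sc Λ t ∧ (rad (Pr t) : ℝ) ≤ X ∧ ∃ S ⊆ (Pr t).primeFactors,
    ms S ≤ (2 / 3 - κ) * log X ∧ log (Pr t) - sh S (Pr t) ≤ (1 - κ) * Λ - 3) →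
  (#F : ℝ) ≤ X ^ (2 / 3 - κ + ε)

def St_CU : Prop := ∃ η : ℝ, 0 < η ∧ ∃ A X₀ : ℝ, ∀ X ≥ X₀, ∀ (Λ : ℕ) (F : Finset (ℕ × ℕ)),
  A * log X ≤ Λ → (Λ : ℝ) ≤ X ^ (1 / 100 : ℝ) →
  (∀ t ∈ F, Tr t ∧ Sc Λ t ∧ (rad (Pr t) : ℝ) ≤ X ∧ big (log X / 100) (Pr t) = ∅ ∧
    ∃ e : ℕ, 1 ≤ e ∧ e * log X ≤ 5 * Λ ∧ dev e (Pr t) ≤ η * Λ) →
  (#F : ℝ) ≤ X ^ (1 / 2 : ℝ)

def St_CB0 : Prop := ∀ (n : ℕ) (θ ε : ℝ), 6 ≤ n → 0 < θ → θ ≤ 1 → 0 < ε →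
  ∃ ζ : ℝ, 0 < ζ ∧ ∃ A X₀ : ℝ, ∀ X ≥ X₀, ∀ (Λ : ℕ) (i : Fin 3) (γ : ℝ) (F : Finset (ℕ × ℕ)),
  A * log X ≤ Λ → (Λ : ℝ) ≤ X ^ (1 / 2 : ℝ) →
  (∀ t ∈ F, Tr t ∧ Sc Λ t ∧ (rad (Pr t) : ℝ) ≤ X ∧ ∃ (m : ℕ) (S B : Finset ℕ),
    m ^ ⌊θ * Λ / (12 * n * log X)⌋₊ ∣ xx i t ∧ log X / n ≤ log m ∧ log m ≤ log X ∧
    S ⊆ (yy i t * zz i t).primeFactors ∧ B ⊆ big (log X / n) (yy i t * zz i t) ∧ Disjoint S B ∧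
    log (yy i t) + log (zz i t) - sh S (yy i t * zz i t) - sh B (yy i t * zz i t) ≤ ζ * Λ ∧
    5 / 4 * log m + ms S ≤ γ * log X) →
  (#F : ℝ) ≤ X ^ (γ + ε)

def St_CB : Prop := ∀ κ : ℝ, 0 < κ → κ ≤ 1 / 100 → ∃ A X₀ : ℝ, ∀ X ≥ X₀,
  ∀ (Λ : ℕ) (F : Finset (ℕ × ℕ)), A * log X ≤ Λ → (Λ : ℝ) ≤ X ^ (1 / 2 : ℝ) →
  (∀ t ∈ F, Tr t ∧ Sc Λ t ∧ (rad (Pr t) : ℝ) ≤ X ∧ (big (κ * log X) (Pr t)).Nonempty) →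
  (#F : ℝ) ≤ X ^ (2 / 3 - κ / 16)

def St_R3 : Prop := ∃ A δ X₀ : ℝ, 0 < A ∧ 0 < δ ∧ ∀ X ≥ X₀, ∀ F : Finset (ℕ × ℕ),
  (∀ t ∈ F, Tr t ∧ (rad (Pr t) : ℝ) ≤ X ∧ A * log X ≤ log (t.1 + t.2 : ℕ)) →
  (#F : ℝ) ≤ X ^ (2 / 3 - δ)

/-! ### The range of bounded `log c / log X` and the main term -/

def St_RK : Prop := ∀ ε : ℝ, 0 < ε → ∃ C : ℝ, ∀ F : Finset ℕ, 0 ∉ F →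
  ∑ n ∈ F, (n : ℝ) ^ (-ε) / rad n ≤ C

def St_RC : Prop := ∀ A ε : ℝ, 0 < A → 0 < ε → ∃ X₀ : ℝ, ∀ X ≥ X₀, ∀ Y : ℝ, 0 ≤ Y →
  (∀ F : Finset ℕ, (∀ n ∈ F, 0 < n ∧ log n ≤ A * log X ∧ (rad n : ℝ) ≤ Y) →
    (#F : ℝ) ≤ Y * X ^ ε) ∧
  (∀ F : Finset (ℕ × ℕ), (∀ n ∈ F, 0 < n.1 ∧ 0 < n.2 ∧ log n.1 ≤ A * log X ∧
    log n.2 ≤ A * log X ∧ (rad n.1 : ℝ) * rad n.2 ≤ Y) → (#F : ℝ) ≤ Y * X ^ ε) ∧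
  ∀ F : Finset (ℕ × ℕ × ℕ), (∀ n ∈ F, 0 < n.1 ∧ 0 < n.2.1 ∧ 0 < n.2.2 ∧ log n.1 ≤ A * log X ∧
    log n.2.1 ≤ A * log X ∧ log n.2.2 ≤ A * log X ∧
    (rad n.1 : ℝ) * rad n.2.1 * rad n.2.2 ≤ Y) → (#F : ℝ) ≤ Y * X ^ ε

def St_DIV : Prop := ∀ ε : ℝ, 0 < ε → ∃ C : ℝ, 0 < C ∧ ∀ n : ℕ, 0 < n →
  (#n.divisors : ℝ) ≤ C * (n : ℝ) ^ ε ∧ (2 : ℝ) ^ #n.primeFactors ≤ C * (n : ℝ) ^ ε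

def St_CS : Prop := ∀ (e H : ℕ) (τ : ℝ) (𝓑 : Finset ℕ) (𝓨 𝓩 : Finset ℤ)
  (F : Finset (ℕ × ℕ × ℤ)), 2 ≤ e → 0 ≤ τ → (∀ d : ℕ, 0 < d → d ≤ 2 * H → (#d.divisors : ℝ) ≤ τ) →
  (∀ z ∈ 𝓩, |z| ≤ H) →
  (∀ v ∈ F, 0 < v.1 ∧ v.1 ∈ 𝓑 ∧ 0 < v.2.1 ∧ v.2.2 ∈ 𝓨 ∧
    (v.1 : ℤ) * (v.2.1 : ℤ) ^ e + v.2.2 ∈ 𝓩) →
  (#F : ℝ) ≤ #𝓑 * #𝓨 + √(#𝓑 * #𝓨) * (#𝓩 * τ)

def St_R2 : Prop := ∀ A : ℝ, 0 < A → ∃ δ X₀ : ℝ, 0 < δ ∧ ∀ X ≥ X₀, ∀ F : Finset (ℕ × ℕ),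
  (∀ t ∈ F, Tr t ∧ (rad (Pr t) : ℝ) ≤ X ∧ log (t.1 + t.2 : ℕ) ≤ A * log X ∧
    X ^ (1 / 10 : ℝ) ≤ pw (Pr t)) → (#F : ℝ) ≤ X ^ (2 / 3 - δ)

def St_R2b : Prop := ∀ A : ℝ, 0 < A → ∃ X₀ : ℝ, ∀ X ≥ X₀, ∀ F : Finset (ℕ × ℕ),
  (∀ t ∈ F, Tr t ∧ log (t.1 + t.2 : ℕ) ≤ A * log X ∧ (pw (Pr t) : ℝ) ≤ X ^ (1 / 10 : ℝ) ∧
    ∃ g : ℕ, g ∣ rad (Pr t) ∧ ((g * rad (Pr t) : ℕ) : ℝ) ≤ X ∧ 4 * t.1 * t.2 < dd g (Pr t)) →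
  (#F : ℝ) ≤ X ^ (19 / 30 : ℝ)

def St_LAT : Prop := ∃ C : ℝ, 0 < C ∧ ∀ (D₁ D₂ D₃ : ℕ) (Z : ℝ) (F : Finset (ℕ × ℕ)), 0 ≤ Z →
  (∀ t ∈ F, Tr t ∧ D₁ ∣ t.1 ∧ D₂ ∣ t.2 ∧ D₃ ∣ t.1 + t.2 ∧ D₁ * D₂ * D₃ ≤ 4 * t.1 * t.2 ∧
    (Pr t : ℝ) ≤ Z) → (#F : ℝ) * (D₁ * D₂ * D₃ : ℕ) ≤ C * Z ^ (2 / 3 : ℝ)

def St_C1 : Prop := ∃ C : ℝ, ∀ (Y : ℝ) (F : Finset ((ℕ × ℕ) × ℕ)), 0 ≤ Y →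
  (∀ v ∈ F, Tr v.1 ∧ v.2 ∣ rad (Pr v.1) ∧ ((v.2 * rad (Pr v.1) : ℕ) : ℝ) ≤ Y ∧
    dd v.2 (Pr v.1) ≤ 4 * v.1.1 * v.1.2) → (#F : ℝ) ≤ C * Y ^ (2 / 3 : ℝ)

def St_NS : Prop := ∃ C : ℝ, ∀ (Y : ℝ) (F : Finset ((ℕ × ℕ) × ℕ)), 0 ≤ Y →
  (∀ v ∈ F, Tr v.1 ∧ v.2 ∣ rad (Pr v.1) ∧ ((v.2 * rad (Pr v.1) : ℕ) : ℝ) ≤ Y) →
  (#F : ℝ) ≤ C * Y ^ (2 / 3 : ℝ)

/-! ### Curves -/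

def St_PAR : Prop := ∀ c : ℤ × ℤ, Fam c →
  cond c ^ 2 ≤ (4 * c.1 ^ 3 + 27 * c.2 ^ 2).natAbs ∧
  ∃ (t : ℕ × ℕ) (d g h : ℕ), Tr t ∧ d ∣ 18 ∧ 0 < h ∧ g ∣ rad (Pr t) ∧
    g * h ^ 2 * rad (Pr t) ≤ 6 * cond c ∧
    3 * c.1 = -((d * g * h : ℕ) : ℤ) ^ 2 * ((t.1 : ℤ) ^ 2 + t.1 * t.2 + (t.2 : ℤ) ^ 2) ∧
    (27 * c.2) ^ 2 = (((d * g * h : ℕ) : ℤ) ^ 3 *
      ((2 * t.1 + t.2) * ((t.1 : ℤ) - t.2) * (t.1 + 2 * t.2))) ^ 2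

def St_UP : Prop := ∃ C : ℝ, ∀ (X : ℝ) (F : Finset (ℤ × ℤ)), 0 ≤ X →
  (∀ c ∈ F, Fam c ∧ (cond c : ℝ) ≤ X) → (#F : ℝ) ≤ C * X ^ (2 / 3 : ℝ)

end Pool.Agent.Lib.CR
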