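import Pool.Agent.Lib.CR.Blue

/-! Project cr: small tools. -/

open Finset Real

noncomputable section

namespace Pool.Agent.Lib.CR

theorem log_nat_nonneg (n : ℕ) : 0 ≤ log (n : ℝ) := Real.log_natCast_nonneg n

theorem log_prod_pow {S : Finset ℕ} (hS : ∀ p ∈ S, 0 < p) (k : ℕ → ℕ) :
    log ((∏ p ∈ S, p ^ k p : ℕ) : ℝ) = ∑ p ∈ S, (k p : ℝ) * log p := by
  rw [Nat.cast_prod, Real.log_prod fun p hp => by have := hS p hp; positivity]
  exact sum_congr rfl fun p _ => by rw [Nat.cast_pow, Real.log_pow]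

theorem log_prod_ms {S : Finset ℕ} (hS : ∀ p ∈ S, 0 < p) :
    log ((∏ p ∈ S, p : ℕ) : ℝ) = ms S := by
  simpa [ms] using log_prod_pow hS fun _ => 1

theorem rad_pos (n : ℕ) : 0 < rad n :=
  prod_pos fun _ hp => (Nat.prime_of_mem_primeFactors hp).pos

theorem log_rad (n : ℕ) : log (rad n) = ms n.primeFactors :=
  log_prod_ms fun _ hp => (Nat.prime_of_mem_primeFactors hp).pos

theorem rad_dvd (n : ℕ) : rad n ∣ n := Nat.prod_primeFactors_dvd n

theorem rad_mul {a b : ℕ} (h : a.Coprime b) : rad (a * b) = rad a * rad b := by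
  rw [rad, h.primeFactors_mul, prod_union h.disjoint_primeFactors]; rfl

theorem rad_dvd_rad {a b : ℕ} (h : a ∣ b) (hb : b ≠ 0) : rad a ∣ rad b :=
  prod_dvd_prod_of_subset _ _ _ (Nat.primeFactors_mono h hb)

theorem primeFactors_rad (n : ℕ) : (rad n).primeFactors = n.primeFactors :=
  Nat.primeFactors_prod fun _ hp => Nat.prime_of_mem_primeFactors hp

theorem ms_nonneg (S : Finset ℕ) : 0 ≤ ms S := sum_nonneg fun p _ => log_nat_nonneg p

theorem ms_mono {S T : Finset ℕ} (h : S ⊆ T) : ms S ≤ ms T :=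
  sum_le_sum_of_subset_of_nonneg h fun p _ _ => log_nat_nonneg p

theorem sh_nonneg (S : Finset ℕ) (n : ℕ) : 0 ≤ sh S n :=
  sum_nonneg fun p _ => mul_nonneg (Nat.cast_nonneg _) (log_nat_nonneg p)

theorem sh_mono {S T : Finset ℕ} (h : S ⊆ T) (n : ℕ) : sh S n ≤ sh T n :=
  sum_le_sum_of_subset_of_nonneg h fun p _ _ => mul_nonneg (Nat.cast_nonneg _) (log_nat_nonneg p)

theorem sh_union {S T : Finset ℕ} (h : Disjoint S T) (n : ℕ) :
    sh (S ∪ T) n = sh S n + sh T n := sum_union h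

theorem sh_mul (S : Finset ℕ) {a b : ℕ} (ha : a ≠ 0) (hb : b ≠ 0) :
    sh S (a * b) = sh S a + sh S b := by
  simp [sh, Nat.factorization_mul ha hb, add_mul, sum_add_distrib]

theorem sh_self {n : ℕ} (hn : n ≠ 0) : sh n.primeFactors n = log n := by
  conv_rhs => rw [← Nat.prod_factorization_pow_eq_self hn]
  exact (log_prod_pow (fun _ hp => (Nat.prime_of_mem_primeFactors hp).pos) _).symm

theorem sh_full {S : Finset ℕ} {n : ℕ} (hn : n ≠ 0) (h : n.primeFactors ⊆ S) : sh S n = log n := by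
  rw [← sh_self hn]
  refine (sum_subset h fun p _ hp => ?_).symm
  rw [← Nat.support_factorization, Finsupp.notMem_support_iff] at hp
  simp [hp]

theorem sh_le_log (S : Finset ℕ) {n : ℕ} (hn : n ≠ 0) : sh S n ≤ log n :=
  (sh_mono subset_union_left n).trans (sh_full hn subset_union_right).le

theorem sh_le_of_dvd (S : Finset ℕ) {a b : ℕ} (h : a ∣ b) (hb : b ≠ 0) : sh S a ≤ sh S b := by
  obtain ⟨k, rfl⟩ := h
  rw [sh_mul S (left_ne_zero_of_mul hb) (right_ne_zero_of_mul hb)]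
  linarith [sh_nonneg S k]

theorem big_subset (τ : ℝ) (n : ℕ) : big τ n ⊆ n.primeFactors := filter_subset _ _

theorem big_mono (τ : ℝ) {a b : ℕ} (h : a ∣ b) (hb : b ≠ 0) : big τ a ⊆ big τ b :=
  filter_subset_filter _ (Nat.primeFactors_mono h hb)

/-- There are at most `n` primes with logarithm above `L / n`. -/
theorem card_big {n x : ℕ} {L : ℝ} (hn : 1 ≤ n) (hL : 0 < L) (h : log (rad x) ≤ L) :
    #(big (L / n) x) ≤ n := by
  have h0 : (0 : ℝ) < n := by exact_mod_cast hn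
  have h1 : #(big (L / n) x) * (L / n) ≤ ms (big (L / n) x) := by
    rw [← nsmul_eq_mul]
    exact card_nsmul_le_sum _ _ _ fun p hp => (mem_filter.1 hp).2.le
  have h2 := (ms_mono (big_subset (L / n) x)).trans ((log_rad x).symm.le.trans h)
  have h3 : (#(big (L / n) x) : ℝ) * L ≤ n * L := by
    have := mul_le_mul_of_nonneg_left (h1.trans h2) h0.le
    rwa [← mul_assoc, mul_comm (n : ℝ), mul_assoc, mul_div_cancel₀ _ h0.ne'] at this
  exact_mod_cast le_of_mul_le_mul_right h3 hL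

namespace Tr

variable {t : ℕ × ℕ}

theorem pos1 (h : Tr t) : 0 < t.1 := h.1
theorem pos2 (h : Tr t) : 0 < t.2 := h.1.trans_le h.2.1
theorem pos3 (h : Tr t) : 0 < t.1 + t.2 := Nat.add_pos_left h.1 _
theorem cop12 (h : Tr t) : t.1.Coprime t.2 := h.2.2
theorem cop13 (h : Tr t) : t.1.Coprime (t.1 + t.2) := by simpa using h.2.2
theorem cop23 (h : Tr t) : t.2.Coprime (t.1 + t.2) := by simpa using h.2.2.symm
theorem Pr_pos (h : Tr t) : 0 < Pr t := Nat.mul_pos (Nat.mul_pos h.pos1 h.pos2) h.pos3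

theorem rad_Pr (h : Tr t) : rad (Pr t) = rad t.1 * rad t.2 * rad (t.1 + t.2) := by
  rw [Pr, rad_mul (Nat.Coprime.mul_left h.cop13 h.cop23), rad_mul h.cop12]

theorem log_Pr (h : Tr t) : log (Pr t) = log t.1 + log t.2 + log (t.1 + t.2 : ℕ) := by
  have h1 : (t.1 : ℝ) ≠ 0 := by exact_mod_cast h.pos1.ne'
  have h2 : (t.2 : ℝ) ≠ 0 := by exact_mod_cast h.pos2.ne'
  have h3 : ((t.1 + t.2 : ℕ) : ℝ) ≠ 0 := by exact_mod_cast h.pos3.ne'
  rw [Pr, Nat.cast_mul, Nat.cast_mul, log_mul (mul_ne_zero h1 h2) h3, log_mul h1 h2]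

theorem sh_Pr (h : Tr t) (S : Finset ℕ) :
    sh S (Pr t) = sh S t.1 + sh S t.2 + sh S (t.1 + t.2) := by
  rw [Pr, sh_mul S (Nat.mul_pos h.pos1 h.pos2).ne' h.pos3.ne', sh_mul S h.pos1.ne' h.pos2.ne']

/-- `log c ≤ log b + 1`. -/
theorem log3_le (h : Tr t) : log (t.1 + t.2 : ℕ) ≤ log t.2 + 1 := by
  have h2 : (0 : ℝ) < t.2 := by exact_mod_cast h.pos2
  have h3 : (0 : ℝ) < (t.1 + t.2 : ℕ) := by exact_mod_cast h.pos3
  have h4 : ((t.1 + t.2 : ℕ) : ℝ) ≤ t.2 * 2 := by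
    have := h.2.1
    exact_mod_cast (by omega : t.1 + t.2 ≤ t.2 * 2)
  have h5 := log_le_log h3 h4
  rw [log_mul h2.ne' two_ne_zero] at h5
  linarith [log_two_lt_d9]

theorem xx_pos (h : Tr t) (i : Fin 3) : 0 < xx i t := by
  fin_cases i
  exacts [h.pos1, h.pos2, h.pos3]

theorem yy_pos (h : Tr t) (i : Fin 3) : 0 < yy i t := by
  fin_cases i
  exacts [h.pos2, h.pos1, h.pos1]

theorem zz_pos (h : Tr t) (i : Fin 3) : 0 < zz i t := by
  fin_cases i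
  exacts [h.pos3, h.pos3, h.pos2]

theorem cop_yz (h : Tr t) (i : Fin 3) : (yy i t).Coprime (zz i t) := by
  fin_cases i
  exacts [h.cop23, h.cop13, h.cop12]

theorem cop_yzx (h : Tr t) (i : Fin 3) : (yy i t * zz i t).Coprime (xx i t) := by
  fin_cases i
  exacts [Nat.Coprime.mul_left h.cop12.symm h.cop13.symm,
    Nat.Coprime.mul_left h.cop12 h.cop23.symm, Nat.Coprime.mul_left h.cop13 h.cop23]

end Tr

theorem Pr_eq (i : Fin 3) (t : ℕ × ℕ) : Pr t = xx i t * (yy i t * zz i t) := by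
  fin_cases i <;> simp [Pr, xx, yy, zz] <;> ring

theorem xx_le (i : Fin 3) (t : ℕ × ℕ) : xx i t ≤ t.1 + t.2 := by
  fin_cases i <;> simp [xx]

theorem yy_le (i : Fin 3) (t : ℕ × ℕ) : yy i t ≤ t.1 + t.2 := by
  fin_cases i <;> simp [yy]

theorem zz_le (i : Fin 3) (t : ℕ × ℕ) : zz i t ≤ t.1 + t.2 := by
  fin_cases i <;> simp [zz]

theorem log_le_of_le {a b : ℕ} (h : a ≤ b) : log (a : ℝ) ≤ log (b : ℝ) := by
  rcases a.eq_zero_or_pos with rfl | ha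
  · simpa using log_nat_nonneg b
  · exact log_le_log (by exact_mod_cast ha) (by exact_mod_cast h)

/-- From a bound for the logarithm to a bound by a power. -/
theorem le_pow_of_log {r m a : ℕ} (hm : 0 < m) (h : log r ≤ a * log m) : r ≤ m ^ a := by
  rcases r.eq_zero_or_pos with rfl | hr
  · exact Nat.zero_le _
  rw [← log_pow, log_le_log_iff (by exact_mod_cast hr) (by positivity)] at h
  exact_mod_cast h

/-- The cross determinant of two solutions is divisible by the common divisors. -/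
theorem cross_dvd {t t' : ℕ × ℕ} (h : Tr t) {D₁ D₂ D₃ : ℕ} (a1 : D₁ ∣ t.1) (a2 : D₂ ∣ t.2)
    (a3 : D₃ ∣ t.1 + t.2) (b1 : D₁ ∣ t'.1) (b2 : D₂ ∣ t'.2) (b3 : D₃ ∣ t'.1 + t'.2) :
    ((D₁ * D₂ * D₃ : ℕ) : ℤ) ∣ (t.1 : ℤ) * t'.2 - t'.1 * t.2 := by
  have c12 : D₁.Coprime D₂ := Nat.Coprime.coprime_dvd_left a1 (h.cop12.coprime_dvd_right a2)
  have c13 : D₁.Coprime D₃ := Nat.Coprime.coprime_dvd_left a1 (h.cop13.coprime_dvd_right a3)
  have c23 : D₂.Coprime D₃ := Nat.Coprime.coprime_dvd_left a2 (h.cop23.coprime_dvd_right a3)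
  have i (x y : ℕ) (hxy : x ∣ y) : (x : ℤ) ∣ (y : ℤ) := Int.natCast_dvd_natCast.2 hxy
  rw [Nat.cast_mul, Nat.cast_mul]
  refine IsCoprime.mul_dvd ?_ (IsCoprime.mul_dvd ?_ ?_ ?_) ?_
  · exact_mod_cast Nat.isCoprime_iff_coprime.2 (Nat.Coprime.mul_left c13 c23)
  · exact Nat.isCoprime_iff_coprime.2 c12
  · exact ((i _ _ a1).mul_right _).sub ((i _ _ b1).mul_right _)
  · exact ((i _ _ b2).mul_left _).sub ((i _ _ a2).mul_left _)
  · have e : (t.1 : ℤ) * t'.2 - t'.1 * t.2 =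
        t.1 * ((t'.1 + t'.2 : ℕ) : ℤ) - t'.1 * ((t.1 + t.2 : ℕ) : ℤ) := by push_cast; ring
    rw [e]
    exact ((i _ _ b3).mul_left _).sub ((i _ _ a3).mul_left _)

theorem eq_of_cross {t t' : ℕ × ℕ} (h : Tr t) (h' : Tr t') (e : t.1 * t'.2 = t'.1 * t.2) :
    t = t' := by
  have d1 : t.1 ∣ t'.1 := h.cop12.dvd_of_dvd_mul_right ⟨_, e.symm⟩
  have d2 : t'.1 ∣ t.1 := h'.cop12.dvd_of_dvd_mul_right ⟨_, e⟩
  have e1 := Nat.dvd_antisymm d1 d2
  rw [e1] at e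
  exact Prod.ext e1 (Nat.eq_of_mul_eq_mul_left h'.pos1 e).symm

/-- The gap principle for two solutions. -/
theorem gap_eq {t t' : ℕ × ℕ} (h : Tr t) (h' : Tr t') {D₁ D₂ D₃ : ℕ} (a1 : D₁ ∣ t.1)
    (a2 : D₂ ∣ t.2) (a3 : D₃ ∣ t.1 + t.2) (b1 : D₁ ∣ t'.1) (b2 : D₂ ∣ t'.2)
    (b3 : D₃ ∣ t'.1 + t'.2) (l1 : t.1 * t'.2 < D₁ * D₂ * D₃) (l2 : t'.1 * t.2 < D₁ * D₂ * D₃) :
    t = t' := by
  have h0 := Int.eq_zero_of_abs_lt_dvd (cross_dvd h a1 a2 a3 b1 b2 b3) (by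
    have m1 : ((t.1 * t'.2 : ℕ) : ℤ) < (D₁ * D₂ * D₃ : ℕ) := by exact_mod_cast l1
    have m2 : ((t'.1 * t.2 : ℕ) : ℤ) < (D₁ * D₂ * D₃ : ℕ) := by exact_mod_cast l2
    have p1 : (0 : ℤ) ≤ (t.1 * t'.2 : ℕ) := Int.natCast_nonneg _
    have p2 : (0 : ℤ) ≤ (t'.1 * t.2 : ℕ) := Int.natCast_nonneg _
    rw [Nat.cast_mul t.1] at m1 p1
    rw [Nat.cast_mul t'.1] at m2 p2
    rw [abs_lt]; constructor <;> linarith)
  exact eq_of_cross h h' (by exact_mod_cast sub_eq_zero.1 h0)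

/-- Counting by classes. -/
theorem card_le_classes {α β : Type} (F : Finset α) (T : Finset β) (P : α → β → Prop) (b : β → ℝ)
    (h1 : ∀ x ∈ F, ∃ y ∈ T, P x y)
    (h2 : ∀ y ∈ T, ∀ F' : Finset α, F' ⊆ F → (∀ x ∈ F', P x y) → (#F' : ℝ) ≤ b y) :
    (#F : ℝ) ≤ ∑ y ∈ T, b y := by
  classical
  have h3 : F ⊆ T.biUnion fun y => F.filter fun x => P x y := fun x hx => by
    obtain ⟨y, hy, hp⟩ := h1 x hx
    exact mem_biUnion.2 ⟨y, hy, mem_filter.2 ⟨hx, hp⟩⟩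
  have h4 : (#F : ℝ) ≤ ∑ y ∈ T, (#(F.filter fun x => P x y) : ℝ) := by
    exact_mod_cast (card_le_card h3).trans card_biUnion_le
  exact h4.trans (sum_le_sum fun y hy =>
    h2 y hy _ (filter_subset _ _) fun x hx => (mem_filter.1 hx).2)

/-- Counting by classes with a uniform bound. -/
theorem card_le_classes' {α β : Type} (F : Finset α) (T : Finset β) (P : α → β → Prop) (b : ℝ)
    (h1 : ∀ x ∈ F, ∃ y ∈ T, P x y)
    (h2 : ∀ y ∈ T, ∀ F' : Finset α, F' ⊆ F → (∀ x ∈ F', P x y) → (#F' : ℝ) ≤ b) :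
    (#F : ℝ) ≤ #T * b := by
  simpa using card_le_classes F T P (fun _ => b) h1 h2

theorem card_Icc_floor {Y : ℝ} (hY : 0 ≤ Y) : (#(Icc 1 ⌊Y⌋₊) : ℝ) ≤ Y := by
  simpa using Nat.floor_le hY

theorem two_rpow_le {s ε X : ℝ} (hX : 0 < X) (hs : 0 ≤ s) (h : s ≤ ε * log X) :
    (2 : ℝ) ^ s ≤ X ^ ε := by
  rw [rpow_def_of_pos two_pos, rpow_def_of_pos hX, exp_le_exp]
  nlinarith [log_two_lt_d9]

/-- Constants and logarithms are absorbed by small powers. -/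
theorem absorb (C : ℝ) {ε : ℝ} (hε : 0 < ε) : ∃ X₀ : ℝ, ∀ X ≥ X₀, 3 ≤ X ∧ 1 ≤ log X ∧
    C ≤ log X ∧ C ≤ X ^ ε ∧ C * log X ≤ X ^ ε := by
  have h1 : ∀ᶠ X : ℝ in Filter.atTop, max 1 C ≤ log X :=
    tendsto_log_atTop.eventually_ge_atTop _
  have h2 := (isLittleO_log_rpow_atTop hε).bound (c := 1 / (|C| + 1)) (by positivity)
  obtain ⟨X₀, h⟩ := Filter.eventually_atTop.1 (h1.and (h2.and (Filter.eventually_ge_atTop 3)))
  refine ⟨X₀, fun X hX => ?_⟩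
  obtain ⟨a1, a2, a3⟩ := h X hX
  obtain ⟨b1, b2⟩ := max_le_iff.1 a1
  rw [Real.norm_of_nonneg (by linarith), Real.norm_of_nonneg (by positivity), one_div,
    inv_mul_eq_div, le_div_iff₀ (by positivity)] at a2
  have b3 := le_abs_self C
  have b4 := abs_nonneg C
  exact ⟨a3, b1, b2, by nlinarith, by nlinarith⟩

end Pool.Agent.Lib.CR
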